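import Pool.Agent.Lib.MP_172a45_an.LT.Chk

set_option autoImplicit false

/-!
# The checker `LT/Chk` with a sharper bound of the first term (form 3)

With `x = X / b`, `J k = √(x k (2 T k - b x k))`, `c = a / (1 + a) ≤ 1/2`:
`F1 / b ≤ (1 + c (∑ x) / N) ∏ A + (c² / N) (∑ J) (∑_k J k ∏_{l ≠ k} A l)`;
the cell `cJ` (`q > 0`, `kap² p ≤ q`, so that `w ≥ 2 kap p J`) bounds the last factor by
`e⁻¹ / (2 kap p) * exp (∑ Psi)`.
-/

namespace Pool.Agent.Lib.MP_172a45_an.LT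

open Pool.Agent.Lib.MP_172a45_an.LP (rk lk)

/-- lower bound of `m_b(a) = (b a - log (1 + b a)) / b²` on the `b`-cell: `y²/2 - b1 y³/3` at
`y = 1 - b1` -/
def mloJ (b1 : ℕ) : ℕ :=
  md (16777216 - b1) (16777216 - b1) / 2 -
    (mu b1 (mu (16777216 - b1) (mu (16777216 - b1) (16777216 - b1))) / 3 + 1)

/-- upper bound of `∑ x` (form 3; `K` a bound of the row constant) -/
def sXJ (J : TJ) (ymax N K : ℕ) : ℕ :=
  let den := 16777216 + mu J.b1 ymax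
  mu (K - N * mloJ J.b1) (mu J.ka (mu den den))

/-- upper bound of `∑ J` from `J ≤ (lam x + 2 T / lam) / 2` -/
def sJJ (J : TJ) (N lam sX : ℕ) : ℕ :=
  (mu lam sX + (2 * N * (33554432 - J.b0) * 16777216 / lam + 1)) / 2 + 1

/-- the bound of the first term, divided by `b` -/
def fpJ (J : TJ) (ymax N K kap lam pJ kF kJ : ℕ) : ℕ :=
  let sX := sXJ J ymax N K
  rg kF + (mu sX (rg kF) / (2 * N) + 1) +
    (sJJ J N lam sX * rg kJ * 36788 * 16777216 / (800000 * N * (kap * pJ)) + 1)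

/-- the cell for the product with one factor removed, at `τ = a/(1+a)` (`q > 0`) -/
def fcJ (J : TJ) (ymax tF : ℕ) (c : TT) : Bool :=
  (Nat.ble (tF * (33554432 - J.b1)) ((16777216 - J.b1) * 16777216) &&
      (Nat.ble ((16777216 - J.b0) * 16777216) (c.t1 * (33554432 - J.b0)) &&
        (Nat.ble tF c.t1 && (Nat.blt 0 c.p && Nat.blt 0 c.q)))) &&
    cols J tF c.t1 c.p c.q c.na c.nb ymax 0 0 0 c.ys

/-- per `N` data: as `NT`, and the index `gJ` of the bound of the cell `cJ` -/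
structure NTJ where
  N : ℕ
  ja : ℕ
  jb : ℕ
  gs : List ℕ
  gF : ℕ
  gJ : ℕ

/-- the check for one `N` -/
def nokJ (J : TJ) (ymax : ℕ) (cF cJ : TT) (kap lam : ℕ) (cs : List TT) (n : NTJ) : Bool :=
  let Ka := rowKa J n.N n.ja n.jb
  let Kb := rowKb J n.N n.ja n.jb
  ((Nat.blt 0 n.N && Nat.ble (n.N * (16777216 - J.b0)) ymax) && rowKok J n.N n.ja n.jb) &&
  ((vch J n.N Ka Kb cF.na n.gF && vch J n.N Ka Kb cF.nb n.gF) &&
  ((vch J n.N Ka Kb cJ.na n.gJ && vch J n.N Ka Kb cJ.nb n.gJ) &&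
    gsm J n.N Ka Kb (RR J J.b1 / 16777216) 0 cs n.gs
      (fpJ J ymax n.N (bif Nat.ble Ka Kb then Kb else Ka) kap lam cJ.p n.gF n.gJ)))

/-- a complete job (form 3) -/
structure JobJ where
  J : TJ
  ymax : ℕ
  tF : ℕ
  cF : TT
  cJ : TT
  kap : ℕ
  lam : ℕ
  cs : List TT
  ns : List NTJ

/-- the checker. SOUNDNESS: if `j.ok` then for every `n ∈ j.ns` there is no `FT n.N a Δ y X` with
`j.J.b0/S ≤ 1 - a ≤ j.J.b1/S` and `lk j.J.kD/S - 8 ≤ Δ` -/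
def JobJ.ok (j : JobJ) : Bool :=
  (jok j.J && (Nat.beq j.J.form 3 && (Nat.blt 0 j.kap && (Nat.blt 0 j.lam &&
    Nat.ble (j.kap * j.kap * j.cJ.p) (281474976710656 * j.cJ.q))))) &&
  (fcl j.J j.ymax j.tF j.cF && (fcJ j.J j.ymax j.tF j.cJ && (tcs j.J j.ymax 0 j.cs &&
    j.ns.all (nokJ j.J j.ymax j.cF j.cJ j.kap j.lam j.cs))))

end Pool.Agent.Lib.MP_172a45_an.LT
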