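import Pool.Agent.Lib.MP_172a45_an.LT.Asm
import Pool.Agent.Lib.MP_172a45_an.LT.ChkJ

set_option autoImplicit false
set_option maxRecDepth 100000

/-!
# Chains of `TC` certificates: first `JobJ`'s (small `b`), then `Job`'s
-/

namespace Pool.Agent.Lib.MP_172a45_an.LT

open Finset Real
open Pool.Agent.Lib.MP_172a45_an.LP (rk lk)
open Pool.Agent.Lib.MP_172a45_an.F (FT FV)

/-- soundness of the checker `JobJ.ok` -/
def SoundStatementJ : Prop := ∀ j : JobJ, j.ok = true → ∀ n ∈ j.ns, ∀ (a Δ : ℝ)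
  (y X : Fin n.N → ℝ), FT n.N a Δ y X → (j.J.b0 : ℝ) / 16777216 ≤ 1 - a →
  1 - a ≤ (j.J.b1 : ℝ) / 16777216 → (lk j.J.kD : ℝ) / 16777216 - 8 ≤ Δ → False

/-- the `b`-cells of `JobJ`'s from `b` on, then those of the `Job`'s `ps` up to `bend` -/
def covJ (N kD bend : ℕ) (ps : List Job) : ℕ → List JobJ → Bool
  | b, [] => cov N kD bend b ps
  | b, j :: js => Nat.ble j.J.b0 b && (Nat.beq j.J.kD kD &&
      (j.ns.any (fun n => Nat.beq n.N N) && covJ N kD bend ps j.J.b1 js))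

theorem covJ_sound (hs : SoundStatement) (hsJ : SoundStatementJ) {N kD bend : ℕ}
    {ps : List Job} (hp : ∀ j ∈ ps, j.ok = true) : ∀ (js : List JobJ) (b : ℕ),
    covJ N kD bend ps b js = true → (∀ j ∈ js, j.ok = true) → ∀ (a Δ : ℝ) (y X : Fin N → ℝ),
    FT N a Δ y X → (b : ℝ) / 16777216 ≤ 1 - a → 1 - a ≤ (bend : ℝ) / 16777216 →
    (lk kD : ℝ) / 16777216 - 8 ≤ Δ → (b : ℝ) / 16777216 < (bend : ℝ) / 16777216 → False := by
  intro js
  induction js with
  | nil =>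
    intro b h _ a Δ y X hF hb1 hb2 hD hbb
    exact cov_sound hs ps b h hp a Δ y X hF hb1 hb2 hD hbb
  | cons j js ih =>
    intro b h hok a Δ y X hF hb1 hb2 hD hbb
    have h0 : (Nat.ble j.J.b0 b && (Nat.beq j.J.kD kD &&
      (j.ns.any (fun n => Nat.beq n.N N) && covJ N kD bend ps j.J.b1 js))) = true := h
    rw [Bool.and_eq_true, Bool.and_eq_true, Bool.and_eq_true] at h0
    obtain ⟨h1, h2, h3, h4⟩ := h0
    have h1' : j.J.b0 ≤ b := Nat.le_of_ble_eq_true h1
    have h1'' : (j.J.b0 : ℝ) / 16777216 ≤ (b : ℝ) / 16777216 := by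
      have : (j.J.b0 : ℝ) ≤ b := by exact_mod_cast h1'
      gcongr
    have h2' : j.J.kD = kD := Nat.eq_of_beq_eq_true h2
    rcases le_or_gt (1 - a) ((j.J.b1 : ℝ) / 16777216) with hc | hc
    · obtain ⟨n, hn, hnN⟩ := List.any_eq_true.1 h3
      have hN : n.N = N := Nat.eq_of_beq_eq_true hnN
      subst hN
      refine hsJ j (hok j List.mem_cons_self) n hn a Δ y X hF (h1''.trans hb1) hc ?_
      rw [h2']; exact hD
    · exact ih j.J.b1 h4 (fun i hi => hok i (List.mem_cons_of_mem _ hi)) a Δ y X hF hc.le hb2 hD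
        (lt_of_lt_of_le hc hb2)

/-- check for a group of jobs -/
def gokJ (js : List JobJ) (ps : List Job) (kD bend : ℕ) (l : List (ℕ × ℕ)) : Bool :=
  Nat.blt 0 bend && l.all fun p => covJ p.1 kD bend ps 0 js && endok p.1 bend p.2

theorem gokJ_sound (hs : SoundStatement) (hsJ : SoundStatementJ) {js : List JobJ}
    {ps : List Job} {kD bend : ℕ} {l : List (ℕ × ℕ)}
    (h : gokJ js ps kD bend l = true) (hok : ∀ j ∈ js, j.ok = true) (hp : ∀ j ∈ ps, j.ok = true)
    {N : ℕ} {i : ℕ} (hN : (N, i) ∈ l) {a Δ : ℝ} {y X : Fin N → ℝ} (hF : FT N a Δ y X)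
    (hD : (lk kD : ℝ) / 16777216 - 8 ≤ Δ) : False := by
  unfold gokJ at h
  rw [Bool.and_eq_true, List.all_eq_true] at h
  obtain ⟨h0, h⟩ := h
  have h1 := h (N, i) hN
  rw [Bool.and_eq_true] at h1
  have hbe : (0 : ℝ) < (bend : ℝ) := by
    exact_mod_cast Nat.lt_of_succ_le (Nat.le_of_ble_eq_true h0)
  rcases le_or_gt (1 - a) ((bend : ℝ) / 16777216) with hc | hc
  · refine covJ_sound hs hsJ hp js 0 h1.1 hok a Δ y X hF ?_ hc hD ?_
    · have := hF.a1
      simp only [Nat.cast_zero, zero_div]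
      linarith
    · simp only [Nat.cast_zero, zero_div]
      positivity
  · exact endok_sound h1.2 hF.toFV hc.le

end Pool.Agent.Lib.MP_172a45_an.LT
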