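import Pool.Agent.Lib.MP_172a45_an.LT.D46a
import Pool.Agent.Lib.MP_172a45_an.LT.D46b

/-!
# Certificates for `46 ≤ N ≤ 52` (functional `TC`)
-/
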