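import Pool.Agent.Lib.MP_172a45_an.LT.D31
import Pool.Agent.Lib.MP_172a45_an.LT.D38
import Pool.Agent.Lib.MP_172a45_an.LT.D46
import Pool.Agent.Lib.MP_172a45_an.LT.D53
import Pool.Agent.Lib.MP_172a45_an.LT.D60
import Pool.Agent.Lib.MP_172a45_an.LT.D70
import Pool.Agent.Lib.MP_172a45_an.LT.D80
import Pool.Agent.Lib.MP_172a45_an.LT.D90
import Pool.Agent.Lib.MP_172a45_an.LP.Sound5
import Pool.Agent.Lib.MP_172a45_an.F.TC

set_option autoImplicit false
set_option maxRecDepth 100000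

/-!
# Assembly of the `TC` certificates, `31 ≤ N ≤ 99`
-/

namespace Pool.Agent.Lib.MP_172a45_an.LT

open Finset Real
open Pool.Agent.Lib.MP_172a45_an.LP (rk lk)
open Pool.Agent.Lib.MP_172a45_an.F (FT FV)

/-- soundness of the checker -/
def SoundStatement : Prop := ∀ j : Job, j.ok = true → ∀ n ∈ j.ns, ∀ (a Δ : ℝ)
  (y X : Fin n.N → ℝ), FT n.N a Δ y X → (j.J.b0 : ℝ) / 16777216 ≤ 1 - a →
  1 - a ≤ (j.J.b1 : ℝ) / 16777216 → (lk j.J.kD : ℝ) / 16777216 - 8 ≤ Δ → False

/-- the `b`-cells of the jobs cover `[b, bend]` -/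
def cov (N kD bend : ℕ) : ℕ → List Job → Bool
  | b, [] => Nat.ble bend b
  | b, j :: js => Nat.ble j.J.b0 b && (Nat.beq j.J.kD kD &&
      (j.ns.any (fun n => Nat.beq n.N N) && cov N kD bend j.J.b1 js))

theorem cov_sound (hs : SoundStatement) {N kD bend : ℕ} : ∀ (js : List Job) (b : ℕ),
    cov N kD bend b js = true → (∀ j ∈ js, j.ok = true) → ∀ (a Δ : ℝ) (y X : Fin N → ℝ),
    FT N a Δ y X → (b : ℝ) / 16777216 ≤ 1 - a → 1 - a ≤ (bend : ℝ) / 16777216 →
    (lk kD : ℝ) / 16777216 - 8 ≤ Δ → (b : ℝ) / 16777216 < (bend : ℝ) / 16777216 → False := by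
  intro js
  induction js with
  | nil =>
    intro b h _ a Δ y X _ _ _ _ h5
    have h1 : bend ≤ b := Nat.le_of_ble_eq_true h
    have h2 : (bend : ℝ) ≤ b := by exact_mod_cast h1
    have h3 : (bend : ℝ) / 16777216 ≤ (b : ℝ) / 16777216 := by gcongr
    linarith
  | cons j js ih =>
    intro b h hok a Δ y X hF hb1 hb2 hD hbb
    have h0 : (Nat.ble j.J.b0 b && (Nat.beq j.J.kD kD &&
      (j.ns.any (fun n => Nat.beq n.N N) && cov N kD bend j.J.b1 js))) = true := h
    rw [Bool.and_eq_true, Bool.and_eq_true, Bool.and_eq_true] at h0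
    obtain ⟨h1, h2, h3, h4⟩ := h0
    have h1' : j.J.b0 ≤ b := Nat.le_of_ble_eq_true h1
    have h1'' : (j.J.b0 : ℝ) / 16777216 ≤ (b : ℝ) / 16777216 := by
      have : (j.J.b0 : ℝ) ≤ b := by exact_mod_cast h1'
      gcongr
    have h2' : j.J.kD = kD := Nat.eq_of_beq_eq_true h2
    rcases le_or_gt (1 - a) ((j.J.b1 : ℝ) / 16777216) with hc | hc
    · obtain ⟨n, hn, hnN⟩ := List.any_eq_true.1 h3
      have hN : n.N = N := Nat.eq_of_beq_eq_true hnN
      subst hN
      refine hs j (hok j List.mem_cons_self) n hn a Δ y X hF (h1''.trans hb1) hc ?_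
      rw [h2']; exact hD
    · exact ih j.J.b1 h4 (fun i hi => hok i (List.mem_cons_of_mem _ hi)) a Δ y X hF hc.le hb2 hD
        (lt_of_lt_of_le hc hb2)

/-- the row gives `log (1 + b N) ≤ b (1 - b) N` -/
theorem row_le {N : ℕ} {a Δ : ℝ} {y X : Fin N → ℝ} (h : FV N a Δ y X) :
    Real.log (1 + (1 - a) * N) ≤ (1 - a) * (a * N) := by
  have ha0 := h.a0
  have ha1 := h.a1
  have hb : 0 < 1 - a := by linarith
  have hN : (0 : ℝ) ≤ N := Nat.cast_nonneg N
  have h1 : Real.log (1 + (1 - a) * N) ≤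
      Real.log (1 + (1 - a) * N * (1 + a * (1 - a) / 2)) := by
    apply Real.log_le_log
    · positivity
    · have : 0 ≤ (1 - a) * N * (a * (1 - a) / 2) := by positivity
      nlinarith
  refine (h1.trans h.rw').trans ?_
  rw [← h.sum, Finset.mul_sum]
  refine Finset.sum_le_sum fun k _ => ?_
  have hy := h.y0 k
  have hX := h.X0 k
  have hE := h.rwpos k
  have h2 : (1 + (1 - a) * y k) ^ 2 - 2 * a * (1 - a) * X k ≤ (1 + (1 - a) * y k) ^ 2 := by
    have : 0 ≤ 2 * a * (1 - a) * X k := by positivity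
    linarith
  have h3 : 0 < 1 + (1 - a) * y k := by positivity
  have h4 := Real.log_le_log (by linarith) h2
  rw [Real.log_pow] at h4
  have h5 := Real.log_le_sub_one_of_pos h3
  push_cast at h4
  linarith

/-- numerical check: `b (1 - b) N < log (1 + b N)` at `b = bend / S ≥ 1/2` -/
def endok (N bend j : ℕ) : Bool :=
  Nat.ble 8388608 bend && (Nat.ble bend 16777216 && (LP.logok (16777216 + N * bend) j &&
    Nat.blt (N * bend * (16777216 - bend))
      (LP.loglo (16777216 + N * bend) j * 16777216)))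

theorem end_real {N : ℕ} {a Δ : ℝ} {y X : Fin N → ℝ} (hF : FV N a Δ y X) {B : ℝ}
    (hB1 : 1 / 2 ≤ B) (hb : B ≤ 1 - a) (hlt : B * (1 - B) * N < Real.log (1 + B * N)) :
    False := by
  have h6 := row_le hF
  have ha0 := hF.a0
  have ha1 := hF.a1
  have hN : (0 : ℝ) ≤ N := Nat.cast_nonneg N
  have hBN : 0 ≤ B * N := mul_nonneg (by linarith) hN
  have h7 : Real.log (1 + B * N) ≤ Real.log (1 + (1 - a) * N) := by
    apply Real.log_le_log
    · linarith
    · have := mul_le_mul_of_nonneg_right hb hN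
      linarith
  have h8 : (1 - a) * (a * N) ≤ B * (1 - B) * N := by
    have : (1 - a) * a ≤ B * (1 - B) := by nlinarith
    nlinarith [mul_le_mul_of_nonneg_right this hN]
  linarith

theorem end_cast {N bend l : ℕ} (h2 : bend ≤ 16777216)
    (h : N * bend * (16777216 - bend) < l * 16777216) :
    (bend : ℝ) / 16777216 * (1 - (bend : ℝ) / 16777216) * N < (l : ℝ) / 16777216 := by
  have hc : ((N * bend * (16777216 - bend) : ℕ) : ℝ) < ((l * 16777216 : ℕ) : ℝ) := by
    exact_mod_cast h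
  rw [Nat.cast_mul, Nat.cast_mul, Nat.cast_sub h2, Nat.cast_mul] at hc
  push_cast at hc
  have e : (bend : ℝ) / 16777216 * (1 - (bend : ℝ) / 16777216) * N =
      (N : ℝ) * bend * (16777216 - bend) / 16777216 / 16777216 := by
    field_simp
  rw [e]
  have h3 : (N : ℝ) * bend * (16777216 - bend) / 16777216 < l := by
    rw [div_lt_iff₀ (by norm_num)]
    exact hc
  exact div_lt_div_of_pos_right h3 (by norm_num)

theorem endok_sound {N bend j : ℕ} (h : endok N bend j = true) {a Δ : ℝ} {y X : Fin N → ℝ}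
    (hF : FV N a Δ y X) (hb : (bend : ℝ) / 16777216 ≤ 1 - a) : False := by
  unfold endok at h
  rw [Bool.and_eq_true, Bool.and_eq_true, Bool.and_eq_true] at h
  obtain ⟨h1, h2, h3, h4⟩ := h
  have h5 := LP.loglo_sound h3
  have h4' := end_cast (Nat.le_of_ble_eq_true h2) (Nat.lt_of_succ_le (Nat.le_of_ble_eq_true h4))
  have h1' : (1 : ℝ) / 2 ≤ (bend : ℝ) / 16777216 := by
    have h6 : (8388608 : ℝ) ≤ bend := by exact_mod_cast Nat.le_of_ble_eq_true h1
    rw [le_div_iff₀ (by norm_num)]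
    linarith
  rw [LP.va_add, LP.va_S, LP.va_nmul] at h5
  have h7 : (N : ℝ) * LP.va bend = (bend : ℝ) / 16777216 * N := by
    unfold LP.va; ring
  rw [h7] at h5
  exact end_real hF h1' hb (lt_of_lt_of_le h4' h5)

/-- check for a group of jobs -/
def gok (js : List Job) (kD bend : ℕ) (l : List (ℕ × ℕ)) : Bool :=
  Nat.blt 0 bend && l.all fun p => cov p.1 kD bend 0 js && endok p.1 bend p.2

theorem gok_sound (hs : SoundStatement) {js : List Job} {kD bend : ℕ} {l : List (ℕ × ℕ)}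
    (h : gok js kD bend l = true) (hok : ∀ j ∈ js, j.ok = true) {N : ℕ} {i : ℕ}
    (hN : (N, i) ∈ l) {a Δ : ℝ} {y X : Fin N → ℝ} (hF : FT N a Δ y X)
    (hD : (lk kD : ℝ) / 16777216 - 8 ≤ Δ) : False := by
  unfold gok at h
  rw [Bool.and_eq_true, List.all_eq_true] at h
  obtain ⟨h0, h⟩ := h
  have h1 := h (N, i) hN
  rw [Bool.and_eq_true] at h1
  have hbe : (0 : ℝ) < (bend : ℝ) := by
    exact_mod_cast Nat.lt_of_succ_le (Nat.le_of_ble_eq_true h0)
  rcases le_or_gt (1 - a) ((bend : ℝ) / 16777216) with hc | hc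
  · refine cov_sound hs js 0 h1.1 hok a Δ y X hF ?_ hc hD ?_
    · have := hF.a1
      simp only [Nat.cast_zero, zero_div]
      linarith
    · simp only [Nat.cast_zero, zero_div]
      positivity
  · exact endok_sound h1.2 hF.toFV hc.le

def jsD31 : List Job := [D31.j0, D31.j1, D31.j2, D31.j3, D31.j4, D31.j5, D31.j6, D31.j7, D31.j8, D31.j9, D31.j10, D31.j11, D31.j12, D31.j13, D31.j14, D31.j15, D31.j16, D31.j17]

theorem jsD31_ok : ∀ j ∈ jsD31, j.ok = true := by
  intro j hj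
  simp only [jsD31, List.mem_cons, List.not_mem_nil, or_false] at hj
  rcases hj with rfl | rfl | rfl | rfl | rfl | rfl | rfl | rfl | rfl | rfl | rfl | rfl | rfl | rfl | rfl | rfl | rfl | rfl
  · exact D31.j0_ok
  · exact D31.j1_ok
  · exact D31.j2_ok
  · exact D31.j3_ok
  · exact D31.j4_ok
  · exact D31.j5_ok
  · exact D31.j6_ok
  · exact D31.j7_ok
  · exact D31.j8_ok
  · exact D31.j9_ok
  · exact D31.j10_ok
  · exact D31.j11_ok
  · exact D31.j12_ok
  · exact D31.j13_ok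
  · exact D31.j14_ok
  · exact D31.j15_ok
  · exact D31.j16_ok
  · exact D31.j17_ok

def lD31 : List (ℕ × ℕ) := [(31, 203), (32, 200), (33, 197), (34, 194), (35, 192), (36, 189), (37, 187)]

theorem gD31_ok : gok jsD31 650 14994637 lD31 = true := by decide +kernel

theorem gD31 (hs : SoundStatement) {N : ℕ} (h1 : 31 ≤ N) (h2 : N ≤ 37) {a Δ : ℝ}
    {y X : Fin N → ℝ} (hF : FT N a Δ y X) (hD : (lk 650 : ℝ) / 16777216 - 8 ≤ Δ) : False := by
  have hm : ∃ i, (N, i) ∈ lD31 := by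
    interval_cases N
    · exact ⟨203, by decide⟩
    · exact ⟨200, by decide⟩
    · exact ⟨197, by decide⟩
    · exact ⟨194, by decide⟩
    · exact ⟨192, by decide⟩
    · exact ⟨189, by decide⟩
    · exact ⟨187, by decide⟩
  obtain ⟨i, hi⟩ := hm
  exact gok_sound hs gD31_ok jsD31_ok hi hF hD

def jsD38 : List Job := [D38.j0, D38.j1, D38.j2, D38.j3, D38.j4, D38.j5, D38.j6, D38.j7, D38.j8, D38.j9, D38.j10, D38.j11, D38.j12, D38.j13, D38.j14]

theorem jsD38_ok : ∀ j ∈ jsD38, j.ok = true := by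
  intro j hj
  simp only [jsD38, List.mem_cons, List.not_mem_nil, or_false] at hj
  rcases hj with rfl | rfl | rfl | rfl | rfl | rfl | rfl | rfl | rfl | rfl | rfl | rfl | rfl | rfl | rfl
  · exact D38.j0_ok
  · exact D38.j1_ok
  · exact D38.j2_ok
  · exact D38.j3_ok
  · exact D38.j4_ok
  · exact D38.j5_ok
  · exact D38.j6_ok
  · exact D38.j7_ok
  · exact D38.j8_ok
  · exact D38.j9_ok
  · exact D38.j10_ok
  · exact D38.j11_ok
  · exact D38.j12_ok
  · exact D38.j13_ok
  · exact D38.j14_ok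

def lD38 : List (ℕ × ℕ) := [(38, 183), (39, 180), (40, 178), (41, 176), (42, 174), (43, 172), (44, 170), (45, 168)]

theorem gD38_ok : gok jsD38 650 15253006 lD38 = true := by decide +kernel

theorem gD38 (hs : SoundStatement) {N : ℕ} (h1 : 38 ≤ N) (h2 : N ≤ 45) {a Δ : ℝ}
    {y X : Fin N → ℝ} (hF : FT N a Δ y X) (hD : (lk 650 : ℝ) / 16777216 - 8 ≤ Δ) : False := by
  have hm : ∃ i, (N, i) ∈ lD38 := by
    interval_cases N
    · exact ⟨183, by decide⟩
    · exact ⟨180, by decide⟩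
    · exact ⟨178, by decide⟩
    · exact ⟨176, by decide⟩
    · exact ⟨174, by decide⟩
    · exact ⟨172, by decide⟩
    · exact ⟨170, by decide⟩
    · exact ⟨168, by decide⟩
  obtain ⟨i, hi⟩ := hm
  exact gok_sound hs gD38_ok jsD38_ok hi hF hD

def jsD46 : List Job := [D46.j0, D46.j1, D46.j2, D46.j3, D46.j4, D46.j5, D46.j6, D46.j7, D46.j8, D46.j9, D46.j10, D46.j11, D46.j12, D46.j13, D46.j14]

theorem jsD46_ok : ∀ j ∈ jsD46, j.ok = true := by
  intro j hj
  simp only [jsD46, List.mem_cons, List.not_mem_nil, or_false] at hj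
  rcases hj with rfl | rfl | rfl | rfl | rfl | rfl | rfl | rfl | rfl | rfl | rfl | rfl | rfl | rfl | rfl
  · exact D46.j0_ok
  · exact D46.j1_ok
  · exact D46.j2_ok
  · exact D46.j3_ok
  · exact D46.j4_ok
  · exact D46.j5_ok
  · exact D46.j6_ok
  · exact D46.j7_ok
  · exact D46.j8_ok
  · exact D46.j9_ok
  · exact D46.j10_ok
  · exact D46.j11_ok
  · exact D46.j12_ok
  · exact D46.j13_ok
  · exact D46.j14_ok

def lD46 : List (ℕ × ℕ) := [(46, 165), (47, 163), (48, 161), (49, 159), (50, 157), (51, 155), (52, 154)]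

theorem gD46_ok : gok jsD46 650 15420275 lD46 = true := by decide +kernel

theorem gD46 (hs : SoundStatement) {N : ℕ} (h1 : 46 ≤ N) (h2 : N ≤ 52) {a Δ : ℝ}
    {y X : Fin N → ℝ} (hF : FT N a Δ y X) (hD : (lk 650 : ℝ) / 16777216 - 8 ≤ Δ) : False := by
  have hm : ∃ i, (N, i) ∈ lD46 := by
    interval_cases N
    · exact ⟨165, by decide⟩
    · exact ⟨163, by decide⟩
    · exact ⟨161, by decide⟩
    · exact ⟨159, by decide⟩
    · exact ⟨157, by decide⟩
    · exact ⟨155, by decide⟩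
    · exact ⟨154, by decide⟩
  obtain ⟨i, hi⟩ := hm
  exact gok_sound hs gD46_ok jsD46_ok hi hF hD

def jsD53 : List Job := [D53.j0, D53.j1, D53.j2, D53.j3, D53.j4, D53.j5, D53.j6, D53.j7, D53.j8, D53.j9, D53.j10, D53.j11, D53.j12, D53.j13, D53.j14, D53.j15, D53.j16]

theorem jsD53_ok : ∀ j ∈ jsD53, j.ok = true := by
  intro j hj
  simp only [jsD53, List.mem_cons, List.not_mem_nil, or_false] at hj
  rcases hj with rfl | rfl | rfl | rfl | rfl | rfl | rfl | rfl | rfl | rfl | rfl | rfl | rfl | rfl | rfl | rfl | rfl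
  · exact D53.j0_ok
  · exact D53.j1_ok
  · exact D53.j2_ok
  · exact D53.j3_ok
  · exact D53.j4_ok
  · exact D53.j5_ok
  · exact D53.j6_ok
  · exact D53.j7_ok
  · exact D53.j8_ok
  · exact D53.j9_ok
  · exact D53.j10_ok
  · exact D53.j11_ok
  · exact D53.j12_ok
  · exact D53.j13_ok
  · exact D53.j14_ok
  · exact D53.j15_ok
  · exact D53.j16_ok

def lD53 : List (ℕ × ℕ) := [(53, 151), (54, 149), (55, 148), (56, 146), (57, 144), (58, 143), (59, 141)]

theorem gD53_ok : gok jsD53 650 15551808 lD53 = true := by decide +kernel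

theorem gD53 (hs : SoundStatement) {N : ℕ} (h1 : 53 ≤ N) (h2 : N ≤ 59) {a Δ : ℝ}
    {y X : Fin N → ℝ} (hF : FT N a Δ y X) (hD : (lk 650 : ℝ) / 16777216 - 8 ≤ Δ) : False := by
  have hm : ∃ i, (N, i) ∈ lD53 := by
    interval_cases N
    · exact ⟨151, by decide⟩
    · exact ⟨149, by decide⟩
    · exact ⟨148, by decide⟩
    · exact ⟨146, by decide⟩
    · exact ⟨144, by decide⟩
    · exact ⟨143, by decide⟩
    · exact ⟨141, by decide⟩
  obtain ⟨i, hi⟩ := hm
  exact gok_sound hs gD53_ok jsD53_ok hi hF hD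

def jsD60 : List Job := [D60.j0, D60.j1, D60.j2, D60.j3, D60.j4, D60.j5, D60.j6, D60.j7, D60.j8, D60.j9, D60.j10, D60.j11, D60.j12, D60.j13, D60.j14, D60.j15, D60.j16, D60.j17, D60.j18, D60.j19, D60.j20]

theorem jsD60_ok : ∀ j ∈ jsD60, j.ok = true := by
  intro j hj
  simp only [jsD60, List.mem_cons, List.not_mem_nil, or_false] at hj
  rcases hj with rfl | rfl | rfl | rfl | rfl | rfl | rfl | rfl | rfl | rfl | rfl | rfl | rfl | rfl | rfl | rfl | rfl | rfl | rfl | rfl | rfl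
  · exact D60.j0_ok
  · exact D60.j1_ok
  · exact D60.j2_ok
  · exact D60.j3_ok
  · exact D60.j4_ok
  · exact D60.j5_ok
  · exact D60.j6_ok
  · exact D60.j7_ok
  · exact D60.j8_ok
  · exact D60.j9_ok
  · exact D60.j10_ok
  · exact D60.j11_ok
  · exact D60.j12_ok
  · exact D60.j13_ok
  · exact D60.j14_ok
  · exact D60.j15_ok
  · exact D60.j16_ok
  · exact D60.j17_ok
  · exact D60.j18_ok
  · exact D60.j19_ok
  · exact D60.j20_ok

def lD60 : List (ℕ × ℕ) := [(60, 139), (61, 137), (62, 136), (63, 135), (64, 133), (65, 132), (66, 130), (67, 129), (68, 128), (69, 126)]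

theorem gD60_ok : gok jsD60 615 15698105 lD60 = true := by decide +kernel

theorem gD60 (hs : SoundStatement) {N : ℕ} (h1 : 60 ≤ N) (h2 : N ≤ 69) {a Δ : ℝ}
    {y X : Fin N → ℝ} (hF : FT N a Δ y X) (hD : (lk 615 : ℝ) / 16777216 - 8 ≤ Δ) : False := by
  have hm : ∃ i, (N, i) ∈ lD60 := by
    interval_cases N
    · exact ⟨139, by decide⟩
    · exact ⟨137, by decide⟩
    · exact ⟨136, by decide⟩
    · exact ⟨135, by decide⟩
    · exact ⟨133, by decide⟩
    · exact ⟨132, by decide⟩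
    · exact ⟨130, by decide⟩
    · exact ⟨129, by decide⟩
    · exact ⟨128, by decide⟩
    · exact ⟨126, by decide⟩
  obtain ⟨i, hi⟩ := hm
  exact gok_sound hs gD60_ok jsD60_ok hi hF hD

def jsD70 : List Job := [D70.j0, D70.j1, D70.j2, D70.j3, D70.j4, D70.j5, D70.j6, D70.j7, D70.j8, D70.j9, D70.j10, D70.j11, D70.j12, D70.j13, D70.j14, D70.j15, D70.j16, D70.j17, D70.j18]

theorem jsD70_ok : ∀ j ∈ jsD70, j.ok = true := by
  intro j hj
  simp only [jsD70, List.mem_cons, List.not_mem_nil, or_false] at hj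
  rcases hj with rfl | rfl | rfl | rfl | rfl | rfl | rfl | rfl | rfl | rfl | rfl | rfl | rfl | rfl | rfl | rfl | rfl | rfl | rfl
  · exact D70.j0_ok
  · exact D70.j1_ok
  · exact D70.j2_ok
  · exact D70.j3_ok
  · exact D70.j4_ok
  · exact D70.j5_ok
  · exact D70.j6_ok
  · exact D70.j7_ok
  · exact D70.j8_ok
  · exact D70.j9_ok
  · exact D70.j10_ok
  · exact D70.j11_ok
  · exact D70.j12_ok
  · exact D70.j13_ok
  · exact D70.j14_ok
  · exact D70.j15_ok
  · exact D70.j16_ok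
  · exact D70.j17_ok
  · exact D70.j18_ok

def lD70 : List (ℕ × ℕ) := [(70, 124), (71, 123), (72, 122), (73, 120), (74, 119), (75, 118), (76, 117), (77, 116), (78, 114), (79, 113)]

theorem gD70_ok : gok jsD70 627 15810848 lD70 = true := by decide +kernel

theorem gD70 (hs : SoundStatement) {N : ℕ} (h1 : 70 ≤ N) (h2 : N ≤ 79) {a Δ : ℝ}
    {y X : Fin N → ℝ} (hF : FT N a Δ y X) (hD : (lk 627 : ℝ) / 16777216 - 8 ≤ Δ) : False := by
  have hm : ∃ i, (N, i) ∈ lD70 := by
    interval_cases N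
    · exact ⟨124, by decide⟩
    · exact ⟨123, by decide⟩
    · exact ⟨122, by decide⟩
    · exact ⟨120, by decide⟩
    · exact ⟨119, by decide⟩
    · exact ⟨118, by decide⟩
    · exact ⟨117, by decide⟩
    · exact ⟨116, by decide⟩
    · exact ⟨114, by decide⟩
    · exact ⟨113, by decide⟩
  obtain ⟨i, hi⟩ := hm
  exact gok_sound hs gD70_ok jsD70_ok hi hF hD

def jsD80 : List Job := [D80.j0, D80.j1, D80.j2, D80.j3, D80.j4, D80.j5, D80.j6, D80.j7, D80.j8, D80.j9, D80.j10, D80.j11, D80.j12, D80.j13, D80.j14, D80.j15, D80.j16, D80.j17, D80.j18, D80.j19]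

theorem jsD80_ok : ∀ j ∈ jsD80, j.ok = true := by
  intro j hj
  simp only [jsD80, List.mem_cons, List.not_mem_nil, or_false] at hj
  rcases hj with rfl | rfl | rfl | rfl | rfl | rfl | rfl | rfl | rfl | rfl | rfl | rfl | rfl | rfl | rfl | rfl | rfl | rfl | rfl | rfl
  · exact D80.j0_ok
  · exact D80.j1_ok
  · exact D80.j2_ok
  · exact D80.j3_ok
  · exact D80.j4_ok
  · exact D80.j5_ok
  · exact D80.j6_ok
  · exact D80.j7_ok
  · exact D80.j8_ok
  · exact D80.j9_ok
  · exact D80.j10_ok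
  · exact D80.j11_ok
  · exact D80.j12_ok
  · exact D80.j13_ok
  · exact D80.j14_ok
  · exact D80.j15_ok
  · exact D80.j16_ok
  · exact D80.j17_ok
  · exact D80.j18_ok
  · exact D80.j19_ok

def lD80 : List (ℕ × ℕ) := [(80, 112), (81, 111), (82, 109), (83, 108), (84, 107), (85, 106), (86, 105), (87, 104), (88, 103), (89, 102)]

theorem gD80_ok : gok jsD80 638 15900774 lD80 = true := by decide +kernel

theorem gD80 (hs : SoundStatement) {N : ℕ} (h1 : 80 ≤ N) (h2 : N ≤ 89) {a Δ : ℝ}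
    {y X : Fin N → ℝ} (hF : FT N a Δ y X) (hD : (lk 638 : ℝ) / 16777216 - 8 ≤ Δ) : False := by
  have hm : ∃ i, (N, i) ∈ lD80 := by
    interval_cases N
    · exact ⟨112, by decide⟩
    · exact ⟨111, by decide⟩
    · exact ⟨109, by decide⟩
    · exact ⟨108, by decide⟩
    · exact ⟨107, by decide⟩
    · exact ⟨106, by decide⟩
    · exact ⟨105, by decide⟩
    · exact ⟨104, by decide⟩
    · exact ⟨103, by decide⟩
    · exact ⟨102, by decide⟩
  obtain ⟨i, hi⟩ := hm
  exact gok_sound hs gD80_ok jsD80_ok hi hF hD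

def jsD90 : List Job := [D90.j0, D90.j1, D90.j2, D90.j3, D90.j4, D90.j5, D90.j6, D90.j7, D90.j8, D90.j9, D90.j10, D90.j11, D90.j12, D90.j13, D90.j14, D90.j15, D90.j16, D90.j17, D90.j18, D90.j19, D90.j20, D90.j21]

theorem jsD90_ok : ∀ j ∈ jsD90, j.ok = true := by
  intro j hj
  simp only [jsD90, List.mem_cons, List.not_mem_nil, or_false] at hj
  rcases hj with rfl | rfl | rfl | rfl | rfl | rfl | rfl | rfl | rfl | rfl | rfl | rfl | rfl | rfl | rfl | rfl | rfl | rfl | rfl | rfl | rfl | rfl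
  · exact D90.j0_ok
  · exact D90.j1_ok
  · exact D90.j2_ok
  · exact D90.j3_ok
  · exact D90.j4_ok
  · exact D90.j5_ok
  · exact D90.j6_ok
  · exact D90.j7_ok
  · exact D90.j8_ok
  · exact D90.j9_ok
  · exact D90.j10_ok
  · exact D90.j11_ok
  · exact D90.j12_ok
  · exact D90.j13_ok
  · exact D90.j14_ok
  · exact D90.j15_ok
  · exact D90.j16_ok
  · exact D90.j17_ok
  · exact D90.j18_ok
  · exact D90.j19_ok
  · exact D90.j20_ok
  · exact D90.j21_ok

def lD90 : List (ℕ × ℕ) := [(90, 100), (91, 99), (92, 98), (93, 97), (94, 97), (95, 96), (96, 95), (97, 94), (98, 93), (99, 92)]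

theorem gD90_ok : gok jsD90 638 15974091 lD90 = true := by decide +kernel

theorem gD90 (hs : SoundStatement) {N : ℕ} (h1 : 90 ≤ N) (h2 : N ≤ 99) {a Δ : ℝ}
    {y X : Fin N → ℝ} (hF : FT N a Δ y X) (hD : (lk 638 : ℝ) / 16777216 - 8 ≤ Δ) : False := by
  have hm : ∃ i, (N, i) ∈ lD90 := by
    interval_cases N
    · exact ⟨100, by decide⟩
    · exact ⟨99, by decide⟩
    · exact ⟨98, by decide⟩
    · exact ⟨97, by decide⟩
    · exact ⟨97, by decide⟩
    · exact ⟨96, by decide⟩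
    · exact ⟨95, by decide⟩
    · exact ⟨94, by decide⟩
    · exact ⟨93, by decide⟩
    · exact ⟨92, by decide⟩
  obtain ⟨i, hi⟩ := hm
  exact gok_sound hs gD90_ok jsD90_ok hi hF hD

end Pool.Agent.Lib.MP_172a45_an.LT
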