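import Pool.Agent.Lib.MP_172a45_an.LT.Snd7
import Pool.Agent.Lib.MP_172a45_an.LT.Asm

/-!
# `SoundStatement` of `LT/Asm.lean` (helper58)
-/

namespace Pool.Agent.Lib.MP_172a45_an.LT

theorem soundStatement : SoundStatement := Job.sound

end Pool.Agent.Lib.MP_172a45_an.LT
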