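import Pool.Agent.Lib.MP_172a45_an.LT.Mid
import Pool.Agent.Lib.MP_172a45_an.LT.Snd8
import Pool.Agent.Lib.MP_172a45_an.LP.Y

set_option autoImplicit false

/-!
# No frame for `31 ≤ N ≤ 99`
-/

namespace Pool.Agent.Lib.MP_172a45_an.LT

open Finset Real
open Pool.Agent.Lib.MP_172a45_an.LP (rk lk)
open Pool.Agent.Lib.MP_172a45_an.F (FT FV Fr)

/-- `60 ≤ N ≤ 99` -/
theorem Fr_false_60 {M : ℕ} {a : ℝ} {ζ z : Fin (M + 1) → ℂ} (h : Fr (M + 1) a ζ z)
    (h1 : 59 ≤ M) (h2 : M ≤ 98) : False := mid60 soundStatement h h1 h2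

theorem lk_650 : (lk 650 : ℝ) / 16777216 - 8 ≤ 3 / 2 := by
  have : lk 650 = 159292933 := by decide +kernel
  rw [this]; norm_num

/-- `31 ≤ N ≤ 59` -/
theorem Fr_false_31 {M : ℕ} {a : ℝ} {ζ z : Fin (M + 1) → ℂ} (h : Fr (M + 1) a ζ z)
    (h1 : 30 ≤ M) (h2 : M ≤ 58) : False := by
  have hF := h.toFT (Nat.succ_pos M)
  rcases le_or_gt (Fr.Del a ζ) (3 / 2) with hD | hD
  · rcases le_or_gt (Fr.Del a ζ) (3 / 10) with hD2 | hD2
    · exact h.R (by omega) hD2
    · refine LP.Y_false (by omega) (by omega) h.toFV hD2.le (hD.trans ?_)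
      have e : LP.yk (M + 1) = 830 := by
        unfold LP.yk; simp only [show ¬ (M + 1 ≤ 6) by omega, show ¬ (M + 1 ≤ 7) by omega, show ¬ (M + 1 ≤ 8) by omega, show ¬ (M + 1 ≤ 9) by omega, show ¬ (M + 1 ≤ 11) by omega, show ¬ (M + 1 ≤ 15) by omega, if_false]
      rw [e]
      exact lk_830
  · have hD' := lk_650.trans hD.le
    rcases Nat.lt_or_ge M 37 with h3 | h3
    · exact gD31 soundStatement (by omega) (by omega) hF hD'
    rcases Nat.lt_or_ge M 45 with h4 | h4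
    · exact gD38 soundStatement (by omega) (by omega) hF hD'
    rcases Nat.lt_or_ge M 52 with h5 | h5
    · exact gD46 soundStatement (by omega) (by omega) hF hD'
    · exact gD53 soundStatement (by omega) (by omega) hF hD'

end Pool.Agent.Lib.MP_172a45_an.LT
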