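import Pool.Agent.Lib.MP_172a45_an.LT.J6
import Pool.Agent.Lib.MP_172a45_an.LT.J7
import Pool.Agent.Lib.MP_172a45_an.LT.J8
import Pool.Agent.Lib.MP_172a45_an.LT.J9
import Pool.Agent.Lib.MP_172a45_an.LT.J10
import Pool.Agent.Lib.MP_172a45_an.LT.J12
import Pool.Agent.Lib.MP_172a45_an.LT.J14
import Pool.Agent.Lib.MP_172a45_an.LT.J16
import Pool.Agent.Lib.MP_172a45_an.LT.J19
import Pool.Agent.Lib.MP_172a45_an.LT.J23
import Pool.Agent.Lib.MP_172a45_an.LT.J27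
import Pool.Agent.Lib.MP_172a45_an.LT.AsmJ
import Pool.Agent.Lib.MP_172a45_an.LT.Mid2

set_option autoImplicit false
set_option maxRecDepth 100000

/-!
# No frame for `6 ≤ N ≤ 30` (given the soundness of the `JobJ` checker)
-/

namespace Pool.Agent.Lib.MP_172a45_an.LT

open Finset Real
open Pool.Agent.Lib.MP_172a45_an.LP (rk lk)
open Pool.Agent.Lib.MP_172a45_an.F (FT FV Fr)

theorem gJ6_ok : gokJ J6.js J6.ps 558 J6.be J6.l = true := by decide +kernel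

theorem gJ6 (hs : SoundStatementJ) {N : ℕ} (h1 : 6 ≤ N) (h2 : N ≤ 6) {a Δ : ℝ}
    {y X : Fin N → ℝ} (hF : FT N a Δ y X) (hD : (lk 558 : ℝ) / 16777216 - 8 ≤ Δ) : False := by
  have hm : ∃ i, (N, i) ∈ J6.l := by
    unfold J6.l
    interval_cases N <;> simp
  obtain ⟨i, hi⟩ := hm
  exact gokJ_sound soundStatement hs gJ6_ok J6.js_ok J6.ps_ok hi hF hD

theorem gJ7_ok : gokJ J7.js J7.ps 604 J7.be J7.l = true := by decide +kernel

theorem gJ7 (hs : SoundStatementJ) {N : ℕ} (h1 : 7 ≤ N) (h2 : N ≤ 7) {a Δ : ℝ}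
    {y X : Fin N → ℝ} (hF : FT N a Δ y X) (hD : (lk 604 : ℝ) / 16777216 - 8 ≤ Δ) : False := by
  have hm : ∃ i, (N, i) ∈ J7.l := by
    unfold J7.l
    interval_cases N <;> simp
  obtain ⟨i, hi⟩ := hm
  exact gokJ_sound soundStatement hs gJ7_ok J7.js_ok J7.ps_ok hi hF hD

theorem gJ8_ok : gokJ J8.js J8.ps 626 J8.be J8.l = true := by decide +kernel

theorem gJ8 (hs : SoundStatementJ) {N : ℕ} (h1 : 8 ≤ N) (h2 : N ≤ 8) {a Δ : ℝ}
    {y X : Fin N → ℝ} (hF : FT N a Δ y X) (hD : (lk 626 : ℝ) / 16777216 - 8 ≤ Δ) : False := by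
  have hm : ∃ i, (N, i) ∈ J8.l := by
    unfold J8.l
    interval_cases N <;> simp
  obtain ⟨i, hi⟩ := hm
  exact gokJ_sound soundStatement hs gJ8_ok J8.js_ok J8.ps_ok hi hF hD

theorem gJ9_ok : gokJ J9.js J9.ps 680 J9.be J9.l = true := by decide +kernel

theorem gJ9 (hs : SoundStatementJ) {N : ℕ} (h1 : 9 ≤ N) (h2 : N ≤ 9) {a Δ : ℝ}
    {y X : Fin N → ℝ} (hF : FT N a Δ y X) (hD : (lk 680 : ℝ) / 16777216 - 8 ≤ Δ) : False := by
  have hm : ∃ i, (N, i) ∈ J9.l := by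
    unfold J9.l
    interval_cases N <;> simp
  obtain ⟨i, hi⟩ := hm
  exact gokJ_sound soundStatement hs gJ9_ok J9.js_ok J9.ps_ok hi hF hD

theorem gJ10_ok : gokJ J10.js J10.ps 716 J10.be J10.l = true := by decide +kernel

theorem gJ10 (hs : SoundStatementJ) {N : ℕ} (h1 : 10 ≤ N) (h2 : N ≤ 11) {a Δ : ℝ}
    {y X : Fin N → ℝ} (hF : FT N a Δ y X) (hD : (lk 716 : ℝ) / 16777216 - 8 ≤ Δ) : False := by
  have hm : ∃ i, (N, i) ∈ J10.l := by
    unfold J10.l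
    interval_cases N <;> simp
  obtain ⟨i, hi⟩ := hm
  exact gokJ_sound soundStatement hs gJ10_ok J10.js_ok J10.ps_ok hi hF hD

theorem gJ12_ok : gokJ J12.js J12.ps 781 J12.be J12.l = true := by decide +kernel

theorem gJ12 (hs : SoundStatementJ) {N : ℕ} (h1 : 12 ≤ N) (h2 : N ≤ 13) {a Δ : ℝ}
    {y X : Fin N → ℝ} (hF : FT N a Δ y X) (hD : (lk 781 : ℝ) / 16777216 - 8 ≤ Δ) : False := by
  have hm : ∃ i, (N, i) ∈ J12.l := by
    unfold J12.l
    interval_cases N <;> simp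
  obtain ⟨i, hi⟩ := hm
  exact gokJ_sound soundStatement hs gJ12_ok J12.js_ok J12.ps_ok hi hF hD

theorem gJ14_ok : gokJ J14.js J14.ps 781 J14.be J14.l = true := by decide +kernel

theorem gJ14 (hs : SoundStatementJ) {N : ℕ} (h1 : 14 ≤ N) (h2 : N ≤ 15) {a Δ : ℝ}
    {y X : Fin N → ℝ} (hF : FT N a Δ y X) (hD : (lk 781 : ℝ) / 16777216 - 8 ≤ Δ) : False := by
  have hm : ∃ i, (N, i) ∈ J14.l := by
    unfold J14.l
    interval_cases N <;> simp
  obtain ⟨i, hi⟩ := hm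
  exact gokJ_sound soundStatement hs gJ14_ok J14.js_ok J14.ps_ok hi hF hD

theorem gJ16_ok : gokJ J16.js J16.ps 830 J16.be J16.l = true := by decide +kernel

theorem gJ16 (hs : SoundStatementJ) {N : ℕ} (h1 : 16 ≤ N) (h2 : N ≤ 18) {a Δ : ℝ}
    {y X : Fin N → ℝ} (hF : FT N a Δ y X) (hD : (lk 830 : ℝ) / 16777216 - 8 ≤ Δ) : False := by
  have hm : ∃ i, (N, i) ∈ J16.l := by
    unfold J16.l
    interval_cases N <;> simp
  obtain ⟨i, hi⟩ := hm
  exact gokJ_sound soundStatement hs gJ16_ok J16.js_ok J16.ps_ok hi hF hD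

theorem gJ19_ok : gokJ J19.js J19.ps 830 J19.be J19.l = true := by decide +kernel

theorem gJ19 (hs : SoundStatementJ) {N : ℕ} (h1 : 19 ≤ N) (h2 : N ≤ 22) {a Δ : ℝ}
    {y X : Fin N → ℝ} (hF : FT N a Δ y X) (hD : (lk 830 : ℝ) / 16777216 - 8 ≤ Δ) : False := by
  have hm : ∃ i, (N, i) ∈ J19.l := by
    unfold J19.l
    interval_cases N <;> simp
  obtain ⟨i, hi⟩ := hm
  exact gokJ_sound soundStatement hs gJ19_ok J19.js_ok J19.ps_ok hi hF hD

theorem gJ23_ok : gokJ J23.js J23.ps 830 J23.be J23.l = true := by decide +kernel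

theorem gJ23 (hs : SoundStatementJ) {N : ℕ} (h1 : 23 ≤ N) (h2 : N ≤ 26) {a Δ : ℝ}
    {y X : Fin N → ℝ} (hF : FT N a Δ y X) (hD : (lk 830 : ℝ) / 16777216 - 8 ≤ Δ) : False := by
  have hm : ∃ i, (N, i) ∈ J23.l := by
    unfold J23.l
    interval_cases N <;> simp
  obtain ⟨i, hi⟩ := hm
  exact gokJ_sound soundStatement hs gJ23_ok J23.js_ok J23.ps_ok hi hF hD

theorem gJ27_ok : gokJ J27.js J27.ps 830 J27.be J27.l = true := by decide +kernel

theorem gJ27 (hs : SoundStatementJ) {N : ℕ} (h1 : 27 ≤ N) (h2 : N ≤ 30) {a Δ : ℝ}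
    {y X : Fin N → ℝ} (hF : FT N a Δ y X) (hD : (lk 830 : ℝ) / 16777216 - 8 ≤ Δ) : False := by
  have hm : ∃ i, (N, i) ∈ J27.l := by
    unfold J27.l
    interval_cases N <;> simp
  obtain ⟨i, hi⟩ := hm
  exact gokJ_sound soundStatement hs gJ27_ok J27.js_ok J27.ps_ok hi hF hD

/-- `6 ≤ N ≤ 30` -/
theorem Fr_false_6' (hs : SoundStatementJ) {M : ℕ} {a : ℝ} {ζ z : Fin (M + 1) → ℂ}
    (h : Fr (M + 1) a ζ z) (h1 : 5 ≤ M) (h2 : M ≤ 29) : False := by
  have hF := h.toFT (Nat.succ_pos M)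
  rcases le_or_gt (Fr.Del a ζ) (3 / 10) with hD | hD
  · exact h.R (by omega) hD
  rcases le_or_gt (Fr.Del a ζ) (LP.va (lk (LP.yk (M + 1))) - 8) with hE | hE
  · exact LP.Y_false (by omega) (by omega) h.toFV hD.le hE
  have hE' : (lk (LP.yk (M + 1)) : ℝ) / 16777216 - 8 ≤ Fr.Del a ζ := by
    have := hE.le
    unfold LP.va at this
    exact this
  rcases Nat.lt_or_ge M 6 with hJ6 | hJ6
  · have e : LP.yk (M + 1) = 558 := by
      unfold LP.yk
      simp only [show M + 1 ≤ 6 by omega, if_true]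
    rw [e] at hE'
    exact gJ6 hs (by omega) (by omega) hF hE'
  rcases Nat.lt_or_ge M 7 with hJ7 | hJ7
  · have e : LP.yk (M + 1) = 604 := by
      unfold LP.yk
      simp only [show ¬ (M + 1 ≤ 6) by omega, show M + 1 ≤ 7 by omega, if_false, if_true]
    rw [e] at hE'
    exact gJ7 hs (by omega) (by omega) hF hE'
  rcases Nat.lt_or_ge M 8 with hJ8 | hJ8
  · have e : LP.yk (M + 1) = 626 := by
      unfold LP.yk
      simp only [show ¬ (M + 1 ≤ 6) by omega, show ¬ (M + 1 ≤ 7) by omega, show M + 1 ≤ 8 by omega, if_false, if_true]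
    rw [e] at hE'
    exact gJ8 hs (by omega) (by omega) hF hE'
  rcases Nat.lt_or_ge M 9 with hJ9 | hJ9
  · have e : LP.yk (M + 1) = 680 := by
      unfold LP.yk
      simp only [show ¬ (M + 1 ≤ 6) by omega, show ¬ (M + 1 ≤ 7) by omega, show ¬ (M + 1 ≤ 8) by omega, show M + 1 ≤ 9 by omega, if_false, if_true]
    rw [e] at hE'
    exact gJ9 hs (by omega) (by omega) hF hE'
  rcases Nat.lt_or_ge M 11 with hJ10 | hJ10
  · have e : LP.yk (M + 1) = 716 := by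
      unfold LP.yk
      simp only [show ¬ (M + 1 ≤ 6) by omega, show ¬ (M + 1 ≤ 7) by omega, show ¬ (M + 1 ≤ 8) by omega, show ¬ (M + 1 ≤ 9) by omega, show M + 1 ≤ 11 by omega, if_false, if_true]
    rw [e] at hE'
    exact gJ10 hs (by omega) (by omega) hF hE'
  rcases Nat.lt_or_ge M 13 with hJ12 | hJ12
  · have e : LP.yk (M + 1) = 781 := by
      unfold LP.yk
      simp only [show ¬ (M + 1 ≤ 6) by omega, show ¬ (M + 1 ≤ 7) by omega, show ¬ (M + 1 ≤ 8) by omega, show ¬ (M + 1 ≤ 9) by omega, show ¬ (M + 1 ≤ 11) by omega, show M + 1 ≤ 15 by omega, if_false, if_true]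
    rw [e] at hE'
    exact gJ12 hs (by omega) (by omega) hF hE'
  rcases Nat.lt_or_ge M 15 with hJ14 | hJ14
  · have e : LP.yk (M + 1) = 781 := by
      unfold LP.yk
      simp only [show ¬ (M + 1 ≤ 6) by omega, show ¬ (M + 1 ≤ 7) by omega, show ¬ (M + 1 ≤ 8) by omega, show ¬ (M + 1 ≤ 9) by omega, show ¬ (M + 1 ≤ 11) by omega, show M + 1 ≤ 15 by omega, if_false, if_true]
    rw [e] at hE'
    exact gJ14 hs (by omega) (by omega) hF hE'
  rcases Nat.lt_or_ge M 18 with hJ16 | hJ16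
  · have e : LP.yk (M + 1) = 830 := by
      unfold LP.yk
      simp only [show ¬ (M + 1 ≤ 6) by omega, show ¬ (M + 1 ≤ 7) by omega, show ¬ (M + 1 ≤ 8) by omega, show ¬ (M + 1 ≤ 9) by omega, show ¬ (M + 1 ≤ 11) by omega, show ¬ (M + 1 ≤ 15) by omega, if_false]
    rw [e] at hE'
    exact gJ16 hs (by omega) (by omega) hF hE'
  rcases Nat.lt_or_ge M 22 with hJ19 | hJ19
  · have e : LP.yk (M + 1) = 830 := by
      unfold LP.yk
      simp only [show ¬ (M + 1 ≤ 6) by omega, show ¬ (M + 1 ≤ 7) by omega, show ¬ (M + 1 ≤ 8) by omega, show ¬ (M + 1 ≤ 9) by omega, show ¬ (M + 1 ≤ 11) by omega, show ¬ (M + 1 ≤ 15) by omega, if_false]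
    rw [e] at hE'
    exact gJ19 hs (by omega) (by omega) hF hE'
  rcases Nat.lt_or_ge M 26 with hJ23 | hJ23
  · have e : LP.yk (M + 1) = 830 := by
      unfold LP.yk
      simp only [show ¬ (M + 1 ≤ 6) by omega, show ¬ (M + 1 ≤ 7) by omega, show ¬ (M + 1 ≤ 8) by omega, show ¬ (M + 1 ≤ 9) by omega, show ¬ (M + 1 ≤ 11) by omega, show ¬ (M + 1 ≤ 15) by omega, if_false]
    rw [e] at hE'
    exact gJ23 hs (by omega) (by omega) hF hE'
  · have e : LP.yk (M + 1) = 830 := by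
      unfold LP.yk
      simp only [show ¬ (M + 1 ≤ 6) by omega, show ¬ (M + 1 ≤ 7) by omega, show ¬ (M + 1 ≤ 8) by omega, show ¬ (M + 1 ≤ 9) by omega, show ¬ (M + 1 ≤ 11) by omega, show ¬ (M + 1 ≤ 15) by omega, if_false]
    rw [e] at hE'
    exact gJ27 hs (by omega) (by omega) hF hE'

end Pool.Agent.Lib.MP_172a45_an.LT
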