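import Pool.Agent.Lib.MP_172a45_an.LT.SndJ1
import Pool.Agent.Lib.MP_172a45_an.LT.AsmJ

set_option autoImplicit false

/-!
# Soundness of `JobJ.ok`
-/

namespace Pool.Agent.Lib.MP_172a45_an.LT

open Finset Real Pool.Agent.Lib.MP_172a45_an.F
open Pool.Agent.Lib.MP_172a45_an.LP (rk lk va va_nonneg va_zero va_S va_add va_nmul va_le va_lt
  va_pos va_sub va_sub_of_le lt_div_add_one div_le_cast va_div_up va_div_dn abs_dist rho
  mul_S_cast va_mul_div g_bound c_bound rk_pos neg_log_rk_le)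

theorem fcJ_def {J : TJ} {ymax tF : ℕ} {c : TT} (h : fcJ J ymax tF c = true) :
    (tF * (33554432 - J.b1) ≤ (16777216 - J.b1) * 16777216 ∧
      (16777216 - J.b0) * 16777216 ≤ c.t1 * (33554432 - J.b0) ∧ tF ≤ c.t1 ∧ 0 < c.p ∧ 0 < c.q) ∧
    cols J tF c.t1 c.p c.q c.na c.nb ymax 0 0 0 c.ys = true := by
  unfold fcJ at h
  simp only [Bool.and_eq_true, Nat.ble_eq, Nat.blt_eq] at h
  exact h

theorem kap_real {kap p q : ℕ} (h : kap * kap * p ≤ 281474976710656 * q) :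
    va kap ^ 2 * va p ≤ va q := by
  have h1 : ((kap * kap * p : ℕ) : ℝ) ≤ ((281474976710656 * q : ℕ) : ℝ) := by exact_mod_cast h
  have h2 := div_le_div_of_nonneg_right h1
    (by norm_num : (0:ℝ) ≤ 16777216 * 16777216 * 16777216)
  calc _ = _ := ?_
    _ ≤ _ := h2
    _ = _ := ?_
  · unfold va; push_cast; ring
  · unfold va; push_cast; ring

/-- the bound of the first term -/
theorem fpJ_sound {J : TJ} (hJ : JR J) (hf : Nat.beq J.form 3 = true)
    {ymax N Ka Kb tF kap lam gF gJ : ℕ} {cF cJ : TT} {a Δ δ F1 : ℝ}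
    {y X x : Fin N → ℝ} (h : FV N a Δ y X) (hN : 0 < N) (hδ : BC J (1 - a) δ)
    (hZ : ZA J ymax a y X x) (hym : 0 < ymax)
    (hK : RK J Ka Kb δ (∑ l, rho (Nat.beq J.form 3) (1 - a) (y l) (X l)))
    (hk : 0 < kap) (hl : 0 < lam) (hkap : kap * kap * cJ.p ≤ 281474976710656 * cJ.q)
    (hF : fcl J ymax tF cF = true) (hC : fcJ J ymax tF cJ = true)
    (hva : vch J N Ka Kb cF.na gF = true) (hvb : vch J N Ka Kb cF.nb gF = true)
    (hwa : vch J N Ka Kb cJ.na gJ = true) (hwb : vch J N Ka Kb cJ.nb gJ = true)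
    (hF2 : F1 ≤ (1 - a + a / (1 + a) * ((∑ k, X k) / N)) *
        ∏ l, AA (y l) (X l) (a / (1 + a)) +
      1 / N * (∑ k, Iy a (y k) (X k)) *
        ∑ k, Iy a (y k) (X k) * ∏ l ∈ univ.erase k, AA (y l) (X l) (a / (1 + a))) :
    F1 ≤ Lam J (1 - a) δ *
      va (fpJ J ymax N (bif Nat.ble Ka Kb then Kb else Ka) kap lam cJ.p gF gJ) := by
  have ha := h.a0
  have ha1 := h.a1
  have hb := hδ.b0
  have hNr : (0:ℝ) < N := by exact_mod_cast hN
  rw [Lam3 hJ hf]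
  -- the two products
  have hprod := fcl_sound hJ h hδ hZ hym hK hF hva hvb
  rw [EE3 hJ hf, mul_one] at hprod
  have hA0 : ∀ l, 0 ≤ AA (y l) (X l) (a / (1 + a)) := fun l => Real.sqrt_nonneg _
  have hP0 : 0 ≤ ∏ l, AA (y l) (X l) (a / (1 + a)) := Finset.prod_nonneg fun l _ => hA0 l
  have hPle : ∏ l, AA (y l) (X l) (a / (1 + a)) ≤ va (rg gF) :=
    (Finset.prod_le_prod (fun l _ => hA0 l) fun l _ => le_max_left _ _).trans hprod
  obtain ⟨⟨h1, h2, -, hp, hq⟩, hc⟩ := fcJ_def hC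
  obtain ⟨r1, r2, r3⟩ := frange hJ ha hδ h1 h2
  have hPsi := exp_Psi_le hJ h hδ hZ hym hK hp r3 hc hwa hwb r1 r2
  rw [EE3 hJ hf, mul_one] at hPsi
  -- the sums
  have hXx : ∀ k, X k = (1 - a) * x k := fun k => (hZ.v k).f3 hf
  have hsx := sXJ_sound hJ hf h hδ hZ hK
  have hsx0 : 0 ≤ ∑ l, x l := Finset.sum_nonneg fun l _ => hZ.x0 l
  have hsj := sJJ_sound hJ (lam := lam) h hδ hl hZ.x0 hsx
  have hsj0 : 0 ≤ ∑ k, Jy (1 - a) (y k) (x k) :=
    Finset.sum_nonneg fun k _ => Jy_nonneg _ _ _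
  have hpp := va_pos hp
  have hqq := va_pos hq
  have hkk := va_pos hk
  -- the sum with one factor removed
  have hw : ∀ k, 0 < 2 * va cJ.p * (1 + y k) + va cJ.q * x k := fun k => by
    have := h.y0 k
    have := hZ.x0 k
    positivity
  have hJw : ∀ k, 2 * va kap * va cJ.p * Jy (1 - a) (y k) (x k) ≤
      2 * va cJ.p * (1 + y k) + va cJ.q * x k := fun k => by
    have hX2 := h.X2 k
    rw [hXx k] at hX2
    have k1 := kap_le (b := 1 - a) (b0 := 0) (y := y k) (x := x k) (p := va cJ.p)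
      (q := va cJ.q) (kap := va kap) hpp.le hkk.le (by
        have := kap_real hkap
        linarith) (hZ.x0 k) hX2
    have k2 : (va cJ.q - (1 - a - 0) * va cJ.p) * x k ≤ va cJ.q * x k := by
      refine mul_le_mul_of_nonneg_right ?_ (hZ.x0 k)
      have := mul_pos hb hpp
      linarith
    linarith
  have hS := sum_J_prod_erase_le (A := fun l => AA (y l) (X l) (a / (1 + a)))
    (J := fun k => Jy (1 - a) (y k) (x k)) (kp := 2 * va kap * va cJ.p) hA0 hw (by positivity) hJw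
  -- combine
  have hF3 : F1 ≤ (1 - a + a / (1 + a) * ((∑ k, (1 - a) * x k) / N)) *
        (∏ l, AA (y l) (X l) (a / (1 + a))) +
      1 / N * (∑ k, Iy a (y k) ((1 - a) * x k)) *
        ∑ k, Iy a (y k) ((1 - a) * x k) *
          ∏ l ∈ univ.erase k, AA (y l) (X l) (a / (1 + a)) := by
    simp only [← hXx]
    exact hF2
  have hF4 := F1J (A := fun l => AA (y l) (X l) (a / (1 + a))) ha ha1 rfl hF3
  refine hF4.trans (mul_le_mul_of_nonneg_left ?_ hb.le)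
  have hfin := fpJ_real (J := J) (ymax := ymax) (lam := lam) (K := bif Nat.ble Ka Kb then Kb else Ka)
    hN hk hp hP0 hPle (Real.exp_pos (∑ l, Psi (AA (y l) (X l) (a / (1 + a)))
      (2 * va cJ.p * (1 + y l) + va cJ.q * x l))).le hPsi hsx0 hsx hsj
  refine le_trans (add_le_add ?_ ?_) hfin
  · refine mul_le_mul_of_nonneg_right ?_ hP0
    have h3 : a / (1 + a) ≤ 1 / 2 := by
      rw [div_le_div_iff₀ (by linarith) (by norm_num)]; linarith
    have h4 := mul_le_mul_of_nonneg_right h3 (div_nonneg hsx0 hNr.le)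
    linarith
  · have hc2 : (a / (1 + a)) ^ 2 ≤ 1 / 4 := by
      rw [div_pow, div_le_div_iff₀ (by positivity) (by norm_num)]
      nlinarith
    have h5 : (a / (1 + a)) ^ 2 / N * (∑ k, Jy (1 - a) (y k) (x k)) ≤
        1 / 4 / N * (∑ k, Jy (1 - a) (y k) (x k)) :=
      mul_le_mul_of_nonneg_right (div_le_div_of_nonneg_right hc2 hNr.le) hsj0
    have h6 : 0 ≤ ∑ k, Jy (1 - a) (y k) (x k) *
        ∏ l ∈ univ.erase k, AA (y l) (X l) (a / (1 + a)) :=
      Finset.sum_nonneg fun k _ => mul_nonneg (Jy_nonneg _ _ _)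
        (Finset.prod_nonneg fun l _ => hA0 l)
    exact mul_le_mul h5 hS h6 (by positivity)

theorem nokJ_def {J : TJ} {ymax : ℕ} {cF cJ : TT} {kap lam : ℕ} {cs : List TT} {n : NTJ}
    (h : nokJ J ymax cF cJ kap lam cs n = true) :
    ((0 < n.N ∧ n.N * (16777216 - J.b0) ≤ ymax) ∧ rowKok J n.N n.ja n.jb = true) ∧
    (vch J n.N (rowKa J n.N n.ja n.jb) (rowKb J n.N n.ja n.jb) cF.na n.gF = true ∧
      vch J n.N (rowKa J n.N n.ja n.jb) (rowKb J n.N n.ja n.jb) cF.nb n.gF = true) ∧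
    (vch J n.N (rowKa J n.N n.ja n.jb) (rowKb J n.N n.ja n.jb) cJ.na n.gJ = true ∧
      vch J n.N (rowKa J n.N n.ja n.jb) (rowKb J n.N n.ja n.jb) cJ.nb n.gJ = true) ∧
    gsm J n.N (rowKa J n.N n.ja n.jb) (rowKb J n.N n.ja n.jb) (RR J J.b1 / 16777216) 0 cs n.gs
      (fpJ J ymax n.N (bif Nat.ble (rowKa J n.N n.ja n.jb) (rowKb J n.N n.ja n.jb) then
        rowKb J n.N n.ja n.jb else rowKa J n.N n.ja n.jb) kap lam cJ.p n.gF n.gJ) = true := by
  unfold nokJ at h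
  simp only [Bool.and_eq_true, Nat.blt_eq, Nat.ble_eq] at h
  exact h

theorem jobJok_def {j : JobJ} (h : j.ok = true) :
    (jok j.J = true ∧ Nat.beq j.J.form 3 = true ∧ 0 < j.kap ∧ 0 < j.lam ∧
      j.kap * j.kap * j.cJ.p ≤ 281474976710656 * j.cJ.q) ∧
    fcl j.J j.ymax j.tF j.cF = true ∧ fcJ j.J j.ymax j.tF j.cJ = true ∧
    tcs j.J j.ymax 0 j.cs = true ∧
    j.ns.all (nokJ j.J j.ymax j.cF j.cJ j.kap j.lam j.cs) = true := by
  unfold JobJ.ok at h
  simp only [Bool.and_eq_true, Nat.blt_eq, Nat.ble_eq] at h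
  exact h

/-- soundness of the certificate checker `JobJ.ok` -/
theorem soundStatementJ : SoundStatementJ := by
  intro j hj n hn a Δ y X h hb0 hb1 hD
  obtain ⟨⟨hjok, hf, hk, hl, hkap⟩, hF, hC, ht, hns⟩ := jobJok_def hj
  have hJ := jok_sound hjok
  have hnok := List.all_eq_true.1 hns n hn
  obtain ⟨⟨⟨hN, hy⟩, hrow⟩, ⟨hva, hvb⟩, ⟨hwa, hwb⟩, hg⟩ := nokJ_def hnok
  have hb0' : va j.J.b0 ≤ 1 - a := hb0
  have hb1' : 1 - a ≤ va j.J.b1 := hb1
  have ha1 := h.a1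
  obtain ⟨δ, hδ⟩ := BC.exists hJ (by linarith : 0 < 1 - a) hb0' hb1'
  have hZ := ZA_of hJ h.toFV hb0' hy
  have hym := ymax_pos hJ hN hy
  have hK := rowK_sound hJ hrow h.toFV hδ
  have hg' : gsm j.J n.N (rowKa j.J n.N n.ja n.jb) (rowKb j.J n.N n.ja n.jb) (RT j.J) 0 j.cs
      n.gs (fpJ j.J j.ymax n.N (bif Nat.ble (rowKa j.J n.N n.ja n.jb)
        (rowKb j.J n.N n.ja n.jb) then
        rowKb j.J n.N n.ja n.jb else rowKa j.J n.N n.ja n.jb) j.kap j.lam j.cJ.p n.gF n.gJ) =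
      true := by
    unfold RT
    rw [hf, cond_true]
    exact hg
  exact concl hJ h hN hδ hZ hym hK hD ht hg' fun F1 V _ _ _ _ hF2 =>
    fpJ_sound hJ hf h.toFV hN hδ hZ hym hK hk hl hkap hF hC hva hvb hwa hwb hF2

end Pool.Agent.Lib.MP_172a45_an.LT
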