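import Pool.Agent.Lib.MP_172a45_an.LP.TabD

set_option autoImplicit false

/-!
# The certificate checker for the functional `TC` (all numbers are naturals, scale `S = 2^24`)

`b = 1 - a` runs over `[b0, b1]`. Variables of one zero: `y`, `T = 1 + y` and

* form 3 (`b0 = 0` allowed): `x = X / b`, `A0 = b / q`, `B0 = 1 / p`, so
  `w = X / A0 + (2T - X) / B0 ≤ 2 p T + q x`, `A² = (1 - τT)² + 2 τ b x`,
  row `(log E / 2 - b y) / b²`;
* form 4: `x = X`, `A0 = 1 / (p + q)`, `B0 = 1 / p`, so `w = 2 p T + q x`,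
  `A² = (1 - τT)² + 2 τ x`, row `log E / (2 b)`,

`E = (1 + b y)² - 2 a b X`. `mu a b` is an upper bound and `md a b` a lower bound of the product
of two scaled numbers. Quantities with offset 8 (`Y0`, `lk`, the constant `G` of a line)
represent `value + 8`, the multiplier `Y1` of `y` has offset 4.

Every inequality is checked at the two ends `b0`, `b1` (with separate `Y0`, `Y1`, a common `nu`):
its left side is convex in `b`.
-/

namespace Pool.Agent.Lib.MP_172a45_an.LT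

open Pool.Agent.Lib.MP_172a45_an.LP (rk lk)

/-- product rounded up -/
def mu (a b : ℕ) : ℕ := a * b / 16777216 + 1

/-- product rounded down -/
def md (a b : ℕ) : ℕ := a * b / 16777216

/-- upper bound of `2^((512-k)/64)` for every `k` -/
def rg (k : ℕ) : ℕ := rk (512 + k % 64) * 256 / 2 ^ (k / 64) + 1

/-- multipliers at one end of a `τ`-cell: `Y0, Y1` for `b0` (`a`) and for `b1` (`b`) -/
structure Nd where
  Y0a : ℕ
  Y1a : ℕ
  Y0b : ℕ
  Y1b : ℕ
  nu : ℕ

/-- job parameters: form 3 or 4, the `b`-cell `[b0, b1]`, `xi0 ≥ 1/b0`, `xi1 ≥ 1/b1`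
(form 3 with `b0 = 0` : not used), `ka ≥ 1/(1-b1)`, `kx ≥ 1/((1-b1) b0)` (form 3, `b0 > 0` only),
`kD` (`Δ ≥ lk kD/S - 8`), `kb` (form 4: `b0 R(b0) 2^(kb/64) ≤ b1 R(b1)`,
`R(b) = 1 + (1-b)(1 - rk kD/S)`) -/
structure TJ where
  form : ℕ
  b0 : ℕ
  b1 : ℕ
  xi0 : ℕ
  xi1 : ℕ
  ka : ℕ
  kx : ℕ
  kD : ℕ
  kb : ℕ

/-- one vertex inequality, at `y`, all `x` in `[x0, xt]` (`inf = 1`: all `x ≥ x0`), for the value
`bb` of `b` in `A²` (form 4: `bb = 1`); `cX` is the coefficient of `x` from `w`: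
`G + al D + ep T + cX x + nu (r0 + r1p y - r1n y + r2 y² - rX x) ≤ Y0 + (Y1 - 4) y`,
`D = (1 - tau T)² + 2 tau bb x` -/
def vt (G al ep cX r0 r1p r1n r2 rX bb tau inf Y0 Y1 nu y x0 xt : ℕ) : Bool :=
  let T := 16777216 + y
  let d := ((281474976710656 - tau * T) + (tau * T - 281474976710656)) / 16777216 + 1
  let cP := 2 * mu (mu al tau) bb + cX
  let cN := md nu rX
  (Nat.ble cP cN || Nat.beq inf 0) &&
    Nat.ble (67108864 * y + G * 16777216 + al * mu d d + ep * T +
        nu * (r0 + mu r1p y + mu r2 (mu y y)) + (cP - cN) * xt)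
      (Y0 * 16777216 + Y1 * y + nu * md r1n y + (cN - cP) * x0)

/-- the four vertices of one cell at `b0` -/
def vta (G al ep cX r0 r1p r1n r2 rX bb t0 t1 inf : ℕ) (na nb : Nd) (y0 y1 x0 xa xb : ℕ) :
    Bool :=
  vt G al ep cX r0 r1p r1n r2 rX bb t0 inf na.Y0a na.Y1a na.nu y0 x0 xa &&
  (vt G al ep cX r0 r1p r1n r2 rX bb t0 inf na.Y0a na.Y1a na.nu y1 x0 xb &&
  (vt G al ep cX r0 r1p r1n r2 rX bb t1 inf nb.Y0a nb.Y1a nb.nu y0 x0 xa &&
  vt G al ep cX r0 r1p r1n r2 rX bb t1 inf nb.Y0a nb.Y1a nb.nu y1 x0 xb))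

/-- the four vertices of one cell at `b1` -/
def vtb (G al ep cX r0 r1p r1n r2 rX bb t0 t1 inf : ℕ) (na nb : Nd) (y0 y1 x0 xa xb : ℕ) :
    Bool :=
  vt G al ep cX r0 r1p r1n r2 rX bb t0 inf na.Y0b na.Y1b na.nu y0 x0 xa &&
  (vt G al ep cX r0 r1p r1n r2 rX bb t0 inf na.Y0b na.Y1b na.nu y1 x0 xb &&
  (vt G al ep cX r0 r1p r1n r2 rX bb t1 inf nb.Y0b nb.Y1b nb.nu y0 x0 xa &&
  vt G al ep cX r0 r1p r1n r2 rX bb t1 inf nb.Y0b nb.Y1b nb.nu y1 x0 xb))

/-- the row line. Form 3: `l * 128` is the parameter of the line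
`18 l² + 12 l² b y - 6 l y - (1-b) g x` (bound of the row).
Form 4: `l = 4 l' + rt`; `rt = 0`: `c/(2b) + de (y + b y²/2 - (1-b) x)`; `rt = 1`:
`c/b + de y - (1-b) g x` (`de = rk l'`, `c = -log de - 1 + de`); `rt = 2`:
`y + b (18 l² + 12 l² b y - 6 l y) - (1-b) g x` with the parameter `l' * 128`. -/
def rowt (J : TJ) (G al cw p q l t0 t1 inf : ℕ) (na nb : Nd) (y0 y1 x0 xa xb : ℕ) : Bool :=
  let den := 16777216 + J.b1 * y1 / 16777216 + 1
  let g := 4722366482869645213696 / (den * den)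
  let ep := 2 * mu cw p
  let cX := mu cw q
  bif Nat.beq J.form 3 then
    let l3 := l * 128
    vta G al ep cX (mu (18 * l3) l3) (mu (12 * mu l3 l3) J.b0) (6 * l3) 0
      (md (16777216 - J.b0) g) J.b0 t0 t1 inf na nb y0 y1 x0 xa xb &&
    vtb G al ep cX (mu (18 * l3) l3) (mu (12 * mu l3 l3) J.b1) (6 * l3) 0
      (md (16777216 - J.b1) g) J.b1 t0 t1 inf na nb y0 y1 x0 xa xb
  else bif Nat.beq (l % 4) 0 then
    let de := rk (l / 4)
    let c := (lk (l / 4) + de) - 150994944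
    Nat.blt (l / 4) 1024 &&
      (vta G al ep cX (mu c J.xi0 / 2 + 1) de 0 (mu de J.b0 / 2 + 1)
        (md (16777216 - J.b0) de) 16777216 t0 t1 inf na nb y0 y1 x0 xa xb &&
      vtb G al ep cX (mu c J.xi1 / 2 + 1) de 0 (mu de J.b1 / 2 + 1)
        (md (16777216 - J.b1) de) 16777216 t0 t1 inf na nb y0 y1 x0 xa xb)
  else bif Nat.beq (l % 4) 1 then
    let de := rk (l / 4)
    let c := (lk (l / 4) + de) - 150994944
    Nat.blt (l / 4) 1024 &&
      (vta G al ep cX (mu c J.xi0) de 0 0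
        (md (16777216 - J.b0) g) 16777216 t0 t1 inf na nb y0 y1 x0 xa xb &&
      vtb G al ep cX (mu c J.xi1) de 0 0
        (md (16777216 - J.b1) g) 16777216 t0 t1 inf na nb y0 y1 x0 xa xb)
  else
    let l3 := l / 4 * 128
    vta G al ep cX (mu (mu (18 * l3) l3) J.b0) (16777216 + mu (mu (12 * mu l3 l3) J.b0) J.b0)
      (md (6 * l3) J.b0) 0
      (md (16777216 - J.b0) g) 16777216 t0 t1 inf na nb y0 y1 x0 xa xb &&
    vtb G al ep cX (mu (mu (18 * l3) l3) J.b1) (16777216 + mu (mu (12 * mu l3 l3) J.b1) J.b1)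
      (md (6 * l3) J.b1) 0
      (md (16777216 - J.b1) g) 16777216 t0 t1 inf na nb y0 y1 x0 xa xb

/-- upper bound of `x` on the cell at `y`: `xk = 0`: from `GL`, `xk = 2`: from `X ≤ 2T`,
`xk ≥ 3`: the constant `xk/64` (`xk = 1`: no bound, the value is not used) -/
def xtop (J : TJ) (xk y : ℕ) : ℕ :=
  bif Nat.beq xk 0 then
    bif Nat.beq J.form 3 then mu J.kx y + (mu J.ka (mu y y) / 2 + 1)
    else mu J.ka (y + (mu (mu J.b1 y) y / 2 + 1))
  else bif Nat.beq xk 2 then
    bif Nat.beq J.form 3 then 2 * mu J.xi0 (16777216 + y) else 2 * (16777216 + y)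
  else xk * 262144

/-- one cell `[y0, y1] × [x0, xtop]` of the `τ`-cell `[t0, t1]`; `typ` = 1, 2, 3 is the type of
the line for `Psi`, `k` its table index; `mk/256` is a lower bound of `A` -/
def itm (J : TJ) (t0 t1 p q : ℕ) (na nb : Nd) (y0 y1 x0 xk typ k mk l : ℕ) : Bool :=
  let T0 := 16777216 + y0
  let T1 := 16777216 + y1
  let mT := (16777216 - mu t1 T1) + (md t0 T0 - 16777216)
  let mK := mk * 65536
  let X0 := bif Nat.beq J.form 3 then md x0 J.b0 else x0
  let m := bif Nat.ble mK mT then mT else mK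
  let w0 := 2 * md p T0 + md q x0
  let xa := xtop J xk y0
  let xb := xtop J xk y1
  let inf := bif Nat.beq xk 1 then 1 else 0
  let r := rk k
  (Nat.ble (mK * mK) (mT * mT + 2 * (t0 * X0)) &&
    (Nat.ble y0 y1 && (Nat.blt k 1024 &&
      (Nat.beq J.form 4 || (Nat.blt 0 J.b0 || (Nat.beq xk 1 || Nat.blt 2 xk)))))) &&
    (match typ with
    | 1 =>
      let w1 := 2 * mu p T1 + mu q xb
      let om := mu w1 r
      let rm := md m r
      let v := md rm rm
      let rmu := mu m r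
      ((Nat.beq inf 0 || Nat.beq q 0) &&
        (Nat.ble (5 * om) 33554432 || (Nat.ble (3 * om) 33554432 && (Nat.ble om rm &&
          Nat.ble (om * 16777216) ((16777216 - om) * (v + rm)))))) &&
        rowt J (lk k + (mu (mu rmu rmu) (mu w0 r) / 2 + 1) - 8388608)
          (mu r r * (16777216 - md w0 r) / 33554432 + 1)
          (mu r ((50331648 - v) / 2 + 1)) p q l t0 t1 inf na nb y0 y1 x0 xa xb
    | 2 => Nat.blt 0 w0 && rowt J (lk k)
          (240840690626351905898496 / (1000 * (w0 * w0)) + 1) r p q l t0 t1 inf na nb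
          y0 y1 x0 xa xb
    | 3 =>
      let al := 9444732965739290427392 / (27 * (w0 * w0)) + 1
      (Nat.blt 0 w0 && Nat.blt 0 m) &&
        rowt J ((lk k + mu m r) - 16777216 - md (md al m) m) al
          (281474976710656 / m + 1) p q l t0 t1 inf na nb y0 y1 x0 xa xb
    | _ => false)

/-- all cells: columns `[y0, y1]`, each a list of cells in `x` (state: `y0`, `x0`, and the right
end `yc` of the current column if `x0 > 0`), from `y0` up to at least `ymax`; each word packs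
`y1/65536 (15 bits), typ (2), k (10), mk (14), xk (20), l` -/
def cols (J : TJ) (t0 t1 p q : ℕ) (na nb : Nd) (ymax : ℕ) : ℕ → ℕ → ℕ → List ℕ → Bool
  | y0, x0, _, [] => Nat.ble ymax y0 && Nat.beq x0 0
  | y0, x0, yc, w :: ws =>
    let y1 := w % 32768 * 65536
    let typ := w / 32768 % 4
    let k := w / 131072 % 1024
    let mk := w / 134217728 % 16384
    let xk := w / 2199023255552 % 1048576
    let l := w / 2305843009213693952
    (Nat.beq x0 0 || Nat.beq y1 yc) &&
      (itm J t0 t1 p q na nb y0 y1 x0 xk typ k mk l &&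
        (bif Nat.blt xk 3 then cols J t0 t1 p q na nb ymax y1 0 0 ws
        else (Nat.blt x0 (xk * 262144) &&
          cols J t0 t1 p q na nb ymax y0 (xk * 262144) y1 ws)))

/-- a `τ`-cell (from the right end of the previous one to `t1`) -/
structure TT where
  t1 : ℕ
  p : ℕ
  q : ℕ
  na : Nd
  nb : Nd
  ys : List ℕ

/-- the pointwise part of a job: all `τ`-cells, covering `[0, a/(1+a)]` -/
def tcs (J : TJ) (ymax : ℕ) : ℕ → List TT → Bool
  | t0, [] => Nat.ble ((16777216 - J.b0) * 16777216) (t0 * (33554432 - J.b0))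
  | t0, c :: cs =>
    (Nat.blt t0 c.t1 && (Nat.blt 0 c.p && Nat.blt 0 c.q)) &&
      (cols J t0 c.t1 c.p c.q c.na c.nb ymax 0 0 0 c.ys && tcs J ymax c.t1 cs)

/-- the cell for the product at `τ = a/(1+a)` (`q = 0`) -/
def fcl (J : TJ) (ymax tF : ℕ) (c : TT) : Bool :=
  (Nat.ble (tF * (33554432 - J.b1)) ((16777216 - J.b1) * 16777216) &&
      (Nat.ble ((16777216 - J.b0) * 16777216) (c.t1 * (33554432 - J.b0)) &&
        (Nat.ble tF c.t1 && Nat.blt 0 c.p))) &&
    cols J tF c.t1 c.p 0 c.na c.nb ymax 0 0 0 c.ys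

/-- `S² R(b)` -/
def RR (J : TJ) (b : ℕ) : ℕ := 281474976710656 + (16777216 - b) * (16777216 - rk J.kD)

/-- parameters of a job are consistent -/
def jok (J : TJ) : Bool :=
  (Nat.blt J.b0 J.b1 && (Nat.blt J.b1 16777216 && Nat.blt J.kD 1024)) &&
  (Nat.ble 281474976710656 (J.ka * (16777216 - J.b1)) &&
  (bif Nat.beq J.form 3 then
    Nat.beq J.kb 0 &&
    (Nat.beq J.b0 0 || (Nat.ble 281474976710656 (J.xi0 * J.b0) &&
    Nat.ble 4722366482869645213696 (J.kx * ((16777216 - J.b1) * J.b0))))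
  else
    Nat.beq J.form 4 && (Nat.blt 0 J.b0 && (Nat.ble 281474976710656 (J.xi0 * J.b0) &&
    (Nat.ble 281474976710656 (J.xi1 * J.b1) && (Nat.ble J.kb 512 &&
    Nat.ble (J.b0 * RR J J.b0 * rk (512 - J.kb)) (J.b1 * RR J J.b1 * 16777216)))))))

/-- lower bound of `log (x / S)` if `rk j ≤ x`, `S ≤ x` -/
def loglo (x j : ℕ) : ℕ := (134217728 + 2 * (x - rk j) * 16777216 / (x + rk j)) - lk j

/-- validity of the index in `loglo` -/
def logok (x j : ℕ) : Bool := Nat.ble (rk j) x && (Nat.ble 16777216 x && Nat.blt j 1024)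

/-- upper bound of `1 + a b / 2` on the `b`-cell -/
def muhi (J : TJ) : ℕ :=
  bif Nat.ble (2 * J.b1) 16777216 then 16777216 + J.b1 * (16777216 - J.b1) / 33554432 + 1
  else bif Nat.ble 16777216 (2 * J.b0) then
    16777216 + J.b0 * (16777216 - J.b0) / 33554432 + 1
  else 18874368

/-- lower bound of `1 + a b / 2` on the `b`-cell -/
def mulo (J : TJ) : ℕ :=
  bif Nat.ble (2 * J.b1) 16777216 then 16777216 + J.b0 * (16777216 - J.b0) / 33554432
  else bif Nat.ble 16777216 (2 * J.b0) then 16777216 + J.b1 * (16777216 - J.b1) / 33554432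
  else 16777216

/-- argument `1 + Z` of the logarithm for the row constant at the end `b` of the cell -/
def zarg (J : TJ) (N b : ℕ) : ℕ :=
  bif Nat.beq J.form 3 then 16777216 + mu (N * b) (muhi J)
  else 16777216 + md (N * b) (mulo J)

/-- form 3: upper bound at `b` of `(b N a - log (1 + b N (1 + a b / 2))) / b²` (a bound by a
convex function of `b`: `(z - log (1+z)) / b² - N (1 + a/2)` with `z = b N muhi`) -/
def rowK3 (J : TJ) (N b j : ℕ) : ℕ :=
  (bif Nat.beq b 0 then N * N * mu (muhi J) (muhi J) / 2 + 1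
  else (zarg J N b - 16777216 - loglo (zarg J N b) j) * 281474976710656 / (b * b) + 1) -
    N * (16777216 + (16777216 - b) / 2)

/-- form 4: with `L0, L1` lower bounds of `log (1 + b N mulo)` at the ends, a lower bound of
`c1 + c0 b' / m²`, `c1 = (L1 - L0)/(b1 - b0)`, `c0 = (L0 b1 - L1 b0)/(b1 - b0)`,
`m = (b0 + b1)/2`; `b' = b1` gives the value at `b0`, `b' = b0` the value at `b1` of a linear
lower bound of `log (1 + b N (1 + a b / 2)) / b` -/
def rowK4 (J : TJ) (L0 L1 b' : ℕ) : ℕ :=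
  (4 * (L0 * J.b1 - L1 * J.b0) * b' / ((J.b0 + J.b1) * (J.b0 + J.b1)) + (L1 - L0)) *
    16777216 / (J.b1 - J.b0)

/-- the row constants at `b0` and `b1` -/
def rowKa (J : TJ) (N ja jb : ℕ) : ℕ :=
  bif Nat.beq J.form 3 then rowK3 J N J.b0 ja
  else rowK4 J (loglo (zarg J N J.b0) ja) (loglo (zarg J N J.b1) jb) J.b1

def rowKb (J : TJ) (N ja jb : ℕ) : ℕ :=
  bif Nat.beq J.form 3 then rowK3 J N J.b1 jb
  else rowK4 J (loglo (zarg J N J.b0) ja) (loglo (zarg J N J.b1) jb) J.b0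

/-- the indices for the logarithms are valid; form 4: `L0 ≤ L1`, `L1 b0 ≤ L0 b1` -/
def rowKok (J : TJ) (N ja jb : ℕ) : Bool :=
  (logok (zarg J N J.b0) ja && logok (zarg J N J.b1) jb) &&
  (Nat.beq J.form 3 ||
    (Nat.ble (loglo (zarg J N J.b0) ja) (loglo (zarg J N J.b1) jb) &&
    Nat.ble (loglo (zarg J N J.b1) jb * J.b0) (loglo (zarg J N J.b0) ja * J.b1)))

/-- per `N` data: `ja, jb` indices for the logarithms at the ends, `gs` the indices of the bounds
`Ga, Gb` of the `τ`-cells (`4096 ka + kb`), `gF` the one of the product cell -/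
structure NT where
  N : ℕ
  ja : ℕ
  jb : ℕ
  gs : List ℕ
  gF : ℕ

/-- value of the majorant at a node is `≤ log 2^((512 - kG)/64)` at one end `b` of the cell,
including the correction `N (Y1b - Y1a) (b1 - b0) / 4` (for the concave term `-b Y1(b)`) -/
def vcb (J : TJ) (N K Y0 Y1 b nu cor kG : ℕ) : Bool :=
  bif Nat.beq J.form 3 then
    Nat.ble (N * Y0 * 16777216 + N * (Y1 - 67108864) * (16777216 - b) + cor +
      nu * K + lk kG * 16777216)
      ((8 * N + 8) * 281474976710656 + N * (67108864 - Y1) * (16777216 - b))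
  else Nat.ble (N * Y0 * 16777216 + N * (Y1 - 67108864) * (16777216 - b) + cor +
      lk kG * 16777216)
      ((8 * N + 8) * 281474976710656 + N * (67108864 - Y1) * (16777216 - b) + nu * K)

/-- the value check at a node: index `kG` at `b0`, `kG - kb` at `b1` -/
def vch (J : TJ) (N Ka Kb : ℕ) (n : Nd) (kG : ℕ) : Bool :=
  let cor := N * (n.Y1b - n.Y1a) * (J.b1 - J.b0) / 4 + 1
  (Nat.blt kG 4096 && Nat.ble J.kb kG) &&
    (vcb J N Ka n.Y0a n.Y1a J.b0 n.nu cor kG && vcb J N Kb n.Y0b n.Y1b J.b1 n.nu cor (kG - J.kb))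

/-- one quarter of the integral over `[t0, t0 + h]` (`i = 0..3`), times `96` -/
def piece (t0 h ka kb i : ℕ) : ℕ :=
  h * ((12 * t0 + (3 * i + 1) * h) * rg ((ka * (4 - i) + kb * i) / 4) +
    (12 * t0 + (3 * i + 2) * h) * rg ((ka * (3 - i) + kb * (i + 1)) / 4))

/-- bound of `A0 B0 / (N b) e^{-2} ∫ τ G` over one `τ`-cell (at `b = b0` in form 4) -/
def cint (J : TJ) (N t0 t1 p q ka kb : ℕ) : ℕ :=
  let s := (piece t0 (t1 - t0) ka kb 0 + piece t0 (t1 - t0) ka kb 1 + piece t0 (t1 - t0) ka kb 2 +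
    piece t0 (t1 - t0) ka kb 3) * 13534
  bif Nat.beq J.form 3 then s / (9600000 * N * (q * p)) + 1
  else s * 16777216 / (9600000 * N * ((q + p) * p * J.b0)) + 1

/-- all node checks and the sum of the integral bounds; the total must stay below `R` -/
def gsm (J : TJ) (N Ka Kb R : ℕ) : ℕ → List TT → List ℕ → ℕ → Bool
  | _, [], _, acc => Nat.blt acc R
  | _, _ :: _, [], _ => false
  | t0, c :: cs, g :: gs, acc =>
    (vch J N Ka Kb c.na (g / 4096) && vch J N Ka Kb c.nb (g % 4096)) &&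
      gsm J N Ka Kb R c.t1 cs gs (acc + cint J N t0 c.t1 c.p c.q (g / 4096) (g % 4096))

/-- the bound of the first term, divided by `b` -/
def fpart (J : TJ) (ymax N K pF kF : ℕ) : ℕ :=
  bif Nat.beq J.form 3 then
    let den := 16777216 + mu J.b1 ymax
    let sX := mu K (mu J.ka (mu den den))
    rg kF + (mu sX (rg kF) / (2 * N) + 1) + (sX * rg kF / (2 * pF) + 1)
  else mu (rg kF) J.xi0

/-- the check for one `N` -/
def nok (J : TJ) (ymax : ℕ) (cF : TT) (cs : List TT) (n : NT) : Bool :=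
  let Ka := rowKa J n.N n.ja n.jb
  let Kb := rowKb J n.N n.ja n.jb
  let R := bif Nat.beq J.form 3 then RR J J.b1 / 16777216 else RR J J.b0 / 16777216
  ((Nat.blt 0 n.N && Nat.ble (n.N * (16777216 - J.b0)) ymax) && rowKok J n.N n.ja n.jb) &&
  ((vch J n.N Ka Kb cF.na n.gF && vch J n.N Ka Kb cF.nb n.gF) &&
    gsm J n.N Ka Kb R 0 cs n.gs (fpart J ymax n.N (bif Nat.ble Ka Kb then Kb else Ka) cF.p n.gF))

/-- a complete job -/
structure Job where
  J : TJ
  ymax : ℕ
  tF : ℕ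
  cF : TT
  cs : List TT
  ns : List NT

/-- the checker. SOUNDNESS: if `j.ok` then for every `n ∈ j.ns` there is no `FT n.N a Δ y X` with
`j.J.b0/S ≤ 1 - a ≤ j.J.b1/S` and `lk j.J.kD/S - 8 ≤ Δ` -/
def Job.ok (j : Job) : Bool :=
  jok j.J && (fcl j.J j.ymax j.tF j.cF && (tcs j.J j.ymax 0 j.cs &&
    j.ns.all (nok j.J j.ymax j.cF j.cs)))

end Pool.Agent.Lib.MP_172a45_an.LT
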