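import Pool.Agent.Lib.MP_172a45_an.LT.Asm
import Pool.Agent.Lib.MP_172a45_an.H64.R
import Pool.Agent.Lib.MP_172a45_an.LP.Y

set_option autoImplicit false

/-!
# No frame for `60 ≤ N ≤ 99` (from the soundness of the `TC` checker)
-/

namespace Pool.Agent.Lib.MP_172a45_an.LT

open Finset Real
open Pool.Agent.Lib.MP_172a45_an.LP (rk lk)
open Pool.Agent.Lib.MP_172a45_an.F (FT FV Fr)

theorem lk_615 : (lk 615 : ℝ) / 16777216 - 8 ≤ 3 / 2 := by
  have : lk 615 = 152933280 := by decide +kernel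
  rw [this]; norm_num

theorem lk_627 : (lk 627 : ℝ) / 16777216 - 8 ≤ 3 / 2 := by
  have : lk 627 = 155113732 := by decide +kernel
  rw [this]; norm_num

theorem lk_638 : (lk 638 : ℝ) / 16777216 - 8 ≤ 3 / 2 := by
  have : lk 638 = 157112480 := by decide +kernel
  rw [this]; norm_num

theorem lk_830 : (3 : ℝ) / 2 ≤ LP.va (lk 830) - 8 := by
  have : lk 830 = 191999720 := by decide +kernel
  rw [this]; unfold LP.va; norm_num

/-- `60 ≤ N ≤ 99` -/
theorem mid60 (hs : SoundStatement) {M : ℕ} {a : ℝ} {ζ z : Fin (M + 1) → ℂ}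
    (h : Fr (M + 1) a ζ z) (h1 : 59 ≤ M) (h2 : M ≤ 98) : False := by
  have hF := h.toFT (Nat.succ_pos M)
  rcases le_or_gt (Fr.Del a ζ) (3 / 10) with hD | hD
  · exact h.R (by omega) hD
  rcases le_or_gt (Fr.Del a ζ) (3 / 2) with hE | hE
  · exact LP.Y_false'' (by omega) (by omega) h.toFV hD.le (hE.trans lk_830)
  rcases Nat.lt_or_ge M 69 with h3 | h3
  · exact gD60 hs (by omega) (by omega) hF (lk_615.trans hE.le)
  rcases Nat.lt_or_ge M 79 with h4 | h4
  · exact gD70 hs (by omega) (by omega) hF (lk_627.trans hE.le)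
  rcases Nat.lt_or_ge M 89 with h5 | h5
  · exact gD80 hs (by omega) (by omega) hF (lk_638.trans hE.le)
  · exact gD90 hs (by omega) (by omega) hF (lk_638.trans hE.le)

end Pool.Agent.Lib.MP_172a45_an.LT
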