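import Pool.Agent.Lib.MP_172a45_an.LP.Sound1
import Pool.Agent.Lib.MP_172a45_an.LT.Chk

set_option autoImplicit false

/-!
# Soundness of the TC certificate checker, part 1: vertices and rows (helper58)
-/

namespace Pool.Agent.Lib.MP_172a45_an.LT

open Finset Real Pool.Agent.Lib.MP_172a45_an.F
open Pool.Agent.Lib.MP_172a45_an.LP (rk lk va va_nonneg va_zero va_S va_add va_nmul va_le va_lt
  va_pos va_sub va_sub_of_le lt_div_add_one div_le_cast va_div_up va_div_dn abs_dist rho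
  mul_S_cast va_mul_div g_bound c_bound rk_pos neg_log_rk_le)

theorem va_mu (a b : ℕ) : va a * va b ≤ va (mu a b) := LP.va_mu a b

theorem va_md (a b : ℕ) : va (md a b) ≤ va a * va b := LP.va_md a b

theorem va_mu_le {a b : ℕ} {x y : ℝ} (hx : x ≤ va a) (hy : y ≤ va b)
    (hy0 : 0 ≤ y) : x * y ≤ va (mu a b) := LP.va_mu_le hx hy hy0

theorem va_md_le {a b : ℕ} {x y : ℝ} (hx : va a ≤ x) (hy : va b ≤ y) : va (md a b) ≤ x * y :=
  LP.va_md_le hx hy

/-! ### the vertex inequality -/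

/-- the two coefficients of `x` -/
def cP (al tau bb cX : ℕ) : ℕ := 2 * mu (mu al tau) bb + cX

def cN (nu rX : ℕ) : ℕ := md nu rX

theorem va_sub_sub (m n : ℕ) : va m - va n = va (m - n) - va (n - m) := by
  rcases le_total m n with h | h
  · rw [Nat.sub_eq_zero_of_le h, va_sub_of_le h, va_zero]; ring
  · rw [Nat.sub_eq_zero_of_le h, va_sub_of_le h, va_zero]; ring

theorem coef_le (al tau bb cX nu rX : ℕ) :
    2 * (va al * va tau) * va bb + va cX - va nu * va rX ≤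
      va (cP al tau bb cX - cN nu rX) - va (cN nu rX - cP al tau bb cX) := by
  rw [← va_sub_sub]
  unfold cP cN
  have h1 := va_md nu rX
  have h2 : va al * va tau * va bb ≤ va (mu (mu al tau) bb) :=
    va_mu_le (va_mu al tau) le_rfl (va_nonneg _)
  rw [va_add, va_nmul]
  push_cast
  linarith

theorem vt_sound {G al ep cX r0 r1p r1n r2 rX bb tau inf Y0 Y1 nu y x0 xt : ℕ}
    (h : vt G al ep cX r0 r1p r1n r2 rX bb tau inf Y0 Y1 nu y x0 xt = true) :
    (inf ≠ 0 → cP al tau bb cX ≤ cN nu rX) ∧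
    va G + va al * (1 - va tau * (1 + va y)) ^ 2 + va ep * (1 + va y) +
      va nu * (va r0 + va r1p * va y + va r2 * va y ^ 2) +
      va (cP al tau bb cX - cN nu rX) * va xt ≤
      va Y0 + (va Y1 - 4) * va y + va nu * (va r1n * va y) +
      va (cN nu rX - cP al tau bb cX) * va x0 := by
  unfold vt at h
  simp only [Bool.and_eq_true, Bool.or_eq_true] at h
  obtain ⟨hi, h⟩ := h
  have h := Nat.le_of_ble_eq_true h
  refine ⟨fun h0 => ?_, ?_⟩
  · rcases hi with hi | hi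
    · exact Nat.le_of_ble_eq_true hi
    · exact absurd (Nat.eq_of_beq_eq_true hi) h0
  have hMp : 2 * mu (mu al tau) bb + cX - md nu rX = cP al tau bb cX - cN nu rX := rfl
  have hMn : md nu rX - (2 * mu (mu al tau) bb + cX) = cN nu rX - cP al tau bb cX := rfl
  rw [hMp, hMn] at h
  obtain ⟨Mp, hMp⟩ : ∃ Mp, Mp = cP al tau bb cX - cN nu rX := ⟨_, rfl⟩
  obtain ⟨Mn, hMn⟩ : ∃ Mn, Mn = cN nu rX - cP al tau bb cX := ⟨_, rfl⟩
  rw [← hMp, ← hMn] at h ⊢
  set T : ℕ := 16777216 + y with hT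
  set d : ℕ := ((281474976710656 - tau * T) + (tau * T - 281474976710656)) / 16777216 + 1 with hd
  have hTv : va T = 1 + va y := by rw [hT, va_add, va_S]
  have hy0 := va_nonneg y
  -- the distance
  have hdv : |1 - va tau * (1 + va y)| ≤ va d := by
    have h1 := abs_dist 281474976710656 (tau * T)
    have h2 := lt_div_add_one ((281474976710656 - tau * T) + (tau * T - 281474976710656))
      16777216 (by norm_num)
    rw [← hd] at h2
    rw [← hTv]
    have e : 1 - va tau * va T = ((281474976710656 : ℕ) - ((tau * T : ℕ) : ℝ)) /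
        (16777216 * 16777216) := by
      unfold va; push_cast; ring
    rw [e, abs_div, abs_of_nonneg (by norm_num : (0:ℝ) ≤ 16777216 * 16777216)]
    unfold va
    rw [div_le_div_iff₀ (by norm_num) (by norm_num)]
    have h3 : |((281474976710656 : ℕ) : ℝ) - ((tau * T : ℕ) : ℝ)| ≤ (d : ℝ) * 16777216 := by
      refine h1.trans ?_
      rw [div_le_iff₀ (by norm_num)] at h2
      exact_mod_cast h2
    nlinarith
  have hd2 : (1 - va tau * (1 + va y)) ^ 2 ≤ va (mu d d) := by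
    rw [← sq_abs, sq]
    exact va_mu_le hdv hdv (abs_nonneg _)
  have hr1 : va r1p * va y ≤ va (mu r1p y) := va_mu _ _
  have hyy : va y ^ 2 ≤ va (mu y y) := by rw [sq]; exact va_mu _ _
  have hr2 : va r2 * va y ^ 2 ≤ va (mu r2 (mu y y)) :=
    va_mu_le le_rfl hyy (sq_nonneg _)
  have hrn : va (md r1n y) ≤ va r1n * va y := va_md _ _
  have hc : 67108864 * (y : ℝ) + (G : ℝ) * 16777216 + al * (mu d d : ℕ) + ep * T +
      nu * (r0 + (mu r1p y : ℕ) + (mu r2 (mu y y) : ℕ)) +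
      Mp * xt ≤ Y0 * 16777216 + Y1 * y + nu * (md r1n y : ℕ) +
      Mn * x0 := by exact_mod_cast h
  have hc2 : 4 * va y + va G + va al * va (mu d d) + va ep * va T +
      va nu * (va r0 + va (mu r1p y) + va (mu r2 (mu y y))) + va Mp * va xt ≤
      va Y0 + va Y1 * va y + va nu * va (md r1n y) + va Mn * va x0 := by
    have h1 := div_le_div_of_nonneg_right hc (by norm_num : (0:ℝ) ≤ 16777216 * 16777216)
    unfold va
    calc _ = _ := ?_
      _ ≤ _ := h1
      _ = _ := ?_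
    · ring
    · ring
  rw [hTv] at hc2
  have a1 := mul_le_mul_of_nonneg_left hd2 (va_nonneg al)
  have a3 := mul_le_mul_of_nonneg_left (add_le_add (add_le_add (le_refl (va r0)) hr1) hr2)
    (va_nonneg nu)
  have a5 := mul_le_mul_of_nonneg_left hrn (va_nonneg nu)
  linarith

/-- upper bounds of `x` on the cell -/
def Top (inf y0 y1 xa xb : ℕ) (y x : ℝ) : Prop :=
  inf ≠ 0 ∨ ∃ k2 k1 k0 : ℝ, 0 ≤ k2 ∧ k2 * va y0 ^ 2 + k1 * va y0 + k0 ≤ va xa ∧
    k2 * va y1 ^ 2 + k1 * va y1 + k0 ≤ va xb ∧ x ≤ k2 * y ^ 2 + k1 * y + k0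

/-- two vertices: the inequality on the whole cell -/
theorem vt2_sound {G al ep cX r0 r1p r1n r2 rX bb tau inf Y0 Y1 nu y0 y1 x0 xa xb : ℕ}
    (h0 : vt G al ep cX r0 r1p r1n r2 rX bb tau inf Y0 Y1 nu y0 x0 xa = true)
    (h1 : vt G al ep cX r0 r1p r1n r2 rX bb tau inf Y0 Y1 nu y1 x0 xb = true) {y x : ℝ}
    (hy0 : va y0 ≤ y) (hy1 : y ≤ va y1) (hx0 : va x0 ≤ x) (hT : Top inf y0 y1 xa xb y x) :
    va G + va al * ((1 - va tau * (1 + y)) ^ 2 + 2 * va tau * (va bb * x)) +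
      va ep * (1 + y) + va cX * x +
      va nu * (va r0 + va r1p * y - va r1n * y + va r2 * y ^ 2 - va rX * x) ≤
      va Y0 + (va Y1 - 4) * y := by
  obtain ⟨i0, k0⟩ := vt_sound h0
  obtain ⟨-, k1⟩ := vt_sound h1
  have hco := coef_le al tau bb cX nu rX
  have hMp0 := va_nonneg (cP al tau bb cX - cN nu rX)
  have hMn0 := va_nonneg (cN nu rX - cP al tau bb cX)
  have hxx : 0 ≤ x := (va_nonneg x0).trans hx0
  obtain ⟨c2, c1, c0, hc2, hca, hcb, hx⟩ : ∃ c2 c1 c0 : ℝ, 0 ≤ c2 ∧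
      va (cP al tau bb cX - cN nu rX) * (c2 * va y0 ^ 2 + c1 * va y0 + c0) ≤
        va (cP al tau bb cX - cN nu rX) * va xa ∧
      va (cP al tau bb cX - cN nu rX) * (c2 * va y1 ^ 2 + c1 * va y1 + c0) ≤
        va (cP al tau bb cX - cN nu rX) * va xb ∧
      va (cP al tau bb cX - cN nu rX) * x ≤
        va (cP al tau bb cX - cN nu rX) * (c2 * y ^ 2 + c1 * y + c0) := by
    rcases hT with hT | ⟨c2, c1, c0, h2, ha, hb, hx⟩
    · refine ⟨0, 0, 0, le_rfl, ?_⟩
      rw [Nat.sub_eq_zero_of_le (i0 hT), va_zero]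
      simp
    · exact ⟨c2, c1, c0, h2, mul_le_mul_of_nonneg_left ha hMp0,
        mul_le_mul_of_nonneg_left hb hMp0, mul_le_mul_of_nonneg_left hx hMp0⟩
  obtain ⟨Mp, hMp⟩ : ∃ Mp, Mp = va (cP al tau bb cX - cN nu rX) := ⟨_, rfl⟩
  obtain ⟨Mn, hMn⟩ : ∃ Mn, Mn = va (cN nu rX - cP al tau bb cX) := ⟨_, rfl⟩
  rw [← hMp] at k0 k1 hco hMp0 hca hcb hx
  rw [← hMn] at k0 k1 hco hMn0
  have e : ∀ t : ℝ, (va al * va tau ^ 2 + va nu * va r2 + Mp * c2) * t ^ 2 +
      (-(2 * va al * va tau * (1 - va tau)) + va ep + va nu * va r1p - (va Y1 - 4) -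
        va nu * va r1n + Mp * c1) * t +
      (va al * (1 - va tau) ^ 2 + va G + va ep + va nu * va r0 - va Y0 + Mp * c0 -
        Mn * va x0) =
      (va G + va al * (1 - va tau * (1 + t)) ^ 2 + va ep * (1 + t) +
      va nu * (va r0 + va r1p * t + va r2 * t ^ 2) + Mp * (c2 * t ^ 2 + c1 * t + c0)) -
      (va Y0 + (va Y1 - 4) * t + va nu * (va r1n * t) + Mn * va x0) := fun t => by ring
  have k := quad_le (α := va al * va tau ^ 2 + va nu * va r2 + Mp * c2)
    (β := -(2 * va al * va tau * (1 - va tau)) + va ep + va nu * va r1p - (va Y1 - 4) -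
        va nu * va r1n + Mp * c1)
    (γ := va al * (1 - va tau) ^ 2 + va G + va ep + va nu * va r0 - va Y0 + Mp * c0 -
        Mn * va x0)
    (by
      have := va_nonneg al
      have := va_nonneg nu
      have := va_nonneg r2
      positivity) (by rw [e]; linarith) (by rw [e]; linarith) hy0 hy1
  rw [e] at k
  have h3 := mul_le_mul_of_nonneg_right hco hxx
  have h4 := mul_le_mul_of_nonneg_left hx0 hMn0
  have e2 : va G + va al * ((1 - va tau * (1 + y)) ^ 2 + 2 * va tau * (va bb * x)) +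
      va ep * (1 + y) + va cX * x +
      va nu * (va r0 + va r1p * y - va r1n * y + va r2 * y ^ 2 - va rX * x) =
      va G + va al * (1 - va tau * (1 + y)) ^ 2 + va ep * (1 + y) +
      va nu * (va r0 + va r1p * y + va r2 * y ^ 2) - va nu * (va r1n * y) +
      (2 * (va al * va tau) * va bb + va cX - va nu * va rX) * x := by ring
  rw [e2]
  linarith

/-! ### parameters of a job -/

/-- consistency of the job parameters -/
structure JR (J : TJ) : Prop where
  b01 : J.b0 < J.b1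
  b1 : J.b1 < 16777216
  kD : J.kD < 1024
  ka : 281474976710656 ≤ J.ka * (16777216 - J.b1)
  kb3 : Nat.beq J.form 3 = true → J.kb = 0
  xi0 : 0 < J.b0 → 281474976710656 ≤ J.xi0 * J.b0
  kx : Nat.beq J.form 3 = true → 0 < J.b0 →
    4722366482869645213696 ≤ J.kx * ((16777216 - J.b1) * J.b0)
  b00 : Nat.beq J.form 3 = false → 0 < J.b0
  xi1 : Nat.beq J.form 3 = false → 281474976710656 ≤ J.xi1 * J.b1
  kb : J.kb ≤ 512
  kb4 : Nat.beq J.form 3 = false →
    J.b0 * RR J J.b0 * rk (512 - J.kb) ≤ J.b1 * RR J J.b1 * 16777216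

theorem jok_sound {J : TJ} (h : jok J = true) : JR J := by
  unfold jok at h
  simp only [Bool.and_eq_true] at h
  obtain ⟨⟨h1, h2, hD⟩, h3, h4⟩ := h
  have h1 : J.b0 < J.b1 := by rwa [Nat.blt_eq] at h1
  have h2 : J.b1 < 16777216 := by rwa [Nat.blt_eq] at h2
  have hD : J.kD < 1024 := by rwa [Nat.blt_eq] at hD
  have h3 := Nat.le_of_ble_eq_true h3
  cases hf : Nat.beq J.form 3
  · rw [hf, cond_false] at h4
    simp only [Bool.and_eq_true] at h4
    obtain ⟨-, k1, k2, k3, k4, k5⟩ := h4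
    have k1 : 0 < J.b0 := by rwa [Nat.blt_eq] at k1
    exact ⟨h1, h2, hD, h3, fun h => (Bool.false_ne_true (hf ▸ h)).elim,
      fun _ => Nat.le_of_ble_eq_true k2, fun h => (Bool.false_ne_true (hf ▸ h)).elim,
      fun _ => k1, fun _ => Nat.le_of_ble_eq_true k3, Nat.le_of_ble_eq_true k4,
      fun _ => Nat.le_of_ble_eq_true k5⟩
  · rw [hf, cond_true] at h4
    simp only [Bool.and_eq_true, Bool.or_eq_true] at h4
    obtain ⟨k0, k1⟩ := h4
    have k0 : J.kb = 0 := Nat.eq_of_beq_eq_true k0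
    have k2 : 0 < J.b0 → (281474976710656 ≤ J.xi0 * J.b0 ∧
        4722366482869645213696 ≤ J.kx * ((16777216 - J.b1) * J.b0)) := by
      intro h0
      rcases k1 with k1 | ⟨k1, k2⟩
      · exact absurd (Nat.eq_of_beq_eq_true k1) (by omega)
      · exact ⟨Nat.le_of_ble_eq_true k1, Nat.le_of_ble_eq_true k2⟩
    exact ⟨h1, h2, hD, h3, fun _ => k0, fun h => (k2 h).1, fun _ h => (k2 h).2,
      fun h => (Bool.false_ne_true (h.symm.trans hf)).elim,
      fun h => (Bool.false_ne_true (h.symm.trans hf)).elim, by omega,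
      fun h => (Bool.false_ne_true (h.symm.trans hf)).elim⟩

namespace JR

variable {J : TJ}

theorem va_b1 (h : JR J) : va (16777216 - J.b1) = 1 - va J.b1 := by
  rw [va_sub_of_le h.b1.le, va_S]

theorem va_b1_lt (h : JR J) : va J.b1 < 1 := by
  have := va_lt h.b1
  rwa [va_S] at this

theorem va_b0 (h : JR J) : va (16777216 - J.b0) = 1 - va J.b0 := by
  rw [va_sub_of_le (h.b01.trans h.b1).le, va_S]

theorem va_b01 (h : JR J) : va J.b0 < va J.b1 := va_lt h.b01

theorem one_le {m n : ℕ} (h : 281474976710656 ≤ m * n) : 1 ≤ va m * va n := by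
  rw [va_mul_div, le_div_iff₀ (by norm_num)]
  have : ((281474976710656 : ℕ) : ℝ) ≤ ((m * n : ℕ) : ℝ) := by exact_mod_cast h
  refine le_trans ?_ this
  norm_num

theorem one_le3 {m n k : ℕ} (h : 4722366482869645213696 ≤ m * (n * k)) :
    1 ≤ va m * (va n * va k) := by
  have h1 : ((4722366482869645213696 : ℕ) : ℝ) ≤ ((m * (n * k) : ℕ) : ℝ) := by exact_mod_cast h
  have h2 := div_le_div_of_nonneg_right h1
    (by norm_num : (0:ℝ) ≤ 16777216 * (16777216 * 16777216))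
  calc (1 : ℝ) = _ := ?_
    _ ≤ _ := h2
    _ = _ := ?_
  · norm_num
  · unfold va; push_cast; ring

theorem ka1 (h : JR J) : 1 ≤ va J.ka * (1 - va J.b1) := by
  rw [← h.va_b1]; exact one_le h.ka

theorem xi0' (h : JR J) (h0 : 0 < J.b0) : 1 ≤ va J.xi0 * va J.b0 := one_le (h.xi0 h0)

theorem xi1' (h : JR J) (hf : Nat.beq J.form 3 = false) : 1 ≤ va J.xi1 * va J.b1 :=
  one_le (h.xi1 hf)

theorem kx' (h : JR J) (hf : Nat.beq J.form 3 = true) (h0 : 0 < J.b0) :
    1 ≤ va J.kx * ((1 - va J.b1) * va J.b0) := by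
  rw [← h.va_b1]; exact one_le3 (h.kx hf h0)

end JR

/-- the position `δ` of `b` in the cell -/
structure BC (J : TJ) (b δ : ℝ) : Prop where
  b0 : 0 < b
  b1 : b < 1
  d0 : 0 ≤ δ
  d1 : δ ≤ 1
  eq : b = (1 - δ) * va J.b0 + δ * va J.b1

theorem BC.exists {J : TJ} (hJ : JR J) {b : ℝ} (hb : 0 < b) (hb0 : va J.b0 ≤ b)
    (hb1 : b ≤ va J.b1) : ∃ δ, BC J b δ := by
  have h01 := hJ.va_b01
  have hlt := hJ.va_b1_lt
  refine ⟨(b - va J.b0) / (va J.b1 - va J.b0), hb, by linarith,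
    div_nonneg (by linarith) (by linarith), ?_, ?_⟩
  · rw [div_le_one (by linarith)]; linarith
  · have : va J.b1 - va J.b0 ≠ 0 := by linarith
    field_simp
    ring

theorem BC.le0 {J : TJ} {b δ : ℝ} (h : BC J b δ) (hJ : JR J) : va J.b0 ≤ b := by
  have h01 := hJ.va_b01
  have := mul_nonneg h.d0 (by linarith : 0 ≤ va J.b1 - va J.b0)
  rw [h.eq]; linarith

theorem BC.le1 {J : TJ} {b δ : ℝ} (h : BC J b δ) (hJ : JR J) : b ≤ va J.b1 := by
  have h01 := hJ.va_b01
  have := mul_nonneg (by linarith [h.d1] : 0 ≤ 1 - δ) (by linarith : 0 ≤ va J.b1 - va J.b0)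
  rw [h.eq]; linarith

/-! ### the row lines, for one value of `b` -/

/-- form 3 -/
theorem row3 {b y x g l : ℝ} (hb : 0 < b) (hb1 : b < 1) (hy : 0 ≤ y) (hx : 0 ≤ x)
    (hE : 0 < (1 + b * y) ^ 2 - 2 * (1 - b) * b * (b * x)) (hg0 : 0 ≤ g)
    (hg : g * (1 + b * y) ^ 2 ≤ 1) :
    -((b * y - 1 / 2 * Real.log ((1 + b * y) ^ 2 - 2 * (1 - b) * b * (b * x))) / b ^ 2) ≤
      18 * l ^ 2 + (12 * l ^ 2 * b - 6 * l) * y - (1 - b) * g * x := by
  have h := L3a (b := b) (b1 := b) (xi := (1 - b) / b) (X := b * x) (l := l) (g := g) hb le_rfl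
    hb1 hy (by positivity) hE hg0 hg (div_nonneg (by linarith) hb.le)
    (le_of_eq (by field_simp))
  have e : (1 - b) / b * g * (b * x) = (1 - b) * g * x := by field_simp
  rwa [e] at h

/-- form 4, `rt = 2` -/
theorem row4c {b y X g l : ℝ} (hb : 0 < b) (hb1 : b < 1) (hy : 0 ≤ y) (hX : 0 ≤ X)
    (hE : 0 < (1 + b * y) ^ 2 - 2 * (1 - b) * b * X) (hg0 : 0 ≤ g)
    (hg : g * (1 + b * y) ^ 2 ≤ 1) :
    1 / (2 * b) * Real.log ((1 + b * y) ^ 2 - 2 * (1 - b) * b * X) ≤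
      y + b * (18 * l ^ 2 + 12 * l ^ 2 * b * y - 6 * l * y) - (1 - b) * g * X := by
  have e0 : b * (X / b) = X := by field_simp
  have h := row3 (b := b) (y := y) (x := X / b) (g := g) (l := l) hb hb1 hy (by positivity)
    (by rw [e0]; exact hE) hg0 hg
  rw [e0] at h
  set Z := Real.log ((1 + b * y) ^ 2 - 2 * (1 - b) * b * X) with hZ
  have h2 := mul_le_mul_of_nonneg_left h hb.le
  have e1 : b * -((b * y - 1 / 2 * Z) / b ^ 2) = 1 / (2 * b) * Z - y := by
    field_simp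
    ring
  have e2 : b * (18 * l ^ 2 + (12 * l ^ 2 * b - 6 * l) * y - (1 - b) * g * (X / b)) =
      b * (18 * l ^ 2 + 12 * l ^ 2 * b * y - 6 * l * y) - (1 - b) * g * X := by
    field_simp
    ring
  rw [e1, e2] at h2
  linarith

/-- form 4, `rt = 0` -/
theorem row4a {b y X del L : ℝ} (hb : 0 < b) (hb1 : b < 1) (hX : 0 ≤ X)
    (hE : 0 < (1 + b * y) ^ 2 - 2 * (1 - b) * b * X) (hdel : 0 < del)
    (hL : -Real.log del ≤ L) :
    1 / (2 * b) * Real.log ((1 + b * y) ^ 2 - 2 * (1 - b) * b * X) ≤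
      (L - 1 + del) / b / 2 + del * y + del * b / 2 * y ^ 2 - del * (1 - b) * X := by
  have h := L3b (b := b) (b0 := b) (b1 := b) (be := 1 / b) (y := y) (X := X) hb le_rfl le_rfl
    hb1 (le_of_eq (by field_simp)) hX hE hdel hL
  refine h.trans (le_of_eq ?_)
  ring

/-- form 4, `rt = 1` -/
theorem row4b {b y X del L g : ℝ} (hb : 0 < b) (hb1 : b < 1) (hy : 0 ≤ y)
    (hX : 0 ≤ X) (hE : 0 < (1 + b * y) ^ 2 - 2 * (1 - b) * b * X) (hdel : 0 < del)
    (hL : -Real.log del ≤ L) (hg0 : 0 ≤ g) (hg : g * (1 + b * y) ^ 2 ≤ 1) :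
    1 / (2 * b) * Real.log ((1 + b * y) ^ 2 - 2 * (1 - b) * b * X) ≤
      (L - 1 + del) / b + del * y - (1 - b) * g * X := by
  have h := L3b' (b := b) (b0 := b) (b1 := b) (be := 1 / b) (y := y) (X := X) (g := g) hb
    le_rfl le_rfl hb1 (le_of_eq (by field_simp)) hy hX hE hdel hL hg0 hg
  refine h.trans (le_of_eq ?_)
  ring

/-- `1 / b` is convex -/
theorem inv_convex {b0 b1 δ : ℝ} (h0 : 0 < b0) (h1 : 0 < b1) (hd0 : 0 ≤ δ) (hd1 : δ ≤ 1) :
    1 / ((1 - δ) * b0 + δ * b1) ≤ (1 - δ) * (1 / b0) + δ * (1 / b1) := by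
  have hb : 0 < (1 - δ) * b0 + δ * b1 := by
    rcases hd0.eq_or_lt with h | h
    · rw [← h]; linarith
    · have := mul_pos h h1
      have := mul_nonneg (by linarith : 0 ≤ 1 - δ) h0.le
      linarith
  rw [div_le_iff₀ hb]
  have e : ((1 - δ) * (1 / b0) + δ * (1 / b1)) * ((1 - δ) * b0 + δ * b1) =
      1 + δ * (1 - δ) * ((b0 - b1) ^ 2 / (b0 * b1)) := by
    field_simp
    ring
  rw [e]
  have : 0 ≤ δ * (1 - δ) * ((b0 - b1) ^ 2 / (b0 * b1)) := by
    have : 0 ≤ 1 - δ := by linarith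
    positivity
  linarith

end Pool.Agent.Lib.MP_172a45_an.LT
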