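import Pool.Agent.Lib.MP_172a45_an.LT.Snd1

set_option autoImplicit false

/-!
# Soundness of the TC certificate checker, part 2: the row lines (helper58)
-/

namespace Pool.Agent.Lib.MP_172a45_an.LT

open Finset Real Pool.Agent.Lib.MP_172a45_an.F
open Pool.Agent.Lib.MP_172a45_an.LP (rk lk va va_nonneg va_zero va_S va_add va_nmul va_le va_lt
  va_pos va_sub va_sub_of_le lt_div_add_one div_le_cast va_div_up va_div_dn abs_dist rho
  mul_S_cast va_mul_div g_bound c_bound rk_pos neg_log_rk_le)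

/-- the value of the majorant `Y0 + (Y1 - 4) y` at `b` -/
noncomputable def Yi (n : Nd) (δ y : ℝ) : ℝ :=
  (1 - δ) * (va n.Y0a + (va n.Y1a - 4) * y) + δ * (va n.Y0b + (va n.Y1b - 4) * y)

/-- the value of a row line -/
noncomputable def RL (r0 r1p r1n r2 rX : ℕ) (y x : ℝ) : ℝ :=
  va r0 + va r1p * y - va r1n * y + va r2 * y ^ 2 - va rX * x

theorem node_sound {G al ep cX bba bbb r0a r1pa r1na r2a rXa r0b r1pb r1nb r2b rXb tau inf
    Y0a Y1a Y0b Y1b nu y0 y1 x0 xa xb : ℕ}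
    (ha0 : vt G al ep cX r0a r1pa r1na r2a rXa bba tau inf Y0a Y1a nu y0 x0 xa = true)
    (ha1 : vt G al ep cX r0a r1pa r1na r2a rXa bba tau inf Y0a Y1a nu y1 x0 xb = true)
    (hb0 : vt G al ep cX r0b r1pb r1nb r2b rXb bbb tau inf Y0b Y1b nu y0 x0 xa = true)
    (hb1 : vt G al ep cX r0b r1pb r1nb r2b rXb bbb tau inf Y0b Y1b nu y1 x0 xb = true)
    {y x δ : ℝ} (hd0 : 0 ≤ δ) (hd1 : δ ≤ 1)
    (hy0 : va y0 ≤ y) (hy1 : y ≤ va y1) (hx0 : va x0 ≤ x) (hT : Top inf y0 y1 xa xb y x) :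
    va G + va al * ((1 - va tau * (1 + y)) ^ 2 +
      2 * va tau * (((1 - δ) * va bba + δ * va bbb) * x)) +
      va ep * (1 + y) + va cX * x +
      va nu * ((1 - δ) * RL r0a r1pa r1na r2a rXa y x + δ * RL r0b r1pb r1nb r2b rXb y x) ≤
      (1 - δ) * (va Y0a + (va Y1a - 4) * y) + δ * (va Y0b + (va Y1b - 4) * y) := by
  have k0 := vt2_sound ha0 ha1 hy0 hy1 hx0 hT
  have k1 := vt2_sound hb0 hb1 hy0 hy1 hx0 hT
  have m0 := mul_le_mul_of_nonneg_left k0 (by linarith : 0 ≤ 1 - δ)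
  have m1 := mul_le_mul_of_nonneg_left k1 hd0
  unfold RL
  linarith

/-- the pointwise inequality at one end of a `τ`-cell -/
def Pt (J : TJ) (n : Nd) (G al cw : ℕ) (b δ y X τ w : ℝ) : Prop :=
  va G + va al * DD (1 + y) X τ + va cw * w +
    va n.nu * rho (Nat.beq J.form 3) b y X ≤ Yi n δ y

theorem ab_sound {J : TJ} {G al cw p q bba bbb r0a r1pa r1na r2a rXa r0b r1pb r1nb r2b rXb t0 t1
    inf : ℕ} {na nb : Nd} {y0 y1 x0 xa xb : ℕ}
    (ha : vta G al (2 * mu cw p) (mu cw q) r0a r1pa r1na r2a rXa bba t0 t1 inf na nb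
      y0 y1 x0 xa xb = true)
    (hb : vtb G al (2 * mu cw p) (mu cw q) r0b r1pb r1nb r2b rXb bbb t0 t1 inf na nb
      y0 y1 x0 xa xb = true)
    {b y X x δ : ℝ} (hd0 : 0 ≤ δ) (hd1 : δ ≤ 1) (hy00 : 0 ≤ y)
    (hy0 : va y0 ≤ y) (hy1 : y ≤ va y1) (hx0 : va x0 ≤ x) (hT : Top inf y0 y1 xa xb y x)
    (hX : X = ((1 - δ) * va bba + δ * va bbb) * x)
    (hR : rho (Nat.beq J.form 3) b y X ≤
      (1 - δ) * RL r0a r1pa r1na r2a rXa y x + δ * RL r0b r1pb r1nb r2b rXb y x) :
    Pt J na G al cw b δ y X (va t0) (2 * va p * (1 + y) + va q * x) ∧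
      Pt J nb G al cw b δ y X (va t1) (2 * va p * (1 + y) + va q * x) := by
  simp only [vta, Bool.and_eq_true] at ha
  simp only [vtb, Bool.and_eq_true] at hb
  obtain ⟨a1, a2, a3, a4⟩ := ha
  obtain ⟨b1, b2, b3, b4⟩ := hb
  have k0 := node_sound a1 a2 b1 b2 hd0 hd1 hy0 hy1 hx0 hT
  have k1 := node_sound a3 a4 b3 b4 hd0 hd1 hy0 hy1 hx0 hT
  have hxx : 0 ≤ x := (va_nonneg x0).trans hx0
  have h1 : va cw * (2 * va p * (1 + y) + va q * x) ≤
      va (2 * mu cw p) * (1 + y) + va (mu cw q) * x := by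
    have e1 := mul_le_mul_of_nonneg_right (va_mu cw p) (by linarith : 0 ≤ 2 * (1 + y))
    have e2 := mul_le_mul_of_nonneg_right (va_mu cw q) hxx
    rw [va_nmul]
    push_cast
    linarith
  rw [← hX] at k0 k1
  have h2 := mul_le_mul_of_nonneg_left hR (va_nonneg na.nu)
  have h3 := mul_le_mul_of_nonneg_left hR (va_nonneg nb.nu)
  unfold Pt Yi DD
  constructor
  · linarith
  · linarith

/-- the variable `x` -/
structure XV (J : TJ) (b X x : ℝ) : Prop where
  f3 : Nat.beq J.form 3 = true → X = b * x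
  f4 : Nat.beq J.form 3 = false → X = x

/-- the cases of `rowt` -/
theorem rowt_def {J : TJ} {G al cw p q l t0 t1 inf : ℕ} {na nb : Nd} {y0 y1 x0 xa xb : ℕ}
    (h : rowt J G al cw p q l t0 t1 inf na nb y0 y1 x0 xa xb = true) :
    ∃ g : ℕ, (∀ y : ℝ, 0 ≤ y → y ≤ va y1 → va g * (1 + va J.b1 * y) ^ 2 ≤ 1) ∧
    ((Nat.beq J.form 3 = true ∧ ∃ l3 : ℕ,
      vta G al (2 * mu cw p) (mu cw q) (mu (18 * l3) l3) (mu (12 * mu l3 l3) J.b0) (6 * l3) 0
        (md (16777216 - J.b0) g) J.b0 t0 t1 inf na nb y0 y1 x0 xa xb = true ∧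
      vtb G al (2 * mu cw p) (mu cw q) (mu (18 * l3) l3) (mu (12 * mu l3 l3) J.b1) (6 * l3) 0
        (md (16777216 - J.b1) g) J.b1 t0 t1 inf na nb y0 y1 x0 xa xb = true) ∨
     (Nat.beq J.form 3 = false ∧ ∃ k c : ℕ, k < 1024 ∧
      (va (lk k) - 8 - 1 + va (rk k) ≤ va c) ∧
      (vta G al (2 * mu cw p) (mu cw q) (mu c J.xi0 / 2 + 1) (rk k) 0 (mu (rk k) J.b0 / 2 + 1)
        (md (16777216 - J.b0) (rk k)) 16777216 t0 t1 inf na nb y0 y1 x0 xa xb = true ∧
      vtb G al (2 * mu cw p) (mu cw q) (mu c J.xi1 / 2 + 1) (rk k) 0 (mu (rk k) J.b1 / 2 + 1)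
        (md (16777216 - J.b1) (rk k)) 16777216 t0 t1 inf na nb y0 y1 x0 xa xb = true)) ∨
     (Nat.beq J.form 3 = false ∧ ∃ k c : ℕ, k < 1024 ∧
      (va (lk k) - 8 - 1 + va (rk k) ≤ va c) ∧
      (vta G al (2 * mu cw p) (mu cw q) (mu c J.xi0) (rk k) 0 0
        (md (16777216 - J.b0) g) 16777216 t0 t1 inf na nb y0 y1 x0 xa xb = true ∧
      vtb G al (2 * mu cw p) (mu cw q) (mu c J.xi1) (rk k) 0 0
        (md (16777216 - J.b1) g) 16777216 t0 t1 inf na nb y0 y1 x0 xa xb = true)) ∨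
     (Nat.beq J.form 3 = false ∧ ∃ l3 : ℕ,
      vta G al (2 * mu cw p) (mu cw q) (mu (mu (18 * l3) l3) J.b0)
        (16777216 + mu (mu (12 * mu l3 l3) J.b0) J.b0) (md (6 * l3) J.b0) 0
        (md (16777216 - J.b0) g) 16777216 t0 t1 inf na nb y0 y1 x0 xa xb = true ∧
      vtb G al (2 * mu cw p) (mu cw q) (mu (mu (18 * l3) l3) J.b1)
        (16777216 + mu (mu (12 * mu l3 l3) J.b1) J.b1) (md (6 * l3) J.b1) 0
        (md (16777216 - J.b1) g) 16777216 t0 t1 inf na nb y0 y1 x0 xa xb = true)) := by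
  refine ⟨4722366482869645213696 / ((16777216 + J.b1 * y1 / 16777216 + 1) *
      (16777216 + J.b1 * y1 / 16777216 + 1)), fun y h0 h1 => g_bound h0 h1, ?_⟩
  unfold rowt at h
  simp only [] at h
  cases hf : Nat.beq J.form 3
  · right
    rw [hf, cond_false] at h
    cases h0 : Nat.beq (l % 4) 0
    · rw [h0, cond_false] at h
      cases h1 : Nat.beq (l % 4) 1
      · rw [h1, cond_false] at h
        right; right
        simp only [Bool.and_eq_true] at h
        exact ⟨rfl, l / 4 * 128, h.1, h.2⟩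
      · rw [h1, cond_true] at h
        right; left
        simp only [Bool.and_eq_true, Nat.blt_eq] at h
        exact ⟨rfl, l / 4, lk (l / 4) + rk (l / 4) - 150994944, h.1, c_bound rfl, h.2.1, h.2.2⟩
    · rw [h0, cond_true] at h
      left
      simp only [Bool.and_eq_true, Nat.blt_eq] at h
      exact ⟨rfl, l / 4, lk (l / 4) + rk (l / 4) - 150994944, h.1, c_bound rfl, h.2.1, h.2.2⟩
  · left
    rw [hf, cond_true] at h
    simp only [Bool.and_eq_true] at h
    exact ⟨rfl, l * 128, h.1, h.2⟩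

theorem g_at {b b1 y g : ℝ} (hb : 0 < b) (hb1 : b ≤ b1) (hy : 0 ≤ y) (hg0 : 0 ≤ g)
    (hg : g * (1 + b1 * y) ^ 2 ≤ 1) : g * (1 + b * y) ^ 2 ≤ 1 := by
  have h1 : b * y ≤ b1 * y := mul_le_mul_of_nonneg_right hb1 hy
  have hby : 0 ≤ b * y := by positivity
  refine le_trans (mul_le_mul_of_nonneg_left ?_ hg0) hg
  exact pow_le_pow_left₀ (by linarith) (by linarith) 2

/-- soundness of `rowt` -/
theorem rowt_sound {J : TJ} (hJ : JR J) {G al cw p q l t0 t1 inf : ℕ} {na nb : Nd}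
    {y0 y1 x0 xa xb : ℕ}
    (h : rowt J G al cw p q l t0 t1 inf na nb y0 y1 x0 xa xb = true)
    {b δ y X x : ℝ} (hδ : BC J b δ) (hv : XV J b X x) (hy00 : 0 ≤ y)
    (hy0 : va y0 ≤ y) (hy1 : y ≤ va y1) (hx0 : va x0 ≤ x) (hT : Top inf y0 y1 xa xb y x)
    (hE : 0 < (1 + b * y) ^ 2 - 2 * (1 - b) * b * X) :
    Pt J na G al cw b δ y X (va t0) (2 * va p * (1 + y) + va q * x) ∧
      Pt J nb G al cw b δ y X (va t1) (2 * va p * (1 + y) + va q * x) := by
  obtain ⟨g, hg, h⟩ := rowt_def h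
  have hg := hg y hy00 hy1
  have hg0 := va_nonneg g
  have hb := hδ.b0
  have hb1 := hδ.b1
  have hd0 := hδ.d0
  have hd1 := hδ.d1
  have hd1' : 0 ≤ 1 - δ := by linarith
  have hgb := g_at hb (hδ.le1 hJ) hy00 hg0 hg
  have hxx : 0 ≤ x := (va_nonneg x0).trans hx0
  have m0 : va (md (16777216 - J.b0) g) ≤ (1 - va J.b0) * va g := by
    have := va_md (16777216 - J.b0) g
    rwa [hJ.va_b0] at this
  have m1 : va (md (16777216 - J.b1) g) ≤ (1 - va J.b1) * va g := by
    have := va_md (16777216 - J.b1) g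
    rwa [hJ.va_b1] at this
  have m0x := mul_le_mul_of_nonneg_right m0 hxx
  have m1x := mul_le_mul_of_nonneg_right m1 hxx
  have B0 := va_nonneg J.b0
  have B1 := va_nonneg J.b1
  rcases h with ⟨hf, l3, ha, hb'⟩ | ⟨hf, k, c, hk, hc, ha, hb'⟩ | ⟨hf, k, c, hk, hc, ha, hb'⟩ |
    ⟨hf, l3, ha, hb'⟩
  · -- form 3
    have hX := hv.f3 hf
    refine ab_sound ha hb' hd0 hd1 hy00 hy0 hy1 hx0 hT (by rw [← hδ.eq]; exact hX) ?_
    rw [hf, hX]
    rw [hX] at hE
    simp only [rho, cond_true]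
    have k3 := row3 (l := va l3) hb hb1 hy00 hxx hE hg0 hgb
    have e1 : 18 * va l3 ^ 2 ≤ va (mu (18 * l3) l3) := by
      have := va_mu (18 * l3) l3
      rw [va_nmul] at this
      push_cast at this
      calc 18 * va l3 ^ 2 = 18 * va l3 * va l3 := by ring
        _ ≤ _ := this
    have e12 : 12 * va l3 ^ 2 ≤ va (12 * mu l3 l3) := by
      rw [va_nmul]
      have := va_mu l3 l3
      push_cast
      rw [sq]
      linarith
    have e2 : 12 * va l3 ^ 2 * va J.b0 ≤ va (mu (12 * mu l3 l3) J.b0) :=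
      va_mu_le e12 le_rfl B0
    have e3 : 12 * va l3 ^ 2 * va J.b1 ≤ va (mu (12 * mu l3 l3) J.b1) :=
      va_mu_le e12 le_rfl B1
    have e2y := mul_le_mul_of_nonneg_right e2 hy00
    have e3y := mul_le_mul_of_nonneg_right e3 hy00
    have e6 : va (6 * l3) = 6 * va l3 := by rw [va_nmul]; norm_num
    have ra : 18 * va l3 ^ 2 + (12 * va l3 ^ 2 * va J.b0 - 6 * va l3) * y -
        (1 - va J.b0) * va g * x ≤ RL (mu (18 * l3) l3) (mu (12 * mu l3 l3) J.b0) (6 * l3) 0
        (md (16777216 - J.b0) g) y x := by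
      unfold RL
      rw [va_zero, e6]
      linarith
    have rb : 18 * va l3 ^ 2 + (12 * va l3 ^ 2 * va J.b1 - 6 * va l3) * y -
        (1 - va J.b1) * va g * x ≤ RL (mu (18 * l3) l3) (mu (12 * mu l3 l3) J.b1) (6 * l3) 0
        (md (16777216 - J.b1) g) y x := by
      unfold RL
      rw [va_zero, e6]
      linarith
    have ra' := mul_le_mul_of_nonneg_left ra hd1'
    have rb' := mul_le_mul_of_nonneg_left rb hd0
    have e : 18 * va l3 ^ 2 + (12 * va l3 ^ 2 * b - 6 * va l3) * y - (1 - b) * va g * x =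
        (1 - δ) * (18 * va l3 ^ 2 + (12 * va l3 ^ 2 * va J.b0 - 6 * va l3) * y -
        (1 - va J.b0) * va g * x) + δ * (18 * va l3 ^ 2 +
        (12 * va l3 ^ 2 * va J.b1 - 6 * va l3) * y - (1 - va J.b1) * va g * x) := by
      rw [hδ.eq]; ring
    rw [e] at k3
    linarith
  · -- form 4, rt = 0
    have hX := hv.f4 hf
    have e1 : (1 - δ) * va 16777216 + δ * va 16777216 = 1 := by rw [va_S]; ring
    refine ab_sound ha hb' hd0 hd1 hy00 hy0 hy1 hx0 hT (by rw [e1, one_mul]; exact hX) ?_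
    rw [hf, hX]
    rw [hX] at hE
    simp only [rho, cond_false]
    have hL : -Real.log (va (rk k)) ≤ va (lk k) - 8 := neg_log_rk_le hk
    have hde0 : 0 < va (rk k) := va_pos (rk_pos hk)
    have hL1 : 0 ≤ va (lk k) - 8 - 1 + va (rk k) := by
      have := Real.log_le_sub_one_of_pos hde0
      linarith
    have hb00 : 0 < va J.b0 := va_pos (hJ.b00 hf)
    have hb11 : 0 < va J.b1 := hb00.trans hJ.va_b01
    have hxi0 := hJ.xi0' (hJ.b00 hf)
    have hxi1 := hJ.xi1' hf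
    have k3 := row4a (y := y) (del := va (rk k)) hb hb1 hxx hE hde0 hL
    obtain ⟨C, hC⟩ : ∃ C, C = va (lk k) - 8 - 1 + va (rk k) := ⟨_, rfl⟩
    rw [← hC] at k3 hc hL1
    have i0 : 1 / va J.b0 ≤ va J.xi0 := by rwa [div_le_iff₀ hb00]
    have i1 : 1 / va J.b1 ≤ va J.xi1 := by rwa [div_le_iff₀ hb11]
    have c0 : C * (1 / va J.b0) ≤ va (mu c J.xi0) := va_mu_le hc i0 (by positivity)
    have c1 : C * (1 / va J.b1) ≤ va (mu c J.xi1) := va_mu_le hc i1 (by positivity)
    have c0' := va_div_up (mu c J.xi0) 2 (by norm_num)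
    have c1' := va_div_up (mu c J.xi1) 2 (by norm_num)
    have d0 := va_div_up (mu (rk k) J.b0) 2 (by norm_num)
    have d1 := va_div_up (mu (rk k) J.b1) 2 (by norm_num)
    have d0' := va_mu (rk k) J.b0
    have d1' := va_mu (rk k) J.b1
    push_cast at c0' c1' d0 d1
    have y2 := sq_nonneg y
    have f0 : va (rk k) * va J.b0 / 2 * y ^ 2 ≤ va (mu (rk k) J.b0 / 2 + 1) * y ^ 2 :=
      mul_le_mul_of_nonneg_right (by linarith) y2
    have f1 : va (rk k) * va J.b1 / 2 * y ^ 2 ≤ va (mu (rk k) J.b1 / 2 + 1) * y ^ 2 :=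
      mul_le_mul_of_nonneg_right (by linarith) y2
    have n0 : va (md (16777216 - J.b0) (rk k)) ≤ (1 - va J.b0) * va (rk k) := by
      have := va_md (16777216 - J.b0) (rk k)
      rwa [hJ.va_b0] at this
    have n1 : va (md (16777216 - J.b1) (rk k)) ≤ (1 - va J.b1) * va (rk k) := by
      have := va_md (16777216 - J.b1) (rk k)
      rwa [hJ.va_b1] at this
    have n0x := mul_le_mul_of_nonneg_right n0 hxx
    have n1x := mul_le_mul_of_nonneg_right n1 hxx
    have ra : C * (1 / va J.b0) / 2 + va (rk k) * y + va (rk k) * va J.b0 / 2 * y ^ 2 -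
        va (rk k) * (1 - va J.b0) * x ≤ RL (mu c J.xi0 / 2 + 1) (rk k) 0
        (mu (rk k) J.b0 / 2 + 1) (md (16777216 - J.b0) (rk k)) y x := by
      unfold RL
      rw [va_zero]
      linarith
    have rb : C * (1 / va J.b1) / 2 + va (rk k) * y + va (rk k) * va J.b1 / 2 * y ^ 2 -
        va (rk k) * (1 - va J.b1) * x ≤ RL (mu c J.xi1 / 2 + 1) (rk k) 0
        (mu (rk k) J.b1 / 2 + 1) (md (16777216 - J.b1) (rk k)) y x := by
      unfold RL
      rw [va_zero]
      linarith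
    have ra' := mul_le_mul_of_nonneg_left ra hd1'
    have rb' := mul_le_mul_of_nonneg_left rb hd0
    have hinv := inv_convex hb00 hb11 hd0 hd1
    rw [← hδ.eq] at hinv
    have hinv' := mul_le_mul_of_nonneg_left hinv hL1
    have e : va (rk k) * y + va (rk k) * b / 2 * y ^ 2 - va (rk k) * (1 - b) * x =
        (1 - δ) * (va (rk k) * y + va (rk k) * va J.b0 / 2 * y ^ 2 -
        va (rk k) * (1 - va J.b0) * x) + δ * (va (rk k) * y + va (rk k) * va J.b1 / 2 * y ^ 2 -
        va (rk k) * (1 - va J.b1) * x) := by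
      rw [hδ.eq]; ring
    have e5 : C / b / 2 = C * (1 / b) / 2 := by ring
    rw [e5] at k3
    linarith
  · -- form 4, rt = 1
    have hX := hv.f4 hf
    have e1 : (1 - δ) * va 16777216 + δ * va 16777216 = 1 := by rw [va_S]; ring
    refine ab_sound ha hb' hd0 hd1 hy00 hy0 hy1 hx0 hT (by rw [e1, one_mul]; exact hX) ?_
    rw [hf, hX]
    rw [hX] at hE
    simp only [rho, cond_false]
    have hL : -Real.log (va (rk k)) ≤ va (lk k) - 8 := neg_log_rk_le hk
    have hde0 : 0 < va (rk k) := va_pos (rk_pos hk)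
    have hL1 : 0 ≤ va (lk k) - 8 - 1 + va (rk k) := by
      have := Real.log_le_sub_one_of_pos hde0
      linarith
    have hb00 : 0 < va J.b0 := va_pos (hJ.b00 hf)
    have hb11 : 0 < va J.b1 := hb00.trans hJ.va_b01
    have hxi0 := hJ.xi0' (hJ.b00 hf)
    have hxi1 := hJ.xi1' hf
    have k3 := row4b (y := y) (del := va (rk k)) hb hb1 hy00 hxx hE hde0 hL hg0 hgb
    obtain ⟨C, hC⟩ : ∃ C, C = va (lk k) - 8 - 1 + va (rk k) := ⟨_, rfl⟩
    rw [← hC] at k3 hc hL1
    have i0 : 1 / va J.b0 ≤ va J.xi0 := by rwa [div_le_iff₀ hb00]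
    have i1 : 1 / va J.b1 ≤ va J.xi1 := by rwa [div_le_iff₀ hb11]
    have c0 : C * (1 / va J.b0) ≤ va (mu c J.xi0) := va_mu_le hc i0 (by positivity)
    have c1 : C * (1 / va J.b1) ≤ va (mu c J.xi1) := va_mu_le hc i1 (by positivity)
    have ra : C * (1 / va J.b0) + va (rk k) * y - (1 - va J.b0) * va g * x ≤
        RL (mu c J.xi0) (rk k) 0 0 (md (16777216 - J.b0) g) y x := by
      unfold RL
      rw [va_zero]
      linarith
    have rb : C * (1 / va J.b1) + va (rk k) * y - (1 - va J.b1) * va g * x ≤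
        RL (mu c J.xi1) (rk k) 0 0 (md (16777216 - J.b1) g) y x := by
      unfold RL
      rw [va_zero]
      linarith
    have ra' := mul_le_mul_of_nonneg_left ra hd1'
    have rb' := mul_le_mul_of_nonneg_left rb hd0
    have hinv := inv_convex hb00 hb11 hd0 hd1
    rw [← hδ.eq] at hinv
    have hinv' := mul_le_mul_of_nonneg_left hinv hL1
    have e : va (rk k) * y - (1 - b) * va g * x =
        (1 - δ) * (va (rk k) * y - (1 - va J.b0) * va g * x) +
        δ * (va (rk k) * y - (1 - va J.b1) * va g * x) := by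
      rw [hδ.eq]; ring
    have e5 : C / b = C * (1 / b) := by ring
    rw [e5] at k3
    linarith
  · -- form 4, rt = 2
    have hX := hv.f4 hf
    have e1 : (1 - δ) * va 16777216 + δ * va 16777216 = 1 := by rw [va_S]; ring
    refine ab_sound ha hb' hd0 hd1 hy00 hy0 hy1 hx0 hT (by rw [e1, one_mul]; exact hX) ?_
    rw [hf, hX]
    rw [hX] at hE
    simp only [rho, cond_false]
    have k3 := row4c (l := va l3) hb hb1 hy00 hxx hE hg0 hgb
    have e18 : 18 * va l3 ^ 2 ≤ va (mu (18 * l3) l3) := by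
      have := va_mu (18 * l3) l3
      rw [va_nmul] at this
      push_cast at this
      calc 18 * va l3 ^ 2 = 18 * va l3 * va l3 := by ring
        _ ≤ _ := this
    have e12 : 12 * va l3 ^ 2 ≤ va (12 * mu l3 l3) := by
      rw [va_nmul]
      have := va_mu l3 l3
      push_cast
      rw [sq]
      linarith
    have L0 := va_nonneg l3
    have line : ∀ b' : ℕ, va (md (16777216 - b') g) ≤ (1 - va b') * va g →
        y + va b' * (18 * va l3 ^ 2 + 12 * va l3 ^ 2 * va b' * y - 6 * va l3 * y) -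
        (1 - va b') * va g * x ≤ RL (mu (mu (18 * l3) l3) b')
        (16777216 + mu (mu (12 * mu l3 l3) b') b') (md (6 * l3) b') 0
        (md (16777216 - b') g) y x := by
      intro b' hm
      have hmx := mul_le_mul_of_nonneg_right hm hxx
      have B := va_nonneg b'
      have s1 : 18 * va l3 ^ 2 * va b' ≤ va (mu (mu (18 * l3) l3) b') := va_mu_le e18 le_rfl B
      have s2 : 12 * va l3 ^ 2 * va b' ≤ va (mu (12 * mu l3 l3) b') := va_mu_le e12 le_rfl B
      have s3 : 12 * va l3 ^ 2 * va b' * va b' ≤ va (mu (mu (12 * mu l3 l3) b') b') :=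
        va_mu_le s2 le_rfl B
      have s4 : va (md (6 * l3) b') ≤ 6 * va l3 * va b' := by
        have := va_md (6 * l3) b'
        rw [va_nmul] at this
        push_cast at this
        exact this
      have s3y := mul_le_mul_of_nonneg_right s3 hy00
      have s4y := mul_le_mul_of_nonneg_right s4 hy00
      unfold RL
      rw [va_zero, va_add, va_S]
      linarith
    have ra' := mul_le_mul_of_nonneg_left (line J.b0 m0) hd1'
    have rb' := mul_le_mul_of_nonneg_left (line J.b1 m1) hd0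
    have e : (1 - δ) * (y + va J.b0 * (18 * va l3 ^ 2 + 12 * va l3 ^ 2 * va J.b0 * y -
        6 * va l3 * y) - (1 - va J.b0) * va g * x) +
        δ * (y + va J.b1 * (18 * va l3 ^ 2 + 12 * va l3 ^ 2 * va J.b1 * y -
        6 * va l3 * y) - (1 - va J.b1) * va g * x) -
        (y + b * (18 * va l3 ^ 2 + 12 * va l3 ^ 2 * b * y - 6 * va l3 * y) -
        (1 - b) * va g * x) =
        12 * va l3 ^ 2 * y * (δ * (1 - δ) * (va J.b0 - va J.b1) ^ 2) := by
      rw [hδ.eq]; ring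
    have e5 : 0 ≤ 12 * va l3 ^ 2 * y * (δ * (1 - δ) * (va J.b0 - va J.b1) ^ 2) := by positivity
    linarith

end Pool.Agent.Lib.MP_172a45_an.LT
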