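import Pool.Agent.Lib.MP_172a45_an.LP.Sound5
import Pool.Agent.Lib.MP_172a45_an.LT.Snd1

set_option autoImplicit false

/-!
# Soundness of the TC certificate checker: format independent parts (helper58)

The three lines for `Psi (A, w)` with a general `w`, the extended table, the interpolation in `τ`.
-/

namespace Pool.Agent.Lib.MP_172a45_an.LT

open Finset Real Pool.Agent.Lib.MP_172a45_an.F
open Pool.Agent.Lib.MP_172a45_an.LP (rk lk va va_nonneg va_zero va_S va_add va_nmul va_le va_lt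
  va_pos va_sub va_sub_of_le lt_div_add_one div_le_cast va_div_up va_div_dn abs_dist rho
  mul_S_cast va_mul_div g_bound c_bound rk_pos neg_log_rk_le)

/-! ### the three lines -/

/-- type 1 -/
theorem type1 {r lkk w0 w1 m om rm v rmu G al cw : ℕ} {A w : ℝ}
    (hr : 0 < va r) (hL : -Real.log (va r) ≤ va lkk - 8)
    (hom : va w1 * va r ≤ va om) (hrm : va rm ≤ va m * va r) (hv : va v ≤ va rm ^ 2)
    (hrmu : va m * va r ≤ va rmu)
    (h : 5 * om ≤ 33554432 ∨ (3 * om ≤ 33554432 ∧ om ≤ rm ∧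
      om * 16777216 ≤ (16777216 - om) * (v + rm)))
    (hG : va lkk + va rmu ^ 2 * (va w0 * va r) / 2 - 1 / 2 ≤ va G)
    (hal : 1 / 2 * va r ^ 2 * (1 - va w0 * va r) ≤ va al)
    (hcw : va r * ((3 - va v) / 2) ≤ va cw)
    (hw : 0 < w) (hw0 : va w0 ≤ w) (hw1 : w ≤ va w1) (hmA : va m ≤ A) :
    Psi A w ≤ va G - 8 + va cw * w + va al * A ^ 2 := by
  have hA : 0 ≤ A := (va_nonneg m).trans hmA
  have hwr : w * va r ≤ va om := (mul_le_mul_of_nonneg_right hw1 hr.le).trans hom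
  have h1 := L1a' (A := A) (rm := va rm) (m := va m) hr hw hA (va_nonneg _)
    (hrm.trans (mul_le_mul_of_nonneg_right hmA hr.le)) (LP.om_cond h hv hwr) hw0 (va_nonneg _) hmA
  have h2 : va rm ^ 2 ≤ (va m * va r) ^ 2 := pow_le_pow_left₀ (va_nonneg _) hrm 2
  have h3 : (va m * va r) ^ 2 ≤ va rmu ^ 2 :=
    pow_le_pow_left₀ (mul_nonneg (va_nonneg _) hr.le) hrmu 2
  have h4 : va v ≤ (va m * va r) ^ 2 := hv.trans h2
  have e1 : 1 / 2 * va r ^ 3 * (w - va w0) * va m ^ 2 =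
      1 / 2 * va r * w * (va m * va r) ^ 2 - 1 / 2 * (va w0 * va r) * (va m * va r) ^ 2 := by ring
  have h5 : 1 / 2 * va r * w * va v ≤ 1 / 2 * va r * w * (va m * va r) ^ 2 :=
    mul_le_mul_of_nonneg_left h4 (by positivity)
  have h6 : 1 / 2 * (va w0 * va r) * (va m * va r) ^ 2 ≤
      1 / 2 * (va w0 * va r) * va rmu ^ 2 :=
    mul_le_mul_of_nonneg_left h3 (by have := va_nonneg w0; positivity)
  have h7 := mul_le_mul_of_nonneg_right hal (sq_nonneg A)
  have h8 : va r * ((3 - va v) / 2) * w ≤ va cw * w :=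
    mul_le_mul_of_nonneg_right hcw hw.le
  linarith

/-- type 2 -/
theorem type2 {r lkk w0 al : ℕ} {A w : ℝ}
    (hr : 0 < va r) (hL : -Real.log (va r) ≤ va lkk - 8) (hw00 : 0 < w0)
    (hal : 51 / 1000 / va w0 ^ 2 ≤ va al) (hw0 : va w0 ≤ w) (hA : 0 ≤ A) :
    Psi A w ≤ va lkk - 8 + va r * w + va al * A ^ 2 := by
  have hw0p : 0 < va w0 := va_pos hw00
  have hwp : 0 < w := hw0p.trans_le hw0
  have h1 := L1b hwp hA
  have h2 := log_le_del hwp hr hL
  have h5 : 51 / 1000 * (A ^ 2 / w ^ 2) ≤ va al * A ^ 2 := by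
    have h6 : (va w0) ^ 2 ≤ w ^ 2 := pow_le_pow_left₀ hw0p.le hw0 2
    have h7 : A ^ 2 / w ^ 2 ≤ A ^ 2 / va w0 ^ 2 :=
      div_le_div_of_nonneg_left (sq_nonneg A) (by positivity) h6
    have h8 := mul_le_mul_of_nonneg_right hal (sq_nonneg A)
    have e : 51 / 1000 / va w0 ^ 2 * A ^ 2 = 51 / 1000 * (A ^ 2 / va w0 ^ 2) := by ring
    linarith
  linarith

/-- type 3 -/
theorem type3 {r lkk w0 m G al cw : ℕ} {A w : ℝ}
    (hr : 0 < va r) (hL : -Real.log (va r) ≤ va lkk - 8) (hw00 : 0 < w0) (hm00 : 0 < m)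
    (hG : va lkk + va m * va r - 1 - va al * va m ^ 2 ≤ va G)
    (hal : 2 / 27 / va w0 ^ 2 ≤ va al) (hcw : 1 / va m ≤ va cw)
    (hw0 : va w0 ≤ w) (hmA : va m ≤ A) :
    Psi A w ≤ va G - 8 + va cw * w + va al * A ^ 2 := by
  have hw0p : 0 < va w0 := va_pos hw00
  have hmp : 0 < va m := va_pos hm00
  have hwp : 0 < w := hw0p.trans_le hw0
  have h1 : 2 / 27 ≤ va al * w ^ 2 := by
    have h6 : (va w0) ^ 2 ≤ w ^ 2 := pow_le_pow_left₀ hw0p.le hw0 2
    rw [div_le_iff₀ (by positivity)] at hal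
    exact hal.trans (mul_le_mul_of_nonneg_left h6 (va_nonneg _))
  have h2 := L1c hwp hmp hmA h1
  have h3 := log_le_del hmp hr hL
  have h4 : w / va m ≤ va cw * w := by
    have := mul_le_mul_of_nonneg_right hcw hwp.le
    have e : 1 / va m * w = w / va m := by ring
    linarith
  linarith

theorem hcw1 {r v : ℕ} : va r * ((3 - va v) / 2) ≤ va (mu r ((50331648 - v) / 2 + 1)) := by
  have h1 := va_div_up (50331648 - v) 2 (by norm_num)
  have h2 := va_sub 50331648 v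
  have h3 : va 50331648 = 3 := by norm_num [va]
  push_cast at h1
  have h4 : (3 - va v) / 2 ≤ va ((50331648 - v) / 2 + 1) := by linarith
  exact (mul_le_mul_of_nonneg_left h4 (va_nonneg _)).trans (va_mu _ _)

theorem hcw3 {m : ℕ} (h : 0 < m) : 1 / va m ≤ va (281474976710656 / m + 1) := by
  have hm : (0 : ℝ) < m := by exact_mod_cast h
  have h1 := lt_div_add_one 281474976710656 m h
  have e : 1 / va m = (((281474976710656 : ℕ) : ℝ) / (m : ℝ)) / 16777216 := by
    unfold va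
    push_cast
    field_simp
    norm_num
  rw [e]
  exact div_le_div_of_nonneg_right h1 (by norm_num)

/-! ### the table -/

/-- `log 2 / 64` -/
noncomputable def cc : ℝ := Real.log 2 / 64

theorem lk_ge' {k : ℕ} (hk' : k < 4096) : 8 + ((k : ℝ) - 512) * cc ≤ va (lk k) := by
  have h1 := Real.log_two_gt_d9
  have h2 := Real.log_two_lt_d9
  have h3 : (k : ℝ) * 11908177888 / 65536 - 1 + 41185090 ≤ (lk k : ℝ) := by
    unfold lk
    have h4 := Nat.lt_div_mul_add (a := k * 11908177888) (b := 65536) (by norm_num)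
    have h5 : ((k * 11908177888 : ℕ) : ℝ) <
        ((k * 11908177888 / 65536 : ℕ) : ℝ) * 65536 + 65536 := by exact_mod_cast h4
    push_cast at h5 ⊢
    linarith
  unfold va cc
  rw [le_div_iff₀ (by norm_num)]
  have hk : (0 : ℝ) ≤ k := Nat.cast_nonneg k
  have hk2 : (k : ℝ) ≤ 4095 := by exact_mod_cast Nat.lt_succ_iff.1 hk'
  rcases le_total (512 : ℝ) k with h5 | h5
  · have h6 := mul_le_mul_of_nonneg_left h2.le (sub_nonneg.2 h5)
    linarith
  · have h6 := mul_le_mul_of_nonneg_left h1.le (sub_nonneg.2 h5)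
    linarith

theorem exp_le_rg (k : ℕ) : Real.exp (-(((k : ℝ) - 512) * cc)) ≤ va (rg k) := by
  have hlog2 : 0 < Real.log 2 := Real.log_pos (by norm_num)
  have hj : k % 64 < 64 := Nat.mod_lt _ (by norm_num)
  have hk : 512 + k % 64 < 1024 := by omega
  have h1 := LP.neg_log_rk hk
  have hp : 0 < va (rk (512 + k % 64)) := va_pos (rk_pos hk)
  have h2 : -Real.log (va (rk (512 + k % 64))) ≤ (((k % 64 : ℕ) : ℝ)) * cc := by
    refine h1.trans (le_of_eq ?_)
    unfold cc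
    push_cast
    ring
  have h3 : Real.exp (-(((k % 64 : ℕ) : ℝ) * cc)) ≤ va (rk (512 + k % 64)) := by
    rw [← Real.le_log_iff_exp_le hp]; linarith
  have h4 : (k : ℝ) = 64 * ((k / 64 : ℕ) : ℝ) + ((k % 64 : ℕ) : ℝ) := by
    have := Nat.div_add_mod k 64
    exact_mod_cast this.symm
  have h5 : -(((k : ℝ) - 512) * cc) = 8 * Real.log 2 + -(((k / 64 : ℕ) : ℝ) * Real.log 2) +
      -(((k % 64 : ℕ) : ℝ) * cc) := by
    rw [h4]; unfold cc; ring
  have h6 : Real.exp (8 * Real.log 2) = 256 := by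
    rw [show (8 : ℝ) * Real.log 2 = Real.log (2 ^ 8) by rw [Real.log_pow]; norm_num,
      Real.exp_log (by norm_num)]
    norm_num
  have h7 : Real.exp (-(((k / 64 : ℕ) : ℝ) * Real.log 2)) = 1 / 2 ^ (k / 64) := by
    rw [Real.exp_neg, show (((k / 64 : ℕ) : ℝ) * Real.log 2) = Real.log (2 ^ (k / 64)) by
      rw [Real.log_pow], Real.exp_log (by positivity), one_div]
  rw [h5, Real.exp_add, Real.exp_add, h6, h7]
  unfold rg
  have h8 := lt_div_add_one (rk (512 + k % 64) * 256) (2 ^ (k / 64)) (by positivity)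
  have h9 := div_le_div_of_nonneg_right h8 (by norm_num : (0:ℝ) ≤ 16777216)
  refine le_trans ?_ h9
  have e : ((rk (512 + k % 64) * 256 : ℕ) : ℝ) / ((2 ^ (k / 64) : ℕ) : ℝ) / 16777216 =
      256 * (1 / 2 ^ (k / 64)) * va (rk (512 + k % 64)) := by
    unfold va
    push_cast
    ring
  rw [e]
  exact mul_le_mul_of_nonneg_left h3 (by positivity)

theorem exp_le_rg' {k : ℕ} {v : ℝ} (hv : v ≤ -(((k : ℝ) - 512) * cc)) :
    Real.exp v ≤ va (rg k) := (Real.exp_le_exp.2 hv).trans (exp_le_rg k)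

theorem rg_pos (k : ℕ) : 0 < rg k := Nat.succ_pos _

theorem cc_pos : 0 < cc := by
  unfold cc
  have := Real.log_pos (by norm_num : (1:ℝ) < 2)
  positivity

/-- interpolated nodes -/
theorem exp_interp {ka kb p q : ℕ} (hpq : p + q = 4) {La Lb : ℝ}
    (hLa : La ≤ -(((ka : ℝ) - 512) * cc)) (hLb : Lb ≤ -(((kb : ℝ) - 512) * cc)) :
    Real.exp ((p * La + q * Lb) / 4) ≤ va (rg ((ka * p + kb * q) / 4)) := by
  refine exp_le_rg' ?_
  have hc := cc_pos
  have h5 := mul_le_mul_of_nonneg_left hLa (Nat.cast_nonneg (α := ℝ) p)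
  have h6 := mul_le_mul_of_nonneg_left hLb (Nat.cast_nonneg (α := ℝ) q)
  have h7 : (p : ℝ) + q = 4 := by exact_mod_cast hpq
  have h8 : (4 : ℝ) * (((ka * p + kb * q) / 4 : ℕ) : ℝ) ≤ ka * p + kb * q := by
    have := Nat.mul_div_le (ka * p + kb * q) 4
    exact_mod_cast this
  have h9 := mul_le_mul_of_nonneg_right h8 hc.le
  have h10 : (p : ℝ) * (512 * cc) + q * (512 * cc) = 4 * (512 * cc) := by rw [← add_mul, h7]
  linarith

theorem exp_neg_two_le : Real.exp (-2) ≤ 13534 / 100000 := by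
  have e : Real.exp (-2) = Real.exp (-1) * Real.exp (-1) := by
    rw [← Real.exp_add]; norm_num
  have h1 : Real.exp (-1) ≤ (2.7182818283 : ℝ)⁻¹ := by
    rw [Real.exp_neg]
    exact inv_anti₀ (by norm_num) Real.exp_one_gt_d9.le
  have h0 := Real.exp_pos (-1 : ℝ)
  rw [e]
  calc Real.exp (-1) * Real.exp (-1) ≤ (2.7182818283 : ℝ)⁻¹ * (2.7182818283 : ℝ)⁻¹ :=
        mul_le_mul h1 h1 h0.le (by norm_num)
    _ ≤ _ := by norm_num

/-- the integral over one `τ`-cell -/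
theorem cell_int {f : ℝ → ℝ} (hf : Continuous f) {t0 t1 c La Lb : ℝ} {ka kb : ℕ}
    (ht0 : 0 ≤ t0) (h01 : t0 < t1) (hc : 0 ≤ c)
    (hV : ∀ τ, t0 ≤ τ → τ ≤ t1 →
      f τ ≤ τ * (c * Real.exp ((t1 - τ) / (t1 - t0) * La + (τ - t0) / (t1 - t0) * Lb)))
    (hLa : La ≤ -(((ka : ℝ) - 512) * cc)) (hLb : Lb ≤ -(((kb : ℝ) - 512) * cc)) :
    ∫ τ in t0..t1, f τ ≤ c * ((t1 - t0) / 96 * ((11 * t0 + t1) * va (rg ka) +
      6 * ((3 * t0 + t1) * va (rg ((ka * 3 + kb) / 4))) +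
      12 * ((t0 + t1) * va (rg ((ka * 2 + kb * 2) / 4))) +
      6 * ((t0 + 3 * t1) * va (rg ((ka + kb * 3) / 4))) + (t0 + 11 * t1) * va (rg kb))) := by
  refine LP.four_pieces hf ht0 h01 hc hV (exp_le_rg' hLa) ?_ ?_ ?_ (exp_le_rg' hLb)
  · have := exp_interp (p := 3) (q := 1) rfl hLa hLb
    simpa using this
  · have := exp_interp (p := 2) (q := 2) rfl hLa hLb
    simpa using this
  · have := exp_interp (p := 1) (q := 3) rfl hLa hLb
    simpa using this

end Pool.Agent.Lib.MP_172a45_an.LT
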