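import Pool.Agent.Lib.MP_172a45_an.LT.Snd2
import Pool.Agent.Lib.MP_172a45_an.LT.SndA

set_option autoImplicit false

/-!
# Soundness of the TC certificate checker, part 3: cells, columns (helper58)
-/

namespace Pool.Agent.Lib.MP_172a45_an.LT

open Finset Real Pool.Agent.Lib.MP_172a45_an.F
open Pool.Agent.Lib.MP_172a45_an.LP (rk lk va va_nonneg va_zero va_S va_add va_nmul va_le va_lt
  va_pos va_sub va_sub_of_le lt_div_add_one div_le_cast va_div_up va_div_dn abs_dist rho
  mul_S_cast va_mul_div g_bound c_bound rk_pos neg_log_rk_le)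

/-- `Psi` is monotone in `w` -/
theorem Psi_mono {A w w' : ℝ} (hw : 0 < w) (h : w ≤ w') : Psi A w ≤ Psi A w' := by
  unfold Psi
  rcases le_total w' A with h1 | h1
  · rw [max_eq_left h1, max_eq_left (h.trans h1)]
    have hA : 0 < A := hw.trans_le (h.trans h1)
    have := div_le_div_of_nonneg_right h hA.le
    linarith
  · have hw' : 0 < w' := hw.trans_le h
    rw [max_eq_right h1, div_self hw'.ne']
    have hm : 0 < max A w := lt_of_lt_of_le hw (le_max_right _ _)
    have h2 : w / max A w ≤ 1 := by rw [div_le_one hm]; exact le_max_right _ _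
    have h3 : Real.log (max A w) ≤ Real.log w' := Real.log_le_log hm (max_le h1 h)
    linarith

/-! ### the lower bound of `A` -/

/-- the lower bound of `|1 - τ T|` on the cell -/
def mmT (t0 t1 y0 y1 : ℕ) : ℕ :=
  (16777216 - mu t1 (16777216 + y1)) + (md t0 (16777216 + y0) - 16777216)

theorem mmT_le {t0 t1 y0 y1 : ℕ} {y X τ : ℝ} (hy0 : va y0 ≤ y) (hy1 : y ≤ va y1)
    (hX0 : 0 ≤ X) (h0 : va t0 ≤ τ) (h1 : τ ≤ va t1) : va (mmT t0 t1 y0 y1) ≤ AA y X τ :=
  LP.m_le hy0 hy1 hX0 h0 h1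

theorem m_le {t0 t1 y0 y1 mK X0 : ℕ} {y X τ : ℝ} (hy0 : va y0 ≤ y) (hy1 : y ≤ va y1)
    (hX0 : va X0 ≤ X) (h0 : va t0 ≤ τ) (h1 : τ ≤ va t1)
    (hK : mK * mK ≤ mmT t0 t1 y0 y1 * mmT t0 t1 y0 y1 + 2 * (t0 * X0)) :
    va mK ≤ AA y X τ := by
  have hτ : 0 ≤ τ := (va_nonneg _).trans h0
  have hX : 0 ≤ X := (va_nonneg _).trans hX0
  have k1 := mmT_le hy0 hy1 le_rfl h0 h1
  have k2 : AA y 0 τ ^ 2 = (1 - τ * (1 + y)) ^ 2 := by
    rw [LP.AA_sq le_rfl hτ]; unfold DD; ring
  have k3 : AA y X τ ^ 2 = (1 - τ * (1 + y)) ^ 2 + 2 * τ * X := by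
    rw [LP.AA_sq hX hτ]; rfl
  have k4 : va mK ^ 2 ≤ va (mmT t0 t1 y0 y1) ^ 2 + 2 * (va t0 * va X0) := by
    have h2 : ((mK * mK : ℕ) : ℝ) ≤
        ((mmT t0 t1 y0 y1 * mmT t0 t1 y0 y1 + 2 * (t0 * X0) : ℕ) : ℝ) := by exact_mod_cast hK
    have h3 := div_le_div_of_nonneg_right h2 (by norm_num : (0:ℝ) ≤ 16777216 * 16777216)
    calc _ = _ := ?_
      _ ≤ _ := h3
      _ = _ := ?_
    · unfold va; push_cast; ring
    · unfold va; push_cast; ring
  have k5 : va (mmT t0 t1 y0 y1) ^ 2 ≤ AA y 0 τ ^ 2 := pow_le_pow_left₀ (va_nonneg _) k1 2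
  have k6 : va t0 * va X0 ≤ τ * X := mul_le_mul h0 hX0 (va_nonneg _) hτ
  refine le_of_sq_le_sq ?_ (Real.sqrt_nonneg _)
  rw [k3]
  rw [k2] at k5
  linarith

/-! ### the upper bound of `x` -/

/-- facts about one zero -/
structure ZZ (b y X : ℝ) : Prop where
  y0 : 0 ≤ y
  X0 : 0 ≤ X
  gl : 2 * (1 - b) * X ≤ 2 * y + b * y ^ 2
  X2 : X ≤ 2 * (1 + y)
  E : 0 < (1 + b * y) ^ 2 - 2 * (1 - b) * b * X

theorem xtop_sound {J : TJ} (hJ : JR J) {b δ y X x : ℝ} (hδ : BC J b δ) (hv : XV J b X x)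
    (hz : ZZ b y X) (hx : 0 ≤ x) {xk : ℕ}
    (hc : Nat.beq J.form 3 = false ∨ 0 < J.b0 ∨ xk = 1 ∨ 2 < xk)
    (hx3 : 2 < xk → x ≤ va (xk * 262144)) (h1 : xk ≠ 1) :
    ∃ k2 k1 k0 : ℝ, 0 ≤ k2 ∧ 0 ≤ k1 ∧
      (∀ y' : ℕ, k2 * va y' ^ 2 + k1 * va y' + k0 ≤ va (xtop J xk y')) ∧
      x ≤ k2 * y ^ 2 + k1 * y + k0 := by
  have hb := hδ.b0
  have hb1 := hδ.b1
  have hle0 := hδ.le0 hJ
  have hle1 := hδ.le1 hJ
  have hb1lt := hJ.va_b1_lt
  have hy := hz.y0
  have hX := hz.X0
  have hka := hJ.ka1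
  have ha : 0 < 1 - b := by linarith
  have ha1 : 0 < 1 - va J.b1 := by linarith
  have hka' : 1 ≤ va J.ka * (1 - b) :=
    hka.trans (mul_le_mul_of_nonneg_left (by linarith) (va_nonneg _))
  have B1 := va_nonneg J.b1
  have KA := va_nonneg J.ka
  rcases Nat.lt_or_ge 2 xk with h3 | h3
  · refine ⟨0, 0, va (xk * 262144), le_rfl, le_rfl, fun y' => ?_, ?_⟩
    · unfold xtop
      have e0 : Nat.beq xk 0 = false := by
        rw [← Bool.not_eq_true]; intro h; have := Nat.eq_of_beq_eq_true h; omega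
      have e2 : Nat.beq xk 2 = false := by
        rw [← Bool.not_eq_true]; intro h; have := Nat.eq_of_beq_eq_true h; omega
      rw [e0, cond_false, e2, cond_false]
      linarith
    · have := hx3 h3
      linarith
  · have hcase : xk = 0 ∨ xk = 2 := by omega
    have hc' : Nat.beq J.form 3 = false ∨ 0 < J.b0 := by
      rcases hc with h | h | h | h
      · exact Or.inl h
      · exact Or.inr h
      · exact absurd h h1
      · omega
    rcases hcase with rfl | rfl
    · cases hf : Nat.beq J.form 3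
      · -- form 4, GL
        have hXx := hv.f4 hf
        refine ⟨va J.ka * (va J.b1 / 2), va J.ka, 0, by positivity, KA, fun y' => ?_, ?_⟩
        · unfold xtop
          rw [show Nat.beq 0 0 = true from rfl, cond_true, hf, cond_false]
          have e1 : va J.b1 * va y' ^ 2 ≤ va (mu (mu J.b1 y') y') := by
            have := va_mu_le (va_mu J.b1 y') (le_refl (va y')) (va_nonneg y')
            calc va J.b1 * va y' ^ 2 = va J.b1 * va y' * va y' := by ring
              _ ≤ _ := this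
          have e2 := va_div_up (mu (mu J.b1 y') y') 2 (by norm_num)
          push_cast at e2
          have e3 : va y' + va J.b1 * va y' ^ 2 / 2 ≤
              va (y' + (mu (mu J.b1 y') y' / 2 + 1)) := by
            rw [va_add]; linarith
          have e4 := va_mu_le (le_refl (va J.ka)) e3 (by
            have := va_nonneg y'; positivity)
          calc _ = va J.ka * (va y' + va J.b1 * va y' ^ 2 / 2) := by ring
            _ ≤ _ := e4
        · rw [← hXx]
          have e1 : X ≤ va J.ka * (1 - b) * X := by nlinarith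
          have e2 : (1 - b) * X ≤ y + va J.b1 / 2 * y ^ 2 := by
            have := mul_le_mul_of_nonneg_right hle1 (sq_nonneg y)
            have := hz.gl
            linarith
          have e3 := mul_le_mul_of_nonneg_left e2 KA
          linarith
      · -- form 3, GL
        have hb00 : 0 < J.b0 := by
          rcases hc' with h | h
          · exact (Bool.false_ne_true (h.symm.trans hf)).elim
          · exact h
        have hXx := hv.f3 hf
        have hkx := hJ.kx' hf hb00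
        have KX := va_nonneg J.kx
        refine ⟨va J.ka / 2, va J.kx, 0, by positivity, KX, fun y' => ?_, ?_⟩
        · unfold xtop
          rw [show Nat.beq 0 0 = true from rfl, cond_true, hf, cond_true, va_add]
          have e1 := va_mu J.kx y'
          have e2 : va J.ka * va y' ^ 2 ≤ va (mu J.ka (mu y' y')) := by
            refine va_mu_le le_rfl ?_ (sq_nonneg _)
            rw [sq]; exact va_mu _ _
          have e3 := va_div_up (mu J.ka (mu y' y')) 2 (by norm_num)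
          push_cast at e3
          linarith
        · -- `2 a b x ≤ 2 y + b y²`
          have hgl := hz.gl
          rw [hXx] at hgl
          have e1 : (1 - b) * x ≤ y / b + y ^ 2 / 2 := by
            rw [← sub_nonneg]
            have : y / b + y ^ 2 / 2 - (1 - b) * x =
                (2 * y + b * y ^ 2 - 2 * (1 - b) * (b * x)) / (2 * b) := by
              field_simp
              try ring
            rw [this]
            exact div_nonneg (by linarith) (by linarith)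
          have e2 : x ≤ va J.ka * (1 - b) * x := by nlinarith
          have e4 : 1 ≤ va J.kx * ((1 - b) * b) := by
            refine hkx.trans (mul_le_mul_of_nonneg_left ?_ KX)
            exact mul_le_mul (by linarith) hle0 (va_nonneg _) ha.le
          have e5 : y ≤ va J.kx * ((1 - b) * b) * y := by nlinarith
          have e6 : y / b ≤ va J.kx * (1 - b) * y := by
            rw [div_le_iff₀ hb]
            calc y ≤ va J.kx * ((1 - b) * b) * y := e5
              _ = _ := by ring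
          have e7 : y ^ 2 ≤ va J.ka * (1 - b) * y ^ 2 := by nlinarith [sq_nonneg y]
          have e8 : (1 - b) * x ≤ (1 - b) * (va J.ka / 2 * y ^ 2 + va J.kx * y + 0) := by
            linarith
          exact le_of_mul_le_mul_left e8 ha
    · have hX2 := hz.X2
      cases hf : Nat.beq J.form 3
      · have hXx := hv.f4 hf
        refine ⟨0, 2, 2, le_rfl, by norm_num, fun y' => ?_, ?_⟩
        · unfold xtop
          rw [show Nat.beq 2 0 = false from rfl, cond_false, show Nat.beq 2 2 = true from rfl,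
            cond_true, hf, cond_false, va_nmul, va_add, va_S]
          push_cast
          linarith
        · rw [← hXx]; linarith
      · have hb00 : 0 < J.b0 := by
          rcases hc' with h | h
          · exact (Bool.false_ne_true (h.symm.trans hf)).elim
          · exact h
        have hXx := hv.f3 hf
        have hxi := hJ.xi0' hb00
        have XI := va_nonneg J.xi0
        refine ⟨0, 2 * va J.xi0, 2 * va J.xi0, le_rfl, by positivity, fun y' => ?_, ?_⟩
        · unfold xtop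
          rw [show Nat.beq 2 0 = false from rfl, cond_false, show Nat.beq 2 2 = true from rfl,
            cond_true, hf, cond_true, va_nmul]
          have := va_mu J.xi0 (16777216 + y')
          rw [va_add, va_S] at this
          push_cast
          linarith
        · have e1 : 1 ≤ va J.xi0 * b := hxi.trans (mul_le_mul_of_nonneg_left hle0 XI)
          have e2 : x ≤ va J.xi0 * b * x := by nlinarith
          rw [hXx] at hX2
          have e3 := mul_le_mul_of_nonneg_left hX2 XI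
          linarith

/-! ### one cell -/

/-- the value of the majorant at one zero -/
noncomputable def Lv (J : TJ) (n : Nd) (b δ y X : ℝ) : ℝ :=
  Yi n δ y - 8 - va n.nu * rho (Nat.beq J.form 3) b y X

/-- what a cell provides -/
def YC (J : TJ) (t0 t1 : ℕ) (na nb : Nd) (b δ y X w : ℝ) : Prop :=
  ∃ g al : ℝ, 0 ≤ al ∧
    (∀ τ, va t0 ≤ τ → τ ≤ va t1 → Psi (AA y X τ) w ≤ g + al * DD (1 + y) X τ) ∧
    g + al * DD (1 + y) X (va t0) ≤ Lv J na b δ y X ∧
    g + al * DD (1 + y) X (va t1) ≤ Lv J nb b δ y X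

theorem YC_of {J : TJ} {t0 t1 : ℕ} {na nb : Nd} {b δ y X w : ℝ} {G al cw : ℕ}
    (hX : 0 ≤ X)
    (h : ∀ τ, va t0 ≤ τ → τ ≤ va t1 →
      Psi (AA y X τ) w ≤ va G - 8 + va cw * w + va al * AA y X τ ^ 2)
    (hP : Pt J na G al cw b δ y X (va t0) w ∧ Pt J nb G al cw b δ y X (va t1) w) :
    YC J t0 t1 na nb b δ y X w := by
  refine ⟨va G - 8 + va cw * w, va al, va_nonneg _, ?_, ?_, ?_⟩
  · intro τ h0 h1
    have h3 := h τ h0 h1
    rwa [LP.AA_sq hX ((va_nonneg _).trans h0)] at h3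
  · have := hP.1
    unfold Pt at this
    unfold Lv
    linarith
  · have := hP.2
    unfold Pt at this
    unfold Lv
    linarith

/-- the lower bound of `A` used by a cell -/
def mmX (J : TJ) (t0 t1 y0 y1 mk : ℕ) : ℕ :=
  bif Nat.ble (mk * 65536) (mmT t0 t1 y0 y1) then mmT t0 t1 y0 y1 else mk * 65536

theorem itm_typ {J : TJ} {t0 t1 p q : ℕ} {na nb : Nd} {y0 y1 x0 xk typ k mk l : ℕ}
    (h : itm J t0 t1 p q na nb y0 y1 x0 xk typ k mk l = true) :
    (mk * 65536 * (mk * 65536) ≤ mmT t0 t1 y0 y1 * mmT t0 t1 y0 y1 +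
        2 * (t0 * (bif Nat.beq J.form 3 then md x0 J.b0 else x0)) ∧
      y0 ≤ y1 ∧ k < 1024 ∧
      (Nat.beq J.form 3 = false ∨ 0 < J.b0 ∨ xk = 1 ∨ 2 < xk)) ∧
    (typ = 1 ∨ typ = 2 ∨ typ = 3) := by
  unfold itm at h
  simp only [Bool.and_eq_true, Bool.or_eq_true, Nat.blt_eq, Nat.ble_eq] at h
  obtain ⟨⟨h0, h1, h2, h3⟩, h4⟩ := h
  refine ⟨⟨h0, h1, h2, ?_⟩, ?_⟩
  · rcases h3 with h3 | h3 | h3 | h3
    · left
      have := Nat.eq_of_beq_eq_true h3
      rw [this]; rfl
    · exact Or.inr (Or.inl h3)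
    · exact Or.inr (Or.inr (Or.inl (Nat.eq_of_beq_eq_true h3)))
    · exact Or.inr (Or.inr (Or.inr h3))
  · by_contra hc
    push Not at hc
    obtain ⟨c1, c2, c3⟩ := hc
    split at h4
    · exact c1 rfl
    · exact c2 rfl
    · exact c3 rfl
    · exact absurd h4 (by decide)

theorem itm1 {J : TJ} {t0 t1 p q : ℕ} {na nb : Nd} {y0 y1 x0 xk k mk l : ℕ}
    (h : itm J t0 t1 p q na nb y0 y1 x0 xk 1 k mk l = true) :
    ∃ m r w0 w1 om rm v rmu : ℕ, m = mmX J t0 t1 y0 y1 mk ∧ r = rk k ∧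
      w0 = 2 * md p (16777216 + y0) + md q x0 ∧
      w1 = 2 * mu p (16777216 + y1) + mu q (xtop J xk y1) ∧
      om = mu w1 r ∧ rm = md m r ∧
      v = md rm rm ∧ rmu = mu m r ∧
      ((Nat.beq (bif Nat.beq xk 1 then 1 else 0) 0 = true ∨ Nat.beq q 0 = true) ∧
      (5 * om ≤ 33554432 ∨ (3 * om ≤ 33554432 ∧ om ≤ rm ∧
        om * 16777216 ≤ (16777216 - om) * (v + rm)))) ∧
      rowt J (lk k + (mu (mu rmu rmu) (mu w0 r) / 2 + 1) - 8388608)
        (mu r r * (16777216 - md w0 r) / 33554432 + 1)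
        (mu r ((50331648 - v) / 2 + 1)) p q l t0 t1 (bif Nat.beq xk 1 then 1 else 0) na nb
        y0 y1 x0 (xtop J xk y0) (xtop J xk y1) = true := by
  refine ⟨_, _, _, _, _, _, _, _, rfl, rfl, rfl, rfl, rfl, rfl, rfl, rfl, ?_⟩
  unfold itm at h
  simp only [Bool.and_eq_true, Bool.or_eq_true, Nat.blt_eq, Nat.ble_eq] at h
  unfold mmX mmT
  exact h.2

theorem itm2 {J : TJ} {t0 t1 p q : ℕ} {na nb : Nd} {y0 y1 x0 xk k mk l : ℕ}
    (h : itm J t0 t1 p q na nb y0 y1 x0 xk 2 k mk l = true) :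
    ∃ r w0 : ℕ, r = rk k ∧
      w0 = 2 * md p (16777216 + y0) + md q x0 ∧ 0 < w0 ∧
      rowt J (lk k) (240840690626351905898496 / (1000 * (w0 * w0)) + 1) r
        p q l t0 t1 (bif Nat.beq xk 1 then 1 else 0) na nb
        y0 y1 x0 (xtop J xk y0) (xtop J xk y1) = true := by
  refine ⟨_, _, rfl, rfl, ?_⟩
  unfold itm at h
  simp only [Bool.and_eq_true, Nat.blt_eq] at h
  exact h.2

theorem itm3 {J : TJ} {t0 t1 p q : ℕ} {na nb : Nd} {y0 y1 x0 xk k mk l : ℕ}
    (h : itm J t0 t1 p q na nb y0 y1 x0 xk 3 k mk l = true) :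
    ∃ m r w0 : ℕ, m = mmX J t0 t1 y0 y1 mk ∧ r = rk k ∧
      w0 = 2 * md p (16777216 + y0) + md q x0 ∧ (0 < w0 ∧ 0 < m) ∧
      rowt J ((lk k + mu m r) - 16777216 -
          md (md (9444732965739290427392 / (27 * (w0 * w0)) + 1) m) m)
        (9444732965739290427392 / (27 * (w0 * w0)) + 1)
        (281474976710656 / m + 1)
        p q l t0 t1 (bif Nat.beq xk 1 then 1 else 0) na nb
        y0 y1 x0 (xtop J xk y0) (xtop J xk y1) = true := by
  refine ⟨_, _, _, rfl, rfl, rfl, ?_⟩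
  unfold itm at h
  simp only [Bool.and_eq_true, Nat.blt_eq] at h
  unfold mmX mmT
  exact h.2

/-- soundness of one cell -/
theorem itm_sound {J : TJ} (hJ : JR J) {t0 t1 p q : ℕ} {na nb : Nd}
    {y0 y1 x0 xk typ k mk l : ℕ}
    (h : itm J t0 t1 p q na nb y0 y1 x0 xk typ k mk l = true) (hp : 0 < p)
    {b δ y X x : ℝ} (hδ : BC J b δ) (hv : XV J b X x) (hz : ZZ b y X)
    (hy0 : va y0 ≤ y) (hy1 : y ≤ va y1) (hx0 : va x0 ≤ x)
    (hx3 : 2 < xk → x ≤ va (xk * 262144)) :
    YC J t0 t1 na nb b δ y X (2 * va p * (1 + y) + va q * x) := by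
  obtain ⟨⟨hK, h01, hk, hc⟩, htyp⟩ := itm_typ h
  have hxx : 0 ≤ x := (va_nonneg x0).trans hx0
  have hy := hz.y0
  have hX0 := hz.X0
  have hpp : 0 < va p := va_pos hp
  have hqq := va_nonneg q
  have hb := hδ.b0
  -- the top
  have htop : xk ≠ 1 → ∃ k2 k1 k0 : ℝ, 0 ≤ k2 ∧ 0 ≤ k1 ∧
      (∀ y' : ℕ, k2 * va y' ^ 2 + k1 * va y' + k0 ≤ va (xtop J xk y')) ∧
      x ≤ k2 * y ^ 2 + k1 * y + k0 := xtop_sound hJ hδ hv hz hxx hc hx3
  have hT : Top (bif Nat.beq xk 1 then 1 else 0) y0 y1 (xtop J xk y0) (xtop J xk y1) y x := by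
    rcases eq_or_ne xk 1 with h1 | h1
    · left
      rw [h1]; decide
    · obtain ⟨k2, k1, k0, c2, c1, hh, hx⟩ := htop h1
      exact Or.inr ⟨k2, k1, k0, c2, hh y0, hh y1, hx⟩
  have hxb : xk ≠ 1 → x ≤ va (xtop J xk y1) := by
    intro h1
    obtain ⟨k2, k1, k0, c2, c1, hh, hx⟩ := htop h1
    refine hx.trans (le_trans ?_ (hh y1))
    have e1 : y ^ 2 ≤ va y1 ^ 2 := pow_le_pow_left₀ hy hy1 2
    have e2 := mul_le_mul_of_nonneg_left e1 c2
    have e3 := mul_le_mul_of_nonneg_left hy1 c1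
    linarith
  -- `w`
  obtain ⟨w, hw⟩ : ∃ w, w = 2 * va p * (1 + y) + va q * x := ⟨_, rfl⟩
  have hwp : 0 < w := by rw [hw]; positivity
  have hw0 : va (2 * md p (16777216 + y0) + md q x0) ≤ w := by
    rw [hw, va_add, va_nmul]
    have e1 : va (md p (16777216 + y0)) ≤ va p * (1 + y) := by
      refine va_md_le le_rfl ?_
      rw [va_add, va_S]; linarith
    have e2 : va (md q x0) ≤ va q * x := va_md_le le_rfl hx0
    push_cast
    linarith
  have hw1 : xk ≠ 1 ∨ q = 0 → w ≤ va (2 * mu p (16777216 + y1) + mu q (xtop J xk y1)) := by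
    intro h1
    rw [hw, va_add, va_nmul]
    have e1 : va p * (1 + y) ≤ va (mu p (16777216 + y1)) := by
      refine va_mu_le le_rfl ?_ (by linarith)
      rw [va_add, va_S]; linarith
    have e2 : va q * x ≤ va (mu q (xtop J xk y1)) := by
      rcases h1 with h1 | h1
      · exact va_mu_le le_rfl (hxb h1) hxx
      · rw [h1, va_zero, zero_mul]; exact va_nonneg _
    push_cast
    linarith
  -- `m`
  have hX00 : va (bif Nat.beq J.form 3 then md x0 J.b0 else x0) ≤ X := by
    cases hf : Nat.beq J.form 3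
    · rw [cond_false, hv.f4 hf]; exact hx0
    · rw [cond_true, hv.f3 hf, mul_comm]
      exact va_md_le hx0 (hδ.le0 hJ)
  have hm : ∀ τ, va t0 ≤ τ → τ ≤ va t1 → va (mmX J t0 t1 y0 y1 mk) ≤ AA y X τ := by
    intro τ ht0 ht1
    unfold mmX
    cases Nat.ble (mk * 65536) (mmT t0 t1 y0 y1)
    · rw [cond_false]
      exact m_le hy0 hy1 hX00 ht0 ht1 hK
    · rw [cond_true]
      exact mmT_le hy0 hy1 hX0 ht0 ht1
  have hr : 0 < va (rk k) := va_pos (rk_pos hk)
  have hL : -Real.log (va (rk k)) ≤ va (lk k) - 8 := neg_log_rk_le hk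
  rw [← hw]
  rcases htyp with rfl | rfl | rfl
  · obtain ⟨m, r, w0, w1, om, rm, v, rmu, hmd, hrd, hw0d, hw1d, hom, hrm, hvd, hrmu,
      ⟨hinf, hcc⟩, hrow⟩ := itm1 h
    have hxk : xk ≠ 1 ∨ q = 0 := by
      rcases hinf with hinf | hinf
      · left
        intro h1
        rw [h1] at hinf
        exact absurd hinf (by decide)
      · exact Or.inr (Nat.eq_of_beq_eq_true hinf)
    have hw1' := hw1 hxk
    rw [← hw0d] at hw0
    rw [← hw1d] at hw1'
    rw [← hrd] at hr hL
    rw [← hmd] at hm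
    have hP := rowt_sound hJ hrow hδ hv hy hy0 hy1 hx0 hT hz.E
    rw [← hw] at hP
    refine YC_of hX0 (fun τ ht0 ht1 => ?_) hP
    exact type1 (lkk := lk k) hr hL (by rw [hom]; exact va_mu w1 r)
      (by rw [hrm]; exact va_md m r) (by rw [hvd, sq]; exact va_md rm rm)
      (by rw [hrmu]; exact va_mu m r) hcc
      (LP.hG1 (lkk := lk k) (rmu := rmu) (w0 := w0) (r := r)) (LP.hal1 (r := r) (w0 := w0))
      (hcw1 (r := r) (v := v)) hwp hw0 hw1' (hm τ ht0 ht1)
  · obtain ⟨r, w0, hrd, hw0d, hw00, hrow⟩ := itm2 h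
    rw [← hw0d] at hw0
    rw [← hrd] at hr hL
    have hP := rowt_sound hJ hrow hδ hv hy hy0 hy1 hx0 hT hz.E
    rw [← hw] at hP
    refine YC_of hX0 (fun τ ht0 ht1 => ?_) hP
    exact type2 hr hL hw00 (LP.hal2 hw00) hw0 (Real.sqrt_nonneg _)
  · obtain ⟨m, r, w0, hmd, hrd, hw0d, ⟨hw00, hm00⟩, hrow⟩ := itm3 h
    rw [← hw0d] at hw0
    rw [← hrd] at hr hL
    rw [← hmd] at hm
    have hP := rowt_sound hJ hrow hδ hv hy hy0 hy1 hx0 hT hz.E
    rw [← hw] at hP
    refine YC_of hX0 (fun τ ht0 ht1 => ?_) hP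
    exact type3 hr hL hw00 hm00 (LP.hG3 (lkk := lk k) (m := m) (r := r)) (LP.hal3 hw00)
      (hcw3 hm00) hw0 (hm τ ht0 ht1)

/-! ### columns -/

theorem cols_cons {J : TJ} {t0 t1 p q : ℕ} {na nb : Nd} {ymax y0 x0 yc w : ℕ} {ws : List ℕ}
    (h : cols J t0 t1 p q na nb ymax y0 x0 yc (w :: ws) = true) :
    ∃ y1 typ k mk xk l, (x0 = 0 ∨ y1 = yc) ∧
      itm J t0 t1 p q na nb y0 y1 x0 xk typ k mk l = true ∧
      ((xk < 3 ∧ cols J t0 t1 p q na nb ymax y1 0 0 ws = true) ∨
       (2 < xk ∧ x0 < xk * 262144 ∧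
        cols J t0 t1 p q na nb ymax y0 (xk * 262144) y1 ws = true)) := by
  rw [cols] at h
  simp only [Bool.and_eq_true, Bool.or_eq_true] at h
  obtain ⟨h1, h2, h3⟩ := h
  refine ⟨_, _, _, _, _, _, ?_, h2, ?_⟩
  · rcases h1 with h1 | h1
    · exact Or.inl (Nat.eq_of_beq_eq_true h1)
    · exact Or.inr (Nat.eq_of_beq_eq_true h1)
  · cases hx : Nat.blt (w / 2199023255552 % 1048576) 3
    · rw [hx, cond_false] at h3
      simp only [Bool.and_eq_true, Nat.blt_eq] at h3
      right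
      refine ⟨?_, h3⟩
      rw [← Bool.not_eq_true, Nat.blt_eq] at hx
      omega
    · rw [hx, cond_true] at h3
      rw [Nat.blt_eq] at hx
      exact Or.inl ⟨hx, h3⟩

/-- soundness of all cells -/
theorem cols_sound {J : TJ} (hJ : JR J) {t0 t1 p q : ℕ} {na nb : Nd} {ymax : ℕ} (hp : 0 < p)
    {b δ y X x : ℝ} (hδ : BC J b δ) (hv : XV J b X x) (hz : ZZ b y X) (hx : 0 ≤ x)
    (hymax : y ≤ va ymax) :
    ∀ (ws : List ℕ) (y0 x0 yc : ℕ), cols J t0 t1 p q na nb ymax y0 x0 yc ws = true →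
      va y0 ≤ y → (x0 = 0 ∨ va x0 ≤ x ∨ va yc < y) → (ws ≠ [] ∨ va y0 < y) →
      YC J t0 t1 na nb b δ y X (2 * va p * (1 + y) + va q * x) := by
  intro ws
  induction ws with
  | nil =>
    intro y0 x0 yc h hy0 _ hne
    rw [cols] at h
    simp only [Bool.and_eq_true] at h
    have h1 := va_le (Nat.le_of_ble_eq_true h.1)
    rcases hne with h2 | h2
    · exact absurd rfl h2
    · exact absurd (hymax.trans h1) (not_le.2 h2)
  | cons w ws ih =>
    intro y0 x0 yc h hy0 hxc _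
    obtain ⟨y1, typ, k, mk, xk, l, h1, h2, h3⟩ := cols_cons h
    have hws : 2 < xk → x0 < xk * 262144 →
        cols J t0 t1 p q na nb ymax y0 (xk * 262144) y1 ws = true → ws ≠ [] := by
      intro h4 h5 h6 h7
      rw [h7, cols] at h6
      simp only [Bool.and_eq_true] at h6
      have := Nat.eq_of_beq_eq_true h6.2
      omega
    rcases le_or_gt y (va y1) with h4 | h4
    · have hx0 : va x0 ≤ x := by
        rcases h1 with h1 | h1
        · rw [h1, va_zero]; exact hx
        · rcases hxc with h5 | h5 | h5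
          · rw [h5, va_zero]; exact hx
          · exact h5
          · rw [← h1] at h5
            exact absurd h4 (not_le.2 h5)
      rcases h3 with ⟨h5, h6⟩ | ⟨h5, h6, h7⟩
      · exact itm_sound hJ h2 hp hδ hv hz hy0 h4 hx0 (fun h8 => by omega)
      · rcases le_or_gt x (va (xk * 262144)) with h8 | h8
        · exact itm_sound hJ h2 hp hδ hv hz hy0 h4 hx0 (fun _ => h8)
        · exact ih y0 (xk * 262144) y1 h7 hy0 (Or.inr (Or.inl h8.le))
            (Or.inl (hws h5 h6 h7))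
    · rcases h3 with ⟨h5, h6⟩ | ⟨h5, h6, h7⟩
      · exact ih y1 0 0 h6 h4.le (Or.inl rfl) (Or.inr h4)
      · exact ih y0 (xk * 262144) y1 h7 hy0 (Or.inr (Or.inr h4)) (Or.inl (hws h5 h6 h7))

end Pool.Agent.Lib.MP_172a45_an.LT
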