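import Pool.Agent.Lib.MP_172a45_an.LT.Snd3

set_option autoImplicit false

/-!
# Soundness of the TC certificate checker, part 4: row constants, node values (helper58)
-/

namespace Pool.Agent.Lib.MP_172a45_an.LT

open Finset Real Pool.Agent.Lib.MP_172a45_an.F
open Pool.Agent.Lib.MP_172a45_an.LP (rk lk va va_nonneg va_zero va_S va_add va_nmul va_le va_lt
  va_pos va_sub va_sub_of_le lt_div_add_one div_le_cast va_div_up va_div_dn abs_dist rho
  mul_S_cast va_mul_div g_bound c_bound rk_pos neg_log_rk_le)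

/-! ### `gg z / z²` is convex -/

/-- `h z = gg z / z²` as an integral -/
noncomputable def hh (z : ℝ) : ℝ := ∫ s in (0:ℝ)..1, (1 - s) / (1 + s * z) ^ 2

theorem hh_cont {z : ℝ} (hz : 0 ≤ z) :
    ContinuousOn (fun s : ℝ => (1 - s) / (1 + s * z) ^ 2) (Set.uIcc 0 1) := by
  refine ContinuousOn.div (by fun_prop) (by fun_prop) fun s hs => ?_
  rw [Set.uIcc_of_le (by norm_num)] at hs
  have : 0 ≤ s * z := mul_nonneg hs.1 hz
  positivity

theorem hh_int {z : ℝ} (hz : 0 ≤ z) :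
    IntervalIntegrable (fun s : ℝ => (1 - s) / (1 + s * z) ^ 2) MeasureTheory.volume 0 1 :=
  (hh_cont hz).intervalIntegrable

theorem hh_zero : hh 0 = 1 / 2 := by
  unfold hh
  simp only [mul_zero, add_zero, one_pow, div_one]
  have h := intervalIntegral.integral_sub (μ := MeasureTheory.volume) (a := 0) (b := 1)
    (f := fun _ : ℝ => (1:ℝ)) (g := fun s : ℝ => s)
    ((by fun_prop : Continuous fun _ : ℝ => (1:ℝ)).intervalIntegrable 0 1)
    ((by fun_prop : Continuous fun s : ℝ => s).intervalIntegrable 0 1)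
  rw [h, intervalIntegral.integral_const, integral_id]
  norm_num

theorem hh_eq {z : ℝ} (hz : 0 ≤ z) : z ^ 2 * hh z = gg z := by
  unfold hh gg
  rw [← intervalIntegral.integral_const_mul]
  have hd : ∀ s ∈ Set.uIcc (0:ℝ) 1,
      HasDerivAt (fun s : ℝ => -(z + 1) / (1 + s * z) - Real.log (1 + s * z))
        (z ^ 2 * ((1 - s) / (1 + s * z) ^ 2)) s := by
    intro s hs
    rw [Set.uIcc_of_le (by norm_num)] at hs
    have h0 : 0 ≤ s * z := mul_nonneg hs.1 hz
    have h1 : 0 < 1 + s * z := by linarith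
    have h2 : HasDerivAt (fun s : ℝ => 1 + s * z) z s := by
      have := ((hasDerivAt_id s).mul_const z).const_add 1
      refine this.congr_deriv ?_
      ring
    have h3 := ((hasDerivAt_const s (-(z + 1))).div h2 h1.ne').sub (h2.log h1.ne')
    refine h3.congr_deriv ?_
    field_simp
    ring
  rw [intervalIntegral.integral_eq_sub_of_hasDerivAt hd ((hh_int hz).const_mul _)]
  have : z + 1 ≠ 0 := by linarith
  have : 1 + z ≠ 0 := by linarith
  simp only [one_mul, zero_mul, add_zero, div_one, Real.log_one, sub_zero]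
  field_simp
  ring

theorem hh_convex {z0 z1 δ : ℝ} (h0 : 0 ≤ z0) (h1 : 0 ≤ z1) (hd0 : 0 ≤ δ) (hd1 : δ ≤ 1) :
    hh ((1 - δ) * z0 + δ * z1) ≤ (1 - δ) * hh z0 + δ * hh z1 := by
  have hd1' : 0 ≤ 1 - δ := by linarith
  have hz : 0 ≤ (1 - δ) * z0 + δ * z1 := by positivity
  unfold hh
  rw [← intervalIntegral.integral_const_mul, ← intervalIntegral.integral_const_mul,
    ← intervalIntegral.integral_add ((hh_int h0).const_mul _) ((hh_int h1).const_mul _)]
  refine intervalIntegral.integral_mono_on (by norm_num) (hh_int hz)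
    (((hh_int h0).const_mul _).add ((hh_int h1).const_mul _)) fun s hs => ?_
  have hs0 : 0 ≤ s := hs.1
  have hs1 : 0 ≤ 1 - s := by linarith [hs.2]
  have u0 : 0 < 1 + s * z0 := by positivity
  have u1 : 0 < 1 + s * z1 := by positivity
  have k1 := inv_convex u0 u1 hd0 hd1
  have e : (1 - δ) * (1 + s * z0) + δ * (1 + s * z1) =
      1 + s * ((1 - δ) * z0 + δ * z1) := by ring
  rw [e] at k1
  have u : 0 < 1 + s * ((1 - δ) * z0 + δ * z1) := by positivity
  have k2 : (1 / (1 + s * ((1 - δ) * z0 + δ * z1))) ^ 2 ≤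
      (1 - δ) * (1 / (1 + s * z0)) ^ 2 + δ * (1 / (1 + s * z1)) ^ 2 := by
    refine (pow_le_pow_left₀ (by positivity) k1 2).trans ?_
    nlinarith [mul_nonneg (mul_nonneg hd0 hd1')
      (sq_nonneg (1 / (1 + s * z0) - 1 / (1 + s * z1)))]
  have k3 := mul_le_mul_of_nonneg_left k2 hs1
  have e2 : ∀ u : ℝ, (1 - s) / u ^ 2 = (1 - s) * (1 / u) ^ 2 := fun u => by ring
  rw [e2, e2, e2]
  linarith

/-! ### row constants -/

theorem logok_def {x j : ℕ} (h : logok x j = true) : rk j ≤ x ∧ 16777216 ≤ x ∧ j < 1024 := by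
  unfold logok at h
  simp only [Bool.and_eq_true, Nat.blt_eq, Nat.ble_eq] at h
  exact h

theorem loglo_sound {x j : ℕ} (h : logok x j = true) : va (loglo x j) ≤ Real.log (va x) :=
  LP.loglo_sound h

theorem muhi_ge {J : TJ} (hJ : JR J) {b : ℝ} (hb0 : va J.b0 ≤ b) (hb1 : b ≤ va J.b1) :
    1 + (1 - b) * b / 2 ≤ va (muhi J) := by
  unfold muhi
  cases h1 : Nat.ble (2 * J.b1) 16777216
  · rw [cond_false]
    cases h2 : Nat.ble 16777216 (2 * J.b0)
    · rw [cond_false]
      have e : va 18874368 = 9 / 8 := by norm_num [va]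
      rw [e]
      nlinarith [sq_nonneg (b - 1 / 2)]
    · rw [cond_true, add_assoc, va_add, va_S]
      have h3 := LP.two_ge_of (Nat.le_of_ble_eq_true h2)
      have h4 := LP.half_prod_up J.b0 (hJ.b01.trans hJ.b1).le
      nlinarith [mul_nonneg (sub_nonneg.2 hb0) (by linarith : 0 ≤ b + va J.b0 - 1)]
  · rw [cond_true, add_assoc, va_add, va_S]
    have h3 := LP.two_le_of (Nat.le_of_ble_eq_true h1)
    have h4 := LP.half_prod_up J.b1 hJ.b1.le
    nlinarith [mul_nonneg (sub_nonneg.2 hb1) (by linarith : 0 ≤ 1 - b - va J.b1)]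

theorem mulo_le {J : TJ} (hJ : JR J) {b : ℝ} (hb : b < 1) (hb0 : va J.b0 ≤ b)
    (hb1 : b ≤ va J.b1) : va (mulo J) ≤ 1 + (1 - b) * b / 2 := by
  unfold mulo
  cases h1 : Nat.ble (2 * J.b1) 16777216
  · rw [cond_false]
    cases h2 : Nat.ble 16777216 (2 * J.b0)
    · rw [cond_false, va_S]
      have := va_nonneg J.b0
      have : 0 ≤ (1 - b) * b := mul_nonneg (by linarith) (by linarith)
      linarith
    · rw [cond_true, va_add, va_S]
      have h3 := LP.two_ge_of (Nat.le_of_ble_eq_true h2)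
      have h4 := LP.half_prod_dn J.b1 hJ.b1.le
      nlinarith [mul_nonneg (sub_nonneg.2 hb1) (by linarith : 0 ≤ b + va J.b1 - 1)]
  · rw [cond_true, va_add, va_S]
    have h3 := LP.two_le_of (Nat.le_of_ble_eq_true h1)
    have h4 := LP.half_prod_dn J.b0 (hJ.b01.trans hJ.b1).le
    have hb01 := va_lt hJ.b01
    nlinarith [mul_nonneg (sub_nonneg.2 hb0) (by linarith : 0 ≤ 1 - b - va J.b0)]

/-- one half of the chord: `1 / b ≥ 2 / m - b / m²` -/
theorem inv_tangent {b m c : ℝ} (hb : 0 < b) (hm : 0 < m) (hc : 0 ≤ c) :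
    c * (2 * m - b) / m ^ 2 ≤ c / b := by
  rw [div_le_div_iff₀ (by positivity) hb]
  nlinarith [mul_nonneg hc (sq_nonneg (m - b))]

/-- concavity of the logarithm -/
theorem log_concave {u v δ : ℝ} (hu : 0 < u) (hv : 0 < v) (hd0 : 0 ≤ δ) (hd1 : δ ≤ 1) :
    (1 - δ) * Real.log u + δ * Real.log v ≤ Real.log ((1 - δ) * u + δ * v) := by
  have h := exp_comb_le (x := Real.log u) (y := Real.log v) (by linarith : 0 ≤ 1 - δ) hd0
    (by ring)
  rw [Real.exp_log hu, Real.exp_log hv] at h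
  rwa [Real.le_log_iff_exp_le ((Real.exp_pos _).trans_le h)]

/-- the bound of the sum of the row -/
def RK (J : TJ) (Ka Kb : ℕ) (δ s : ℝ) : Prop :=
  (Nat.beq J.form 3 = true → -((1 - δ) * va Ka + δ * va Kb) ≤ s) ∧
  (Nat.beq J.form 3 = false → (1 - δ) * va Ka + δ * va Kb ≤ s)

theorem rowK4_le {J : TJ} (hJ : JR J) (hb00 : 0 < J.b0) {L0 L1 b' : ℕ} (h01 : L0 ≤ L1)
    (h10 : L1 * J.b0 ≤ L0 * J.b1) :
    va (rowK4 J L0 L1 b') ≤ (va L0 * va J.b1 - va L1 * va J.b0) / (va J.b1 - va J.b0) *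
      va b' / ((va J.b0 + va J.b1) / 2) ^ 2 + (va L1 - va L0) / (va J.b1 - va J.b0) := by
  have hb0r : (0:ℝ) < J.b0 := by exact_mod_cast hb00
  have hb01 : (J.b0 : ℝ) < J.b1 := by exact_mod_cast hJ.b01
  have hd : (0:ℝ) < (J.b1 : ℝ) - J.b0 := by linarith
  have hs : (0:ℝ) < (J.b1 : ℝ) + J.b0 := by linarith
  obtain ⟨U, hU⟩ : ∃ U, U = 4 * (L0 * J.b1 - L1 * J.b0) * b' /
    ((J.b0 + J.b1) * (J.b0 + J.b1)) := ⟨_, rfl⟩
  have k1 : (U : ℝ) ≤ 4 * ((L0 : ℝ) * J.b1 - L1 * J.b0) * b' /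
      (((J.b0 : ℝ) + J.b1) * (J.b0 + J.b1)) := by
    have h2 := div_le_cast (4 * (L0 * J.b1 - L1 * J.b0) * b') ((J.b0 + J.b1) * (J.b0 + J.b1))
    rw [← hU, Nat.cast_mul, Nat.cast_mul 4, Nat.cast_sub h10] at h2
    push_cast at h2
    exact h2
  have k2 : ((rowK4 J L0 L1 b' : ℕ) : ℝ) ≤ ((U : ℝ) + ((L1 : ℝ) - L0)) * 16777216 /
      ((J.b1 : ℝ) - J.b0) := by
    unfold rowK4
    rw [← hU]
    have h2 := div_le_cast ((U + (L1 - L0)) * 16777216) (J.b1 - J.b0)
    rw [Nat.cast_mul, Nat.cast_add, Nat.cast_sub h01, Nat.cast_sub hJ.b01.le] at h2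
    push_cast at h2
    exact h2
  have k3 : ((U : ℝ) + ((L1 : ℝ) - L0)) * 16777216 / ((J.b1 : ℝ) - J.b0) ≤
      (4 * ((L0 : ℝ) * J.b1 - L1 * J.b0) * b' / (((J.b0 : ℝ) + J.b1) * (J.b0 + J.b1)) +
        ((L1 : ℝ) - L0)) * 16777216 / ((J.b1 : ℝ) - J.b0) := by
    refine div_le_div_of_nonneg_right ?_ hd.le
    exact mul_le_mul_of_nonneg_right (by linarith) (by norm_num)
  have k4 := div_le_div_of_nonneg_right (k2.trans k3) (by norm_num : (0:ℝ) ≤ 16777216)
  unfold va
  refine k4.trans (le_of_eq ?_)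
  have h1 : (J.b0 : ℝ) + J.b1 ≠ 0 := by linarith
  have h2 : (J.b1 : ℝ) - J.b0 ≠ 0 := by linarith
  have h3 : (J.b1 : ℝ) / 16777216 - J.b0 / 16777216 ≠ 0 := by
    intro h4
    apply h2
    linarith
  field_simp
  ring


theorem zarg3 {J : TJ} {N b : ℕ} (hf : Nat.beq J.form 3 = true) :
    zarg J N b = 16777216 + mu (N * b) (muhi J) := by
  unfold zarg; rw [hf, cond_true]

theorem zarg4 {J : TJ} {N b : ℕ} (hf : Nat.beq J.form 3 = false) :
    zarg J N b = 16777216 + md (N * b) (mulo J) := by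
  unfold zarg; rw [hf, cond_false]

theorem tailN_le {N b : ℕ} (hb : b ≤ 16777216) :
    va (N * (16777216 + (16777216 - b) / 2)) ≤ N * (1 + (1 - va b) / 2) := by
  rw [va_nmul, va_add, va_S]
  have h1 := va_div_dn (16777216 - b) 2
  rw [va_sub_of_le hb, va_S] at h1
  push_cast at h1
  exact mul_le_mul_of_nonneg_left (by linarith) (Nat.cast_nonneg N)

/-- the value of the row constant at one end (form 3) -/
theorem rowK3_ge {J : TJ} {N b j : ℕ} (hb : b ≤ 16777216) (hf : Nat.beq J.form 3 = true)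
    (hj : logok (zarg J N b) j = true) :
    (N * va (muhi J)) ^ 2 * hh (va b * (N * va (muhi J))) - N * (1 + (1 - va b) / 2) ≤
      va (rowK3 J N b j) := by
  have htail := tailN_le (N := N) hb
  have hmu := va_nonneg (muhi J)
  have hN : (0:ℝ) ≤ N := Nat.cast_nonneg N
  unfold rowK3
  refine le_trans ?_ (va_sub _ _)
  cases h0 : Nat.beq b 0
  · rw [cond_false]
    have hb0 : 0 < b := by
      rcases Nat.eq_zero_or_pos b with h1 | h1
      · rw [h1] at h0; exact absurd h0 (by decide)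
      · exact h1
    have hlog := loglo_sound hj
    have hbp : 0 < va b := va_pos hb0
    have hbr : (0:ℝ) < b := by exact_mod_cast hb0
    rw [zarg3 hf] at hlog ⊢
    obtain ⟨Z, hZ⟩ : ∃ Z, Z = mu (N * b) (muhi J) := ⟨_, rfl⟩
    obtain ⟨ell, hell⟩ : ∃ ell, ell = loglo (16777216 + mu (N * b) (muhi J)) j := ⟨_, rfl⟩
    rw [← hell, ← hZ] at hlog
    rw [← hell, ← hZ, Nat.add_sub_cancel_left]
    have hZv : va b * (N * va (muhi J)) ≤ va Z := by
      have := va_mu (N * b) (muhi J)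
      rw [va_nmul, ← hZ] at this
      linarith
    have hz0 : 0 ≤ va b * (N * va (muhi J)) := mul_nonneg hbp.le (mul_nonneg hN hmu)
    have hgg := gg_mono hz0 hZv
    rw [va_add, va_S] at hlog
    have h1 : gg (va Z) ≤ va Z - va ell := by unfold gg; linarith
    have h5 : va Z - va ell ≤ va (Z - ell) := va_sub _ _
    have h2 : (va Z - va ell) / va b ^ 2 ≤
        va ((Z - ell) * 281474976710656 / (b * b) + 1) := by
      have h3 := lt_div_add_one ((Z - ell) * 281474976710656) (b * b) (by positivity)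
      have h4 := div_le_div_of_nonneg_right h3 (by norm_num : (0:ℝ) ≤ 16777216)
      refine le_trans ?_ h4
      have h6 : (va Z - va ell) / va b ^ 2 ≤ va (Z - ell) / va b ^ 2 :=
        div_le_div_of_nonneg_right h5 (by positivity)
      refine h6.trans (le_of_eq ?_)
      rw [Nat.cast_mul (Z - ell)]
      unfold va
      push_cast
      field_simp
      norm_num
    have h7 : (N * va (muhi J)) ^ 2 * hh (va b * (N * va (muhi J))) =
        gg (va b * (N * va (muhi J))) / va b ^ 2 := by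
      rw [← hh_eq hz0]
      field_simp
    rw [h7]
    have h8 : gg (va b * (N * va (muhi J))) / va b ^ 2 ≤ (va Z - va ell) / va b ^ 2 :=
      div_le_div_of_nonneg_right (hgg.trans h1) (by positivity)
    linarith
  · rw [cond_true]
    have hb0 : b = 0 := Nat.eq_of_beq_eq_true h0
    have h1 := va_div_up (N * N * mu (muhi J) (muhi J)) 2 (by norm_num)
    have h2 := va_mu (muhi J) (muhi J)
    rw [va_nmul (N * N)] at h1
    push_cast at h1
    have h3 : (N : ℝ) * N * (va (muhi J) * va (muhi J)) ≤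
        N * N * va (mu (muhi J) (muhi J)) :=
      mul_le_mul_of_nonneg_left h2 (by positivity)
    rw [hb0, va_zero, zero_mul, hh_zero]
    rw [hb0, va_zero] at htail
    linarith

theorem rowKok_def {J : TJ} {N ja jb : ℕ} (h : rowKok J N ja jb = true) :
    logok (zarg J N J.b0) ja = true ∧ logok (zarg J N J.b1) jb = true ∧
    (Nat.beq J.form 3 = false → loglo (zarg J N J.b0) ja ≤ loglo (zarg J N J.b1) jb ∧
      loglo (zarg J N J.b1) jb * J.b0 ≤ loglo (zarg J N J.b0) ja * J.b1) := by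
  unfold rowKok at h
  simp only [Bool.and_eq_true, Bool.or_eq_true, Nat.ble_eq] at h
  obtain ⟨⟨h1, h2⟩, h3⟩ := h
  refine ⟨h1, h2, fun hf => ?_⟩
  rcases h3 with h3 | h3
  · exact (Bool.false_ne_true (hf.symm.trans h3)).elim
  · exact h3

theorem rowKa3 {J : TJ} {N ja jb : ℕ} (hf : Nat.beq J.form 3 = true) :
    rowKa J N ja jb = rowK3 J N J.b0 ja := by unfold rowKa; rw [hf, cond_true]

theorem rowKb3 {J : TJ} {N ja jb : ℕ} (hf : Nat.beq J.form 3 = true) :
    rowKb J N ja jb = rowK3 J N J.b1 jb := by unfold rowKb; rw [hf, cond_true]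

theorem rowKa4 {J : TJ} {N ja jb : ℕ} (hf : Nat.beq J.form 3 = false) :
    rowKa J N ja jb = rowK4 J (loglo (zarg J N J.b0) ja) (loglo (zarg J N J.b1) jb) J.b1 := by
  unfold rowKa; rw [hf, cond_false]

theorem rowKb4 {J : TJ} {N ja jb : ℕ} (hf : Nat.beq J.form 3 = false) :
    rowKb J N ja jb = rowK4 J (loglo (zarg J N J.b0) ja) (loglo (zarg J N J.b1) jb) J.b0 := by
  unfold rowKb; rw [hf, cond_false]

/-- soundness of the row constants -/
theorem rowK_sound {J : TJ} (hJ : JR J) {N ja jb : ℕ}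
    (hok : rowKok J N ja jb = true) {a Δ δ : ℝ} {y X : Fin N → ℝ} (h : FV N a Δ y X)
    (hδ : BC J (1 - a) δ) :
    RK J (rowKa J N ja jb) (rowKb J N ja jb) δ
      (∑ l, rho (Nat.beq J.form 3) (1 - a) (y l) (X l)) := by
  obtain ⟨hja, hjb, h4⟩ := rowKok_def hok
  have hb0 := hδ.le0 hJ
  have hb1 := hδ.le1 hJ
  have hb := hδ.b0
  have hd0 := hδ.d0
  have hd1 : 0 ≤ 1 - δ := by linarith [hδ.d1]
  have hN : (0:ℝ) ≤ N := Nat.cast_nonneg N
  have heq := hδ.eq
  refine ⟨fun hf => ?_, fun hf => ?_⟩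
  · rw [hf, rowKa3 hf, rowKb3 hf]
    simp only [rho, cond_true]
    refine h.form3 ?_
    have ha := rowK3_ge (hJ.b01.trans hJ.b1).le hf hja
    have hb' := rowK3_ge hJ.b1.le hf hjb
    have hmu := muhi_ge hJ hb0 hb1
    have hmu' : 1 + a * (1 - a) / 2 ≤ va (muhi J) := by
      have e : (1 - (1 - a)) * (1 - a) = a * (1 - a) := by ring
      rwa [e] at hmu
    obtain ⟨M, hM⟩ : ∃ M, M = N * va (muhi J) := ⟨_, rfl⟩
    have hM0 : 0 ≤ M := by rw [hM]; exact mul_nonneg hN (va_nonneg _)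
    rw [← hM] at ha hb'
    have hpos : 0 ≤ (1 - a) * N * (1 + a * (1 - a) / 2) := by
      have := h.a0
      positivity
    have h1 : gg ((1 - a) * N * (1 + a * (1 - a) / 2)) ≤ gg ((1 - a) * M) := by
      refine gg_mono hpos ?_
      rw [hM, mul_assoc]
      exact mul_le_mul_of_nonneg_left (mul_le_mul_of_nonneg_left hmu' hN) hb.le
    have h2 : gg ((1 - a) * M) = (1 - a) ^ 2 * (M ^ 2 * hh ((1 - a) * M)) := by
      rw [← hh_eq (mul_nonneg hb.le hM0)]; ring
    have h3 := hh_convex (z0 := va J.b0 * M) (z1 := va J.b1 * M) (mul_nonneg (va_nonneg _) hM0)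
      (mul_nonneg (va_nonneg _) hM0) hd0 hδ.d1
    have e3 : (1 - δ) * (va J.b0 * M) + δ * (va J.b1 * M) = (1 - a) * M := by rw [heq]; ring
    rw [e3] at h3
    have h5 := mul_le_mul_of_nonneg_left h3 (sq_nonneg M)
    have h6 := mul_le_mul_of_nonneg_left ha hd1
    have h7 := mul_le_mul_of_nonneg_left hb' hd0
    have e7 : (1 - a) * N * a - Real.log (1 + (1 - a) * N * (1 + a * (1 - a) / 2)) =
        gg ((1 - a) * N * (1 + a * (1 - a) / 2)) - (1 - a) ^ 2 * (N * (1 + a / 2)) := by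
      unfold gg; ring
    have e8 : (N : ℝ) * (1 + a / 2) = (1 - δ) * (N * (1 + (1 - va J.b0) / 2)) +
        δ * (N * (1 + (1 - va J.b1) / 2)) := by
      have : a = 1 - ((1 - δ) * va J.b0 + δ * va J.b1) := by linarith
      rw [this]; ring
    have h9 : M ^ 2 * hh ((1 - a) * M) - N * (1 + a / 2) ≤
        (1 - δ) * va (rowK3 J N J.b0 ja) + δ * va (rowK3 J N J.b1 jb) := by
      rw [e8]; linarith
    have h10 := mul_le_mul_of_nonneg_left h9 (sq_nonneg (1 - a))
    rw [e7]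
    linarith
  · rw [hf, rowKa4 hf, rowKb4 hf]
    simp only [rho, cond_false]
    refine h.form4 ?_
    obtain ⟨h01, h10⟩ := h4 hf
    have hb00 := hJ.b00 hf
    have hl0 := loglo_sound hja
    have hl1 := loglo_sound hjb
    rw [zarg4 hf] at hl0 hl1
    obtain ⟨L0, hL0⟩ : ∃ L, L = loglo (zarg J N J.b0) ja := ⟨_, rfl⟩
    obtain ⟨L1, hL1⟩ : ∃ L, L = loglo (zarg J N J.b1) jb := ⟨_, rfl⟩
    rw [← zarg4 hf, ← hL0] at hl0
    rw [← zarg4 hf, ← hL1] at hl1
    rw [← hL0, ← hL1] at h01 h10 ⊢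
    rw [zarg4 hf] at hl0 hl1
    obtain ⟨m, hm⟩ : ∃ m, m = va (mulo J) := ⟨_, rfl⟩
    have hm0 : 0 ≤ m := by rw [hm]; exact va_nonneg _
    have hl0' : va L0 ≤ Real.log (1 + va J.b0 * (N * m)) := by
      refine hl0.trans (Real.log_le_log ?_ ?_)
      · rw [va_add, va_S]
        have := va_nonneg (md (N * J.b0) (mulo J))
        linarith
      · rw [va_add, va_S]
        have := va_md (N * J.b0) (mulo J)
        rw [va_nmul, ← hm] at this
        linarith
    have hl1' : va L1 ≤ Real.log (1 + va J.b1 * (N * m)) := by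
      refine hl1.trans (Real.log_le_log ?_ ?_)
      · rw [va_add, va_S]
        have := va_nonneg (md (N * J.b1) (mulo J))
        linarith
      · rw [va_add, va_S]
        have := va_md (N * J.b1) (mulo J)
        rw [va_nmul, ← hm] at this
        linarith
    have hmle : m ≤ 1 + a * (1 - a) / 2 := by
      have := mulo_le hJ hδ.b1 hb0 hb1
      have e : (1 - (1 - a)) * (1 - a) = a * (1 - a) := by ring
      rwa [e, ← hm] at this
    have k0 := rowK4_le hJ hb00 (b' := J.b1) h01 h10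
    have k1 := rowK4_le hJ hb00 (b' := J.b0) h01 h10
    have B0 : 0 < va J.b0 := va_pos hb00
    have B01 := hJ.va_b01
    have hd : 0 < va J.b1 - va J.b0 := by linarith
    obtain ⟨c0, hc0⟩ : ∃ c, c = (va L0 * va J.b1 - va L1 * va J.b0) / (va J.b1 - va J.b0) :=
      ⟨_, rfl⟩
    obtain ⟨c1, hc1⟩ : ∃ c, c = (va L1 - va L0) / (va J.b1 - va J.b0) := ⟨_, rfl⟩
    rw [← hc0, ← hc1] at k0 k1
    have hc00 : 0 ≤ c0 := by
      rw [hc0]
      refine div_nonneg ?_ hd.le
      have h2 : ((L1 * J.b0 : ℕ) : ℝ) ≤ ((L0 * J.b1 : ℕ) : ℝ) := by exact_mod_cast h10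
      have h3 := div_le_div_of_nonneg_right h2 (by norm_num : (0:ℝ) ≤ 16777216 * 16777216)
      rw [sub_nonneg]
      calc _ = _ := ?_
        _ ≤ _ := h3
        _ = _ := ?_
      · unfold va; push_cast; ring
      · unfold va; push_cast; ring
    have k2 := mul_le_mul_of_nonneg_left k0 hd1
    have k3 := mul_le_mul_of_nonneg_left k1 hd0
    have k4 := inv_tangent (m := (va J.b0 + va J.b1) / 2) hb (by linarith) hc00
    have e5 : (1 - δ) * (c0 * va J.b1 / ((va J.b0 + va J.b1) / 2) ^ 2 + c1) +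
        δ * (c0 * va J.b0 / ((va J.b0 + va J.b1) / 2) ^ 2 + c1) =
        c0 * (2 * ((va J.b0 + va J.b1) / 2) - (1 - a)) / ((va J.b0 + va J.b1) / 2) ^ 2 + c1 := by
      rw [heq]; ring
    have k5 : (1 - δ) * va (rowK4 J L0 L1 J.b1) + δ * va (rowK4 J L0 L1 J.b0) ≤
        c0 / (1 - a) + c1 := by linarith
    have k6 := mul_le_mul_of_nonneg_right k5 hb.le
    have e6 : (c0 / (1 - a) + c1) * (1 - a) = (1 - δ) * va L0 + δ * va L1 := by
      have e7 : (c0 / (1 - a) + c1) * (1 - a) = c0 + c1 * (1 - a) := by field_simp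
      rw [e7, hc0, hc1, heq]
      field_simp
      ring
    rw [e6] at k6
    have k7 := mul_le_mul_of_nonneg_left hl0' hd1
    have k8 := mul_le_mul_of_nonneg_left hl1' hd0
    have k9 := log_concave (u := 1 + va J.b0 * (N * m)) (v := 1 + va J.b1 * (N * m))
      (add_pos_of_pos_of_nonneg one_pos (mul_nonneg (va_nonneg J.b0) (mul_nonneg hN hm0)))
      (add_pos_of_pos_of_nonneg one_pos (mul_nonneg (va_nonneg J.b1) (mul_nonneg hN hm0)))
      hd0 hδ.d1
    have e9 : (1 - δ) * (1 + va J.b0 * (N * m)) + δ * (1 + va J.b1 * (N * m)) =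
        1 + (1 - a) * (N * m) := by rw [heq]; ring
    rw [e9] at k9
    have k10 : Real.log (1 + (1 - a) * (N * m)) ≤
        Real.log (1 + (1 - a) * N * (1 + a * (1 - a) / 2)) := by
      refine Real.log_le_log
        (add_pos_of_pos_of_nonneg one_pos (mul_nonneg hb.le (mul_nonneg hN hm0))) ?_
      have := mul_le_mul_of_nonneg_left (mul_le_mul_of_nonneg_left hmle hN) hb.le
      linarith
    linarith

end Pool.Agent.Lib.MP_172a45_an.LT
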