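import Pool.Agent.Lib.MP_172a45_an.LT.Snd4

set_option autoImplicit false

/-!
# Soundness of the TC certificate checker, part 5: node values, `τ`-cells (helper58)
-/

namespace Pool.Agent.Lib.MP_172a45_an.LT

open Finset Real Pool.Agent.Lib.MP_172a45_an.F
open Pool.Agent.Lib.MP_172a45_an.LP (rk lk va va_nonneg va_zero va_S va_add va_nmul va_le va_lt
  va_pos va_sub va_sub_of_le lt_div_add_one div_le_cast va_div_up va_div_dn abs_dist rho
  mul_S_cast va_mul_div g_bound c_bound rk_pos neg_log_rk_le)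

/-- the row constant with its sign -/
noncomputable def KK (J : TJ) (K : ℕ) : ℝ := bif Nat.beq J.form 3 then va K else -va K

theorem RK.neg_le {J : TJ} {Ka Kb : ℕ} {δ s : ℝ} (h : RK J Ka Kb δ s) :
    -s ≤ (1 - δ) * KK J Ka + δ * KK J Kb := by
  unfold KK
  cases hf : Nat.beq J.form 3
  · rw [cond_false, cond_false]
    have := h.2 hf
    linarith
  · rw [cond_true, cond_true]
    have := h.1 hf
    linarith

theorem vcb_sound {J : TJ} {N K Y0 Y1 b nu cor kG : ℕ} (hb : b ≤ 16777216) (hk : kG < 4096)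
    (h : vcb J N K Y0 Y1 b nu cor kG = true) :
    N * va Y0 + (va Y1 - 4) * ((1 - va b) * N) + (cor : ℝ) / (16777216 * 16777216) +
      va nu * KK J K - 8 * N ≤ -(((kG : ℝ) - 512) * cc) := by
  have hG := lk_ge' hk
  obtain ⟨G, hGd⟩ : ∃ G, G = lk kG := ⟨_, rfl⟩
  rw [← hGd] at hG
  have hbr : ((16777216 - b : ℕ) : ℝ) = 16777216 * (1 - va b) := by
    rw [Nat.cast_sub hb]; unfold va; push_cast; ring
  have hY : va Y1 - 4 = va (Y1 - 67108864) - va (67108864 - Y1) := by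
    have e : va 67108864 = 4 := by norm_num [va]
    rw [← e]; exact va_sub_sub _ _
  obtain ⟨u, hu⟩ : ∃ u, u = Y1 - 67108864 := ⟨_, rfl⟩
  obtain ⟨v, hv⟩ : ∃ v, v = 67108864 - Y1 := ⟨_, rfl⟩
  rw [← hu, ← hv] at hY
  rw [hY]
  unfold vcb at h
  rw [← hu, ← hv, ← hGd] at h
  unfold KK
  cases hf : Nat.beq J.form 3
  · rw [hf, cond_false, Nat.ble_eq] at h
    rw [cond_false]
    have h2 : ((N * Y0 * 16777216 + N * u * (16777216 - b) + cor + G * 16777216 : ℕ) : ℝ) ≤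
        (((8 * N + 8) * 281474976710656 + N * v * (16777216 - b) + nu * K : ℕ) : ℝ) := by
      exact_mod_cast h
    rw [Nat.cast_add, Nat.cast_add, Nat.cast_add, Nat.cast_mul (N * u), hbr,
      Nat.cast_add, Nat.cast_add, Nat.cast_mul (N * v), hbr] at h2
    push_cast at h2
    have h3 : N * va Y0 + va u * ((1 - va b) * N) + (cor : ℝ) / (16777216 * 16777216) + va G ≤
        8 * N + 8 + va v * ((1 - va b) * N) + va nu * va K := by
      have h4 := div_le_div_of_nonneg_right h2 (by norm_num : (0:ℝ) ≤ 16777216 * 16777216)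
      calc _ = _ := ?_
        _ ≤ _ := h4
        _ = _ := ?_
      · unfold va; ring
      · unfold va; ring
    linarith
  · rw [hf, cond_true, Nat.ble_eq] at h
    rw [cond_true]
    have h2 : ((N * Y0 * 16777216 + N * u * (16777216 - b) + cor + nu * K +
        G * 16777216 : ℕ) : ℝ) ≤
        (((8 * N + 8) * 281474976710656 + N * v * (16777216 - b) : ℕ) : ℝ) := by
      exact_mod_cast h
    rw [Nat.cast_add, Nat.cast_add, Nat.cast_add, Nat.cast_add, Nat.cast_mul (N * u), hbr,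
      Nat.cast_add, Nat.cast_mul (N * v), hbr] at h2
    push_cast at h2
    have h3 : N * va Y0 + va u * ((1 - va b) * N) + (cor : ℝ) / (16777216 * 16777216) +
        va nu * va K + va G ≤ 8 * N + 8 + va v * ((1 - va b) * N) := by
      have h4 := div_le_div_of_nonneg_right h2 (by norm_num : (0:ℝ) ≤ 16777216 * 16777216)
      calc _ = _ := ?_
        _ ≤ _ := h4
        _ = _ := ?_
      · unfold va; ring
      · unfold va; ring
    linarith

theorem sum_Lv {J : TJ} {n : Nd} {N : ℕ} {a Δ : ℝ} {y X : Fin N → ℝ} (h : FV N a Δ y X)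
    (b δ : ℝ) :
    ∑ l, Lv J n b δ (y l) (X l) = (1 - δ) * (N * va n.Y0a + (va n.Y1a - 4) * (a * N)) +
      δ * (N * va n.Y0b + (va n.Y1b - 4) * (a * N)) - 8 * N -
      va n.nu * ∑ l, rho (Nat.beq J.form 3) b (y l) (X l) := by
  unfold Lv Yi
  rw [Finset.sum_sub_distrib, Finset.sum_sub_distrib, Finset.sum_add_distrib,
    ← Finset.mul_sum, ← Finset.mul_sum, ← Finset.mul_sum, Finset.sum_add_distrib,
    Finset.sum_add_distrib, ← Finset.mul_sum, ← Finset.mul_sum, h.sum]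
  simp only [Finset.sum_const, Finset.card_univ, Fintype.card_fin, nsmul_eq_mul]
  ring

theorem vch_def {J : TJ} {N Ka Kb : ℕ} {n : Nd} {kG : ℕ} (h : vch J N Ka Kb n kG = true) :
    (kG < 4096 ∧ J.kb ≤ kG) ∧
    (vcb J N Ka n.Y0a n.Y1a J.b0 n.nu (N * (n.Y1b - n.Y1a) * (J.b1 - J.b0) / 4 + 1) kG = true ∧
      vcb J N Kb n.Y0b n.Y1b J.b1 n.nu (N * (n.Y1b - n.Y1a) * (J.b1 - J.b0) / 4 + 1)
        (kG - J.kb) = true) := by
  unfold vch at h
  simp only [Bool.and_eq_true, Nat.blt_eq, Nat.ble_eq] at h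
  exact h

/-- the value at a node -/
theorem vch_sound {J : TJ} (hJ : JR J) {N Ka Kb : ℕ} {n : Nd} {kG : ℕ}
    (hc : vch J N Ka Kb n kG = true) {a Δ δ : ℝ} {y X : Fin N → ℝ} (h : FV N a Δ y X)
    (hδ : BC J (1 - a) δ)
    (hK : RK J Ka Kb δ (∑ l, rho (Nat.beq J.form 3) (1 - a) (y l) (X l))) :
    ∑ l, Lv J n (1 - a) δ (y l) (X l) ≤ -(((kG : ℝ) - 512) * cc) + δ * (J.kb * cc) := by
  obtain ⟨⟨hk, hkb⟩, h0, h1⟩ := vch_def hc
  rw [sum_Lv h]
  have hs := hK.neg_le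
  obtain ⟨s, hsd⟩ : ∃ s, s = ∑ l, rho (Nat.beq J.form 3) (1 - a) (y l) (X l) := ⟨_, rfl⟩
  rw [← hsd] at hs ⊢
  have hd0 := hδ.d0
  have hd1 : 0 ≤ 1 - δ := by linarith [hδ.d1]
  obtain ⟨cor, hcor⟩ : ∃ c, c = N * (n.Y1b - n.Y1a) * (J.b1 - J.b0) / 4 + 1 := ⟨_, rfl⟩
  rw [← hcor] at h0 h1
  have k0 := vcb_sound (hJ.b01.trans hJ.b1).le hk h0
  have k1 := vcb_sound hJ.b1.le (lt_of_le_of_lt (Nat.sub_le _ _) hk) h1
  rw [Nat.cast_sub hkb] at k1
  have m0 := mul_le_mul_of_nonneg_left k0 hd1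
  have m1 := mul_le_mul_of_nonneg_left k1 hd0
  have ms := mul_le_mul_of_nonneg_left hs (va_nonneg n.nu)
  -- the cross term
  have hN : (0:ℝ) ≤ N := Nat.cast_nonneg N
  have hB01 := hJ.va_b01
  have hx : N * (δ * (1 - δ) * ((va n.Y1b - va n.Y1a) * (va J.b1 - va J.b0))) ≤
      (cor : ℝ) / (16777216 * 16777216) := by
    have e1 : va n.Y1b - va n.Y1a ≤ va (n.Y1b - n.Y1a) := va_sub _ _
    have e2 : (va n.Y1b - va n.Y1a) * (va J.b1 - va J.b0) ≤
        va (n.Y1b - n.Y1a) * va (J.b1 - J.b0) := by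
      rw [va_sub_of_le hJ.b01.le]
      exact mul_le_mul_of_nonneg_right e1 (by linarith)
    have e3 : δ * (1 - δ) ≤ 1 / 4 := by nlinarith [sq_nonneg (δ - 1 / 2)]
    have e4 : 0 ≤ va (n.Y1b - n.Y1a) * va (J.b1 - J.b0) :=
      mul_nonneg (va_nonneg _) (va_nonneg _)
    have e5 : δ * (1 - δ) * ((va n.Y1b - va n.Y1a) * (va J.b1 - va J.b0)) ≤
        1 / 4 * (va (n.Y1b - n.Y1a) * va (J.b1 - J.b0)) :=
      (mul_le_mul_of_nonneg_left e2 (mul_nonneg hd0 hd1)).trans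
        (mul_le_mul_of_nonneg_right e3 e4)
    have e6 := mul_le_mul_of_nonneg_left e5 hN
    refine e6.trans ?_
    have e7 := lt_div_add_one (N * (n.Y1b - n.Y1a) * (J.b1 - J.b0)) 4 (by norm_num)
    rw [← hcor] at e7
    have e8 := div_le_div_of_nonneg_right e7 (by norm_num : (0:ℝ) ≤ 16777216 * 16777216)
    refine le_trans (le_of_eq ?_) e8
    rw [Nat.cast_mul, Nat.cast_mul]
    unfold va
    push_cast
    ring
  have e : (1 - δ) * ((va n.Y1a - 4) * ((1 - va J.b0) * N)) +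
      δ * ((va n.Y1b - 4) * ((1 - va J.b1) * N)) +
      N * (δ * (1 - δ) * ((va n.Y1b - va n.Y1a) * (va J.b1 - va J.b0))) =
      (1 - δ) * ((va n.Y1a - 4) * (a * N)) + δ * ((va n.Y1b - 4) * (a * N)) := by
    have : a = 1 - ((1 - δ) * va J.b0 + δ * va J.b1) := by linarith [hδ.eq]
    rw [this]
    ring
  obtain ⟨c, hcd⟩ : ∃ c, c = (cor : ℝ) / (16777216 * 16777216) := ⟨_, rfl⟩
  rw [← hcd] at hx m0 m1
  linarith


/-! ### the function `b R(b)` -/

/-- `R(b) = 1 + (1-b) σ` -/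
noncomputable def Rb (J : TJ) (b : ℝ) : ℝ := 1 + (1 - b) * va (16777216 - rk J.kD)

theorem RR_cast {J : TJ} {b : ℕ} (hb : b ≤ 16777216) :
    (RR J b : ℝ) / (16777216 * 16777216) = Rb J (va b) := by
  unfold RR Rb va
  rw [Nat.cast_add, Nat.cast_mul, Nat.cast_sub hb]
  push_cast
  ring

theorem Rb_pos {J : TJ} {b : ℝ} (hb : b < 1) : 0 < Rb J b := by
  unfold Rb
  have := mul_nonneg (by linarith : 0 ≤ 1 - b) (va_nonneg (16777216 - rk J.kD))
  linarith

/-- the factor between `b0` and `b` -/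
noncomputable def EE (J : TJ) (δ : ℝ) : ℝ := Real.exp (δ * (J.kb * cc))

theorem EE_pos (J : TJ) (δ : ℝ) : 0 < EE J δ := Real.exp_pos _

theorem EE3 {J : TJ} (hJ : JR J) (hf : Nat.beq J.form 3 = true) (δ : ℝ) : EE J δ = 1 := by
  unfold EE
  rw [hJ.kb3 hf]
  simp

theorem EE_le {J : TJ} (hJ : JR J) (hf : Nat.beq J.form 3 = false) {b δ : ℝ} (hδ : BC J b δ) :
    EE J δ * (va J.b0 * Rb J (va J.b0)) ≤ b * Rb J b := by
  have hb00 := hJ.b00 hf
  have B0 : 0 < va J.b0 := va_pos hb00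
  have B01 := hJ.va_b01
  have B1 := hJ.va_b1_lt
  have hR0 : 0 < Rb J (va J.b0) := Rb_pos (by linarith)
  have hR1 : 0 < Rb J (va J.b1) := Rb_pos B1
  have hd0 := hδ.d0
  have hd1 : 0 ≤ 1 - δ := by linarith [hδ.d1]
  obtain ⟨P0, hP0⟩ : ∃ P, P = va J.b0 * Rb J (va J.b0) := ⟨_, rfl⟩
  obtain ⟨P1, hP1⟩ : ∃ P, P = va J.b1 * Rb J (va J.b1) := ⟨_, rfl⟩
  have p0 : 0 < P0 := by rw [hP0]; positivity
  have p1 : 0 < P1 := by rw [hP1]; exact mul_pos (B0.trans B01) hR1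
  -- `exp (kb cc) P0 ≤ P1`
  have hkb := hJ.kb
  have hkb4 := hJ.kb4 hf
  have k1 : Real.exp (J.kb * cc) ≤ va (rk (512 - J.kb)) := by
    rw [← Real.le_log_iff_exp_le (va_pos (rk_pos (by omega)))]
    have h1 : -Real.log (va (rk (512 - J.kb))) ≤ (((512 - J.kb : ℕ) : ℝ) - 512) *
        Real.log 2 / 64 := LP.neg_log_rk (by omega)
    rw [Nat.cast_sub hkb] at h1
    push_cast at h1
    unfold cc
    linarith
  have k2 : P0 * va (rk (512 - J.kb)) ≤ P1 := by
    have h2 : ((J.b0 * RR J J.b0 * rk (512 - J.kb) : ℕ) : ℝ) ≤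
        ((J.b1 * RR J J.b1 * 16777216 : ℕ) : ℝ) := by exact_mod_cast hkb4
    have h3 := div_le_div_of_nonneg_right h2
      (by norm_num : (0:ℝ) ≤ 16777216 * 16777216 * (16777216 * 16777216))
    rw [hP0, hP1, ← RR_cast (hJ.b01.trans hJ.b1).le, ← RR_cast hJ.b1.le]
    calc _ = _ := ?_
      _ ≤ _ := h3
      _ = _ := ?_
    · unfold va; push_cast; ring
    · unfold va; push_cast; ring
  have k3 : J.kb * cc ≤ Real.log P1 - Real.log P0 := by
    rw [← Real.log_div p1.ne' p0.ne', Real.le_log_iff_exp_le (by positivity),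
      le_div_iff₀ p0, mul_comm]
    exact (mul_le_mul_of_nonneg_left k1 p0.le).trans k2
  have k4 := exp_comb_le (x := Real.log P0) (y := Real.log P1) hd1 hd0 (by ring)
  rw [Real.exp_log p0, Real.exp_log p1] at k4
  have k5 : EE J δ * P0 ≤ Real.exp ((1 - δ) * Real.log P0 + δ * Real.log P1) := by
    unfold EE
    rw [← Real.exp_log p0, ← Real.exp_add, Real.log_exp]
    refine Real.exp_le_exp.2 ?_
    have := mul_le_mul_of_nonneg_left k3 hd0
    linarith
  rw [← hP0]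
  refine k5.trans (k4.trans ?_)
  have e : b * Rb J b - ((1 - δ) * P0 + δ * P1) =
      va (16777216 - rk J.kD) * (δ * (1 - δ) * (va J.b1 - va J.b0) ^ 2) := by
    rw [hP0, hP1, hδ.eq]
    unfold Rb
    ring
  have e2 : 0 ≤ va (16777216 - rk J.kD) * (δ * (1 - δ) * (va J.b1 - va J.b0) ^ 2) :=
    mul_nonneg (va_nonneg _) (mul_nonneg (mul_nonneg hd0 hd1) (sq_nonneg _))
  linarith

/-- the unit in which everything is measured -/
noncomputable def Lam (J : TJ) (b δ : ℝ) : ℝ :=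
  EE J δ * (bif Nat.beq J.form 3 then b else va J.b0)

theorem Lam3 {J : TJ} (hJ : JR J) (hf : Nat.beq J.form 3 = true) (b δ : ℝ) : Lam J b δ = b := by
  unfold Lam
  rw [EE3 hJ hf, hf, cond_true, one_mul]

theorem Lam4 {J : TJ} (hf : Nat.beq J.form 3 = false) (b δ : ℝ) :
    Lam J b δ = EE J δ * va J.b0 := by
  unfold Lam
  rw [hf, cond_false]

theorem Lam_pos {J : TJ} (hJ : JR J) {b δ : ℝ} (hδ : BC J b δ) : 0 < Lam J b δ := by
  cases hf : Nat.beq J.form 3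
  · rw [Lam4 hf]
    exact mul_pos (EE_pos _ _) (va_pos (hJ.b00 hf))
  · rw [Lam3 hJ hf]
    exact hδ.b0

/-- the bound of the total -/
def RT (J : TJ) : ℕ :=
  bif Nat.beq J.form 3 then RR J J.b1 / 16777216 else RR J J.b0 / 16777216

theorem Lam_RT {J : TJ} (hJ : JR J) {b δ : ℝ} (hδ : BC J b δ) :
    Lam J b δ * va (RT J) ≤ b * Rb J b := by
  have key : ∀ b' : ℕ, b' ≤ 16777216 → va (RR J b' / 16777216) ≤ Rb J (va b') := by
    intro b' hb'
    rw [← RR_cast hb']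
    have h1 := div_le_cast (RR J b') 16777216
    have h2 := div_le_div_of_nonneg_right h1 (by norm_num : (0:ℝ) ≤ 16777216)
    refine h2.trans (le_of_eq ?_)
    rw [div_div]
    push_cast
    ring
  unfold RT
  cases hf : Nat.beq J.form 3
  · rw [Lam4 hf, cond_false]
    have h1 := key J.b0 (hJ.b01.trans hJ.b1).le
    have h2 := EE_le hJ hf hδ
    have h3 : EE J δ * va J.b0 * va (RR J J.b0 / 16777216) ≤
        EE J δ * va J.b0 * Rb J (va J.b0) :=
      mul_le_mul_of_nonneg_left h1 (mul_nonneg (EE_pos _ _).le (va_nonneg _))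
    refine h3.trans (le_trans (le_of_eq ?_) h2)
    ring
  · rw [Lam3 hJ hf, cond_true]
    refine mul_le_mul_of_nonneg_left ((key J.b1 hJ.b1.le).trans ?_) hδ.b0.le
    unfold Rb
    have h1 := hδ.le1 hJ
    have h2 := mul_le_mul_of_nonneg_right h1 (va_nonneg (16777216 - rk J.kD))
    linarith

/-! ### one `τ`-cell -/

/-- facts about the zeros used by all cells -/
structure ZA (J : TJ) (ymax : ℕ) {N : ℕ} (a : ℝ) (y X x : Fin N → ℝ) : Prop where
  v : ∀ l, XV J (1 - a) (X l) (x l)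
  z : ∀ l, ZZ (1 - a) (y l) (X l)
  x0 : ∀ l, 0 ≤ x l
  ym : ∀ l, y l ≤ va ymax

/-- the pointwise bound of `∑ Psi` on a `τ`-cell -/
theorem sum_Psi_le {J : TJ} (hJ : JR J) {ymax N Ka Kb : ℕ} {a Δ δ : ℝ} {y X x : Fin N → ℝ}
    (h : FV N a Δ y X) (hδ : BC J (1 - a) δ) (hZ : ZA J ymax a y X x) (hym : 0 < ymax)
    (hK : RK J Ka Kb δ (∑ l, rho (Nat.beq J.form 3) (1 - a) (y l) (X l)))
    {t0 t1 p q ka kb : ℕ} {na nb : Nd} {ws : List ℕ} (hp : 0 < p) (h01 : va t0 < va t1)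
    (hc : cols J t0 t1 p q na nb ymax 0 0 0 ws = true)
    (hva : vch J N Ka Kb na ka = true) (hvb : vch J N Ka Kb nb kb = true) {τ : ℝ}
    (h0 : va t0 ≤ τ) (h1 : τ ≤ va t1) :
    ∑ l, Psi (AA (y l) (X l) τ) (2 * va p * (1 + y l) + va q * x l) ≤
      (va t1 - τ) / (va t1 - va t0) * (-(((ka : ℝ) - 512) * cc)) +
      (τ - va t0) / (va t1 - va t0) * (-(((kb : ℝ) - 512) * cc)) + δ * (J.kb * cc) := by
  have hcell : ∀ l, YC J t0 t1 na nb (1 - a) δ (y l) (X l)
      (2 * va p * (1 + y l) + va q * x l) := fun l => by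
    refine cols_sound hJ hp hδ (hZ.v l) (hZ.z l) (hZ.x0 l) (hZ.ym l) ws 0 0 0 hc
      (by rw [va_zero]; exact (hZ.z l).y0) (Or.inl rfl) (Or.inl ?_)
    intro hws
    rw [hws, cols] at hc
    simp only [Bool.and_eq_true] at hc
    have := Nat.le_of_ble_eq_true hc.1
    omega
  choose gl al hal hlin hna hnb using hcell
  have ha := vch_sound hJ hva h hδ hK
  have hb := vch_sound hJ hvb h hδ hK
  have k1 := (Finset.sum_le_sum fun l _ => hlin l τ h0 h1).trans
    (sum_lin_le hal h01 h0 h1 ((Finset.sum_le_sum fun l _ => hna l).trans ha)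
      ((Finset.sum_le_sum fun l _ => hnb l).trans hb))
  refine k1.trans (le_of_eq ?_)
  have hh : va t1 - va t0 ≠ 0 := by linarith
  field_simp
  ring

theorem end_le {J : TJ} (hJ : JR J) {a : ℝ} (ha0 : 0 < a) (hb0 : va J.b0 ≤ 1 - a) {t : ℕ}
    (h : (16777216 - J.b0) * 16777216 ≤ t * (33554432 - J.b0)) : a / (1 + a) ≤ va t := by
  have hb : J.b0 < 16777216 := hJ.b01.trans hJ.b1
  have h1 : ((16777216 - J.b0 : ℕ) : ℝ) * 16777216 ≤ t * ((33554432 - J.b0 : ℕ) : ℝ) := by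
    exact_mod_cast h
  rw [Nat.cast_sub hb.le, Nat.cast_sub (by omega)] at h1
  push_cast at h1
  have h2 : (1 - va J.b0) ≤ va t * (2 - va J.b0) := by
    have h4 := div_le_div_of_nonneg_right h1 (by norm_num : (0:ℝ) ≤ 16777216 * 16777216)
    calc _ = _ := ?_
      _ ≤ _ := h4
      _ = _ := ?_
    · unfold va; ring
    · unfold va; ring
  have h3 := va_nonneg t
  rw [div_le_iff₀ (by linarith)]
  have h4 : va t ≤ 1 ∨ 1 ≤ va t := le_total _ _
  rcases h4 with h4 | h4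
  · nlinarith
  · nlinarith

/-- the position of `a/(1+a)` in the product cell -/
theorem frange {J : TJ} (hJ : JR J) {a δ : ℝ} (ha0 : 0 < a) (hδ : BC J (1 - a) δ) {tF t1 : ℕ}
    (h1 : tF * (33554432 - J.b1) ≤ (16777216 - J.b1) * 16777216)
    (h2 : (16777216 - J.b0) * 16777216 ≤ t1 * (33554432 - J.b0)) :
    va tF ≤ a / (1 + a) ∧ a / (1 + a) ≤ va t1 ∧ va tF < va t1 := by
  have hb0 := hδ.le0 hJ
  have hb1 := hδ.le1 hJ
  have hb := hδ.b0
  have hend : a / (1 + a) ≤ va t1 := end_le hJ ha0 hb0 h2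
  have hb1lt := hJ.va_b1_lt
  have hb01 := hJ.va_b01
  have hstart : va tF ≤ (1 - va J.b1) / (2 - va J.b1) := by
    have h4 : (tF : ℝ) * ((33554432 - J.b1 : ℕ) : ℝ) ≤
        ((16777216 - J.b1 : ℕ) : ℝ) * 16777216 := by exact_mod_cast h1
    rw [Nat.cast_sub hJ.b1.le, Nat.cast_sub (by have := hJ.b1; omega)] at h4
    push_cast at h4
    rw [le_div_iff₀ (by linarith)]
    have h5 := div_le_div_of_nonneg_right h4 (by norm_num : (0:ℝ) ≤ 16777216 * 16777216)
    calc _ = _ := ?_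
      _ ≤ _ := h5
      _ = _ := ?_
    · unfold va; ring
    · unfold va; ring
  have hstart2 : (1 - va J.b1) / (2 - va J.b1) ≤ a / (1 + a) := by
    rw [div_le_div_iff₀ (by linarith) (by linarith)]
    nlinarith
  have h5 : (1 - va J.b1) / (2 - va J.b1) < (1 - va J.b0) / (2 - va J.b0) := by
    rw [div_lt_div_iff₀ (by linarith) (by linarith)]
    nlinarith
  have h6 : (1 - va J.b0) / (2 - va J.b0) ≤ va t1 := by
    have h7 := end_le (a := 1 - va J.b0) hJ (by linarith) (by linarith) h2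
    have e : 1 + (1 - va J.b0) = 2 - va J.b0 := by ring
    rwa [e] at h7
  exact ⟨hstart.trans hstart2, hend, by linarith⟩

/-- the product cell: `exp (∑ Psi)` at one `τ`, both nodes with the same index -/
theorem exp_Psi_le {J : TJ} (hJ : JR J) {ymax N Ka Kb : ℕ} {a Δ δ : ℝ} {y X x : Fin N → ℝ}
    (h : FV N a Δ y X) (hδ : BC J (1 - a) δ) (hZ : ZA J ymax a y X x) (hym : 0 < ymax)
    (hK : RK J Ka Kb δ (∑ l, rho (Nat.beq J.form 3) (1 - a) (y l) (X l)))
    {t0 t1 p q k : ℕ} {na nb : Nd} {ws : List ℕ} (hp : 0 < p) (h01 : va t0 < va t1)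
    (hc : cols J t0 t1 p q na nb ymax 0 0 0 ws = true)
    (hva : vch J N Ka Kb na k = true) (hvb : vch J N Ka Kb nb k = true) {τ : ℝ}
    (h0 : va t0 ≤ τ) (h1 : τ ≤ va t1) :
    Real.exp (∑ l, Psi (AA (y l) (X l) τ) (2 * va p * (1 + y l) + va q * x l)) ≤
      va (rg k) * EE J δ := by
  have k1 := sum_Psi_le hJ h hδ hZ hym hK hp h01 hc hva hvb h0 h1
  have hh : va t1 - va t0 ≠ 0 := by linarith
  have e : (va t1 - τ) / (va t1 - va t0) * (-(((k : ℝ) - 512) * cc)) +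
      (τ - va t0) / (va t1 - va t0) * (-(((k : ℝ) - 512) * cc)) + δ * (J.kb * cc) =
      -(((k : ℝ) - 512) * cc) + δ * (J.kb * cc) := by
    field_simp
    ring
  rw [e] at k1
  refine (Real.exp_le_exp.2 k1).trans ?_
  rw [Real.exp_add]
  exact mul_le_mul_of_nonneg_right (exp_le_rg k) (Real.exp_pos _).le

end Pool.Agent.Lib.MP_172a45_an.LT
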