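import Pool.Agent.Lib.MP_172a45_an.F.TC

set_option autoImplicit false

/-!
# The first term of (TC) for small `b` (helper58)
-/

namespace Pool.Agent.Lib.MP_172a45_an.LT

open Finset Real Pool.Agent.Lib.MP_172a45_an.F

theorem Iy_mul_le {a y1 X1 y2 X2 : ℝ} (ha : 0 ≤ a) (hy1 : 0 ≤ y1) (hX1 : 0 ≤ X1)
    (h1 : X1 ≤ 2 * (1 + y1)) (hy2 : 0 ≤ y2) (hX2 : 0 ≤ X2) (h2 : X2 ≤ 2 * (1 + y2)) :
    Iy a y1 X1 * Iy a y2 X2 ≤ (a / (1 + a)) ^ 2 * ((1 + y1) * X2 + X1 * (1 + y2)) := by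
  unfold Iy
  have e : a / (1 + a) * √(X1 * (2 * (1 + y1) - X1)) * (a / (1 + a) * √(X2 * (2 * (1 + y2) - X2)))
      = (a / (1 + a)) ^ 2 * √(X1 * (2 * (1 + y1) - X1) * (X2 * (2 * (1 + y2) - X2))) := by
    rw [Real.sqrt_mul (mul_nonneg hX1 (by linarith))]; ring
  rw [e]
  refine mul_le_mul_of_nonneg_left ?_ (sq_nonneg _)
  refine (Real.sqrt_le_left (by positivity)).2 ?_
  have k1 : X1 * (2 * (1 + y1) - X1) ≤ 2 * (1 + y1) * X1 := by nlinarith
  have k2 : X2 * (2 * (1 + y2) - X2) ≤ 2 * (1 + y2) * X2 := by nlinarith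
  have k3 := mul_le_mul k1 k2 (mul_nonneg hX2 (by linarith)) (by positivity)
  refine k3.trans ?_
  nlinarith [sq_nonneg ((1 + y1) * X2 - X1 * (1 + y2))]

theorem prod_max_le_exp {N : ℕ} (A w : Fin N → ℝ) (hw : ∀ k, 0 < w k) :
    ∏ k, max (A k) (w k) ≤ Real.exp (∑ k, Psi (A k) (w k)) := by
  rw [Real.exp_sum]
  refine Finset.prod_le_prod (fun k _ => le_trans (hw k).le (le_max_right _ _)) fun k _ => ?_
  have hM : 0 < max (A k) (w k) := lt_of_lt_of_le (hw k) (le_max_right _ _)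
  unfold Psi
  rw [Real.exp_add, Real.exp_log hM]
  have h1 : 1 ≤ Real.exp (w k / max (A k) (w k)) := Real.one_le_exp (div_nonneg (hw k).le hM.le)
  nlinarith

/-- the imaginary part of the first term -/
theorem im_part_le {N : ℕ} {a Δ p : ℝ} {y X : Fin N → ℝ} (h : FV N a Δ y X) (hN : 0 < N)
    (hp : 0 < p) :
    1 / N * (∑ k, Iy a (y k) (X k)) *
        ∑ k, Iy a (y k) (X k) * ∏ l ∈ univ.erase k, AA (y l) (X l) (a / (1 + a)) ≤
      3 / 8 * ((∑ k, X k) / p) *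
        ∏ k, max (AA (y k) (X k) (a / (1 + a))) (2 * p * (1 + y k)) := by
  have ha0 := h.a0
  have ha1 := h.a1
  have hN0 : (0 : ℝ) < N := by exact_mod_cast hN
  set M : Fin N → ℝ := fun k => max (AA (y k) (X k) (a / (1 + a))) (2 * p * (1 + y k)) with hM
  have hMp : ∀ k, 2 * p * (1 + y k) ≤ M k := fun k => le_max_right _ _
  have hM0 : ∀ k, 0 < M k := fun k =>
    lt_of_lt_of_le (by have := h.y0 k; positivity) (hMp k)
  have hQ : 0 ≤ ∏ k, M k := Finset.prod_nonneg fun k _ => (hM0 k).le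
  have h1 : ∀ k, Iy a (y k) (X k) * ∏ l ∈ univ.erase k, AA (y l) (X l) (a / (1 + a)) ≤
      Iy a (y k) (X k) / M k * ∏ k, M k := by
    intro k
    have h2 : ∏ l ∈ univ.erase k, AA (y l) (X l) (a / (1 + a)) ≤ ∏ l ∈ univ.erase k, M l :=
      Finset.prod_le_prod (fun l _ => Real.sqrt_nonneg _) fun l _ => le_max_left _ _
    have h3 : ∏ l, M l = M k * ∏ l ∈ univ.erase k, M l :=
      (Finset.mul_prod_erase univ M (Finset.mem_univ k)).symm
    rw [h3]
    have : M k ≠ 0 := (hM0 k).ne'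
    calc Iy a (y k) (X k) * ∏ l ∈ univ.erase k, AA (y l) (X l) (a / (1 + a)) ≤
          Iy a (y k) (X k) * ∏ l ∈ univ.erase k, M l :=
          mul_le_mul_of_nonneg_left h2 (Iy_nonneg ha0.le _ _)
      _ = _ := by field_simp
  have h2 : ∑ k, Iy a (y k) (X k) * ∏ l ∈ univ.erase k, AA (y l) (X l) (a / (1 + a)) ≤
      (∑ k, Iy a (y k) (X k) / M k) * ∏ k, M k := by
    rw [Finset.sum_mul]
    exact Finset.sum_le_sum fun k _ => h1 k
  have hI0 : 0 ≤ ∑ k, Iy a (y k) (X k) := Finset.sum_nonneg fun k _ => Iy_nonneg ha0.le _ _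
  have hc : (a / (1 + a)) ^ 2 ≤ 1 / 4 := by
    rw [div_pow, div_le_div_iff₀ (by positivity) (by norm_num)]
    nlinarith
  have h3 : (∑ k, Iy a (y k) (X k)) * ∑ k, Iy a (y k) (X k) / M k ≤
      1 / 4 * (∑ j, ∑ k, ((1 + y j) * X k + X j) / (2 * p)) := by
    rw [Finset.sum_mul_sum, Finset.mul_sum]
    refine Finset.sum_le_sum fun j _ => ?_
    rw [Finset.mul_sum]
    refine Finset.sum_le_sum fun k _ => ?_
    have k1 := Iy_mul_le ha0.le (h.y0 j) (h.X0 j) (h.X2 j) (h.y0 k) (h.X0 k) (h.X2 k)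
    have hyj := h.y0 j
    have hyk := h.y0 k
    have hXj := h.X0 j
    have hXk := h.X0 k
    have k2 : (1 + y j) * X k + X j * (1 + y k) ≤ ((1 + y j) * X k + X j) / (2 * p) * M k := by
      have k3 : ((1 + y j) * X k + X j) / (2 * p) * (2 * p * (1 + y k)) ≤
          ((1 + y j) * X k + X j) / (2 * p) * M k :=
        mul_le_mul_of_nonneg_left (hMp k) (by positivity)
      refine le_trans ?_ k3
      have e : ((1 + y j) * X k + X j) / (2 * p) * (2 * p * (1 + y k)) =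
          ((1 + y j) * X k + X j) * (1 + y k) := by field_simp
      rw [e]
      nlinarith [mul_nonneg (mul_nonneg (by linarith : 0 ≤ 1 + y j) hXk) hyk]
    have k4 : 0 ≤ (1 + y j) * X k + X j * (1 + y k) := by positivity
    have k5 : (a / (1 + a)) ^ 2 * ((1 + y j) * X k + X j * (1 + y k)) ≤
        1 / 4 * (((1 + y j) * X k + X j) / (2 * p) * M k) :=
      mul_le_mul hc k2 k4 (by norm_num)
    have e2 : Iy a (y j) (X j) * (Iy a (y k) (X k) / M k) =
        (Iy a (y j) (X j) * Iy a (y k) (X k)) / M k := by ring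
    rw [e2, div_le_iff₀ (hM0 k)]
    linarith
  have h4 : ∑ j, ∑ k, ((1 + y j) * X k + X j) / (2 * p) ≤ 3 * N * (∑ k, X k) / (2 * p) := by
    have e1 : ∀ j, ∑ k, ((1 + y j) * X k + X j) / (2 * p) =
        ((1 + y j) * (∑ k, X k) + N * X j) / (2 * p) := by
      intro j
      rw [← Finset.sum_div, Finset.sum_add_distrib, ← Finset.mul_sum]
      simp
    simp only [e1]
    rw [← Finset.sum_div, Finset.sum_add_distrib, ← Finset.sum_mul, ← Finset.mul_sum,
      Finset.sum_add_distrib, h.sum]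
    simp only [Finset.sum_const, Finset.card_univ, Fintype.card_fin, nsmul_eq_mul, mul_one]
    refine div_le_div_of_nonneg_right ?_ (by positivity)
    have hX0 : 0 ≤ ∑ k, X k := Finset.sum_nonneg fun k _ => h.X0 k
    nlinarith [mul_nonneg hN0.le hX0, mul_nonneg (mul_nonneg (by linarith : 0 ≤ 1 - a) hN0.le) hX0]
  have h5 : 1 / N * (∑ k, Iy a (y k) (X k)) *
        ∑ k, Iy a (y k) (X k) * ∏ l ∈ univ.erase k, AA (y l) (X l) (a / (1 + a)) ≤
      1 / N * (∑ k, Iy a (y k) (X k)) * ((∑ k, Iy a (y k) (X k) / M k) * ∏ k, M k) :=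
    mul_le_mul_of_nonneg_left h2 (by positivity)
  refine h5.trans ?_
  have e3 : 1 / N * (∑ k, Iy a (y k) (X k)) * ((∑ k, Iy a (y k) (X k) / M k) * ∏ k, M k) =
      1 / N * ((∑ k, Iy a (y k) (X k)) * ∑ k, Iy a (y k) (X k) / M k) * ∏ k, M k := by ring
  rw [e3]
  refine mul_le_mul_of_nonneg_right ?_ hQ
  have h6 : (∑ k, Iy a (y k) (X k)) * ∑ k, Iy a (y k) (X k) / M k ≤
      1 / 4 * (3 * N * (∑ k, X k) / (2 * p)) := by linarith
  have h7 := mul_le_mul_of_nonneg_left h6 (by positivity : (0:ℝ) ≤ 1 / N)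
  refine h7.trans (le_of_eq ?_)
  field_simp
  ring

end Pool.Agent.Lib.MP_172a45_an.LT
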