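import Pool.Agent.Lib.MP_172a45_an.LT.Snd5
import Pool.Agent.Lib.MP_172a45_an.LT.SndF

set_option autoImplicit false

/-!
# Soundness of the TC certificate checker, part 6: the theorem (helper58)
-/

namespace Pool.Agent.Lib.MP_172a45_an.LT

open Finset Real Pool.Agent.Lib.MP_172a45_an.F
open Pool.Agent.Lib.MP_172a45_an.LP (rk lk va va_nonneg va_zero va_S va_add va_nmul va_le va_lt
  va_pos va_sub va_sub_of_le lt_div_add_one div_le_cast va_div_up va_div_dn abs_dist rho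
  mul_S_cast va_mul_div g_bound c_bound rk_pos neg_log_rk_le)

/-! ### the integral over one `τ`-cell -/

/-- the sum of the four pieces -/
def P4 (t0 h ka kb : ℕ) : ℕ :=
  h * ((12 * t0 + h) * rg ka + (24 * t0 + 6 * h) * rg ((ka * 3 + kb) / 4) +
    (24 * t0 + 12 * h) * rg ((ka * 2 + kb * 2) / 4) + (24 * t0 + 18 * h) * rg ((ka + kb * 3) / 4) +
    (12 * t0 + 11 * h) * rg kb)

theorem piece_sum (t0 h ka kb : ℕ) : piece t0 h ka kb 0 + piece t0 h ka kb 1 +
    piece t0 h ka kb 2 + piece t0 h ka kb 3 = P4 t0 h ka kb := by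
  have k0 : piece t0 h ka kb 0 =
      h * ((12 * t0 + h) * rg ka + (12 * t0 + 2 * h) * rg ((ka * 3 + kb) / 4)) := by
    unfold piece
    have e1 : (ka * (4 - 0) + kb * 0) / 4 = ka := by omega
    have e2 : (ka * (3 - 0) + kb * (0 + 1)) / 4 = (ka * 3 + kb) / 4 := by omega
    rw [e1, e2]; ring
  have k1 : piece t0 h ka kb 1 = h * ((12 * t0 + 4 * h) * rg ((ka * 3 + kb) / 4) +
      (12 * t0 + 5 * h) * rg ((ka * 2 + kb * 2) / 4)) := by
    unfold piece
    have e1 : (ka * (4 - 1) + kb * 1) / 4 = (ka * 3 + kb) / 4 := by omega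
    have e2 : (ka * (3 - 1) + kb * (1 + 1)) / 4 = (ka * 2 + kb * 2) / 4 := by omega
    rw [e1, e2]
  have k2 : piece t0 h ka kb 2 = h * ((12 * t0 + 7 * h) * rg ((ka * 2 + kb * 2) / 4) +
      (12 * t0 + 8 * h) * rg ((ka + kb * 3) / 4)) := by
    unfold piece
    have e1 : (ka * (4 - 2) + kb * 2) / 4 = (ka * 2 + kb * 2) / 4 := by omega
    have e2 : (ka * (3 - 2) + kb * (2 + 1)) / 4 = (ka + kb * 3) / 4 := by omega
    rw [e1, e2]
  have k3 : piece t0 h ka kb 3 = h * ((12 * t0 + 10 * h) * rg ((ka + kb * 3) / 4) +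
      (12 * t0 + 11 * h) * rg kb) := by
    unfold piece
    have e1 : (ka * (4 - 3) + kb * 3) / 4 = (ka + kb * 3) / 4 := by omega
    have e2 : (ka * (3 - 3) + kb * (3 + 1)) / 4 = kb := by omega
    rw [e1, e2]
  rw [k0, k1, k2, k3]
  unfold P4
  ring

theorem P4_cast {t0 t1 : ℕ} (h01 : t0 ≤ t1) (ka kb : ℕ) :
    (va t1 - va t0) / 96 * ((11 * va t0 + va t1) * va (rg ka) +
      6 * ((3 * va t0 + va t1) * va (rg ((ka * 3 + kb) / 4))) +
      12 * ((va t0 + va t1) * va (rg ((ka * 2 + kb * 2) / 4))) +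
      6 * ((va t0 + 3 * va t1) * va (rg ((ka + kb * 3) / 4))) +
      (va t0 + 11 * va t1) * va (rg kb)) =
    (P4 t0 (t1 - t0) ka kb : ℝ) / (96 * (16777216 * 16777216 * 16777216)) := by
  unfold P4
  generalize rg ka = G0
  generalize rg ((ka * 3 + kb) / 4) = G1
  generalize rg ((ka * 2 + kb * 2) / 4) = G2
  generalize rg ((ka + kb * 3) / 4) = G3
  generalize rg kb = G4
  unfold va
  push_cast [Nat.cast_sub h01]
  ring

/-- the rounding, form 3 -/
theorem cint3 {J : TJ} (hf : Nat.beq J.form 3 = true) {N t0 t1 p q ka kb : ℕ} (hN : 0 < N)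
    (hp : 0 < p) (hq : 0 < q) :
    1 / (N * (va q * va p)) * Real.exp (-2) *
      ((P4 t0 (t1 - t0) ka kb : ℝ) / (96 * (16777216 * 16777216 * 16777216))) ≤
      va (cint J N t0 t1 p q ka kb) := by
  unfold cint
  rw [hf, cond_true, piece_sum]
  have hNr : (0:ℝ) < N := by exact_mod_cast hN
  have hpr : (0:ℝ) < p := by exact_mod_cast hp
  have hqr : (0:ℝ) < q := by exact_mod_cast hq
  have h1 := lt_div_add_one (P4 t0 (t1 - t0) ka kb * 13534) (9600000 * N * (q * p))
    (by positivity)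
  have h2 := div_le_div_of_nonneg_right h1 (by norm_num : (0:ℝ) ≤ 16777216)
  refine le_trans ?_ h2
  rw [Nat.cast_mul (P4 _ _ _ _), Nat.cast_mul (9600000 * N), Nat.cast_mul 9600000,
    Nat.cast_mul q]
  obtain ⟨P, hP⟩ : ∃ P : ℝ, P = (P4 t0 (t1 - t0) ka kb : ℝ) := ⟨_, rfl⟩
  have hP0 : 0 ≤ P := by rw [hP]; exact Nat.cast_nonneg _
  rw [← hP]
  push_cast
  have e : P * 13534 / (9600000 * (N:ℝ) * (q * p)) / 16777216 =
      13534 / 100000 * (1 / (N * (va q * va p)) *
        (P / (96 * (16777216 * 16777216 * 16777216)))) := by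
    unfold va
    field_simp
    ring
  rw [e]
  have h3 : 0 ≤ 1 / (N * (va q * va p)) * (P / (96 * (16777216 * 16777216 * 16777216))) := by
    have := va_pos hp
    have := va_pos hq
    positivity
  calc _ = Real.exp (-2) * (1 / (N * (va q * va p)) *
        (P / (96 * (16777216 * 16777216 * 16777216)))) := by ring
    _ ≤ _ := mul_le_mul_of_nonneg_right exp_neg_two_le h3

/-- the rounding, form 4 -/
theorem cint4 {J : TJ} (hf : Nat.beq J.form 3 = false) {N t0 t1 p q ka kb : ℕ} (hN : 0 < N)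
    (hp : 0 < p) (hb : 0 < J.b0) :
    1 / (N * ((va q + va p) * va p * va J.b0)) * Real.exp (-2) *
      ((P4 t0 (t1 - t0) ka kb : ℝ) / (96 * (16777216 * 16777216 * 16777216))) ≤
      va (cint J N t0 t1 p q ka kb) := by
  unfold cint
  rw [hf, cond_false, piece_sum]
  have hNr : (0:ℝ) < N := by exact_mod_cast hN
  have hpr : (0:ℝ) < p := by exact_mod_cast hp
  have hqr : (0:ℝ) ≤ q := Nat.cast_nonneg q
  have hbr : (0:ℝ) < J.b0 := by exact_mod_cast hb
  have h1 := lt_div_add_one (P4 t0 (t1 - t0) ka kb * 13534 * 16777216)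
    (9600000 * N * ((q + p) * p * J.b0)) (by positivity)
  have h2 := div_le_div_of_nonneg_right h1 (by norm_num : (0:ℝ) ≤ 16777216)
  refine le_trans ?_ h2
  rw [Nat.cast_mul (P4 _ _ _ _ * _), Nat.cast_mul (P4 _ _ _ _), Nat.cast_mul (9600000 * N),
    Nat.cast_mul 9600000, Nat.cast_mul ((q + p) * p), Nat.cast_mul (q + p), Nat.cast_add]
  obtain ⟨P, hP⟩ : ∃ P : ℝ, P = (P4 t0 (t1 - t0) ka kb : ℝ) := ⟨_, rfl⟩
  have hP0 : 0 ≤ P := by rw [hP]; exact Nat.cast_nonneg _
  rw [← hP]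
  push_cast
  have e : P * 13534 * 16777216 / (9600000 * (N:ℝ) * ((q + p) * p * J.b0)) / 16777216 =
      13534 / 100000 * (1 / (N * ((va q + va p) * va p * va J.b0)) *
        (P / (96 * (16777216 * 16777216 * 16777216)))) := by
    have : (q : ℝ) + p ≠ 0 := by linarith
    unfold va
    field_simp
    ring
  rw [e]
  have h3 : 0 ≤ 1 / (N * ((va q + va p) * va p * va J.b0)) *
      (P / (96 * (16777216 * 16777216 * 16777216))) := by
    have := va_pos hp
    have := va_nonneg q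
    have := va_pos hb
    positivity
  calc _ = Real.exp (-2) * (1 / (N * ((va q + va p) * va p * va J.b0)) *
        (P / (96 * (16777216 * 16777216 * 16777216)))) := by ring
    _ ≤ _ := mul_le_mul_of_nonneg_right exp_neg_two_le h3


/-- the one-body bound with a larger `w` -/
theorem tc_pt {N : ℕ} {y X w : Fin N → ℝ} {G : ℝ → ℝ} {τ A0 B0 : ℝ}
    (hG : ∀ M : Fin N → ℝ, (∀ k, 0 < M k) → (∀ k, AA (y k) (X k) τ ≤ M k) →
      G τ ≤ (∑ k, X k / M k) * (∑ k, (2 * (1 + y k) - X k) / M k) * ∏ k, M k)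
    (hy : ∀ k, 0 ≤ y k) (hX0 : ∀ k, 0 ≤ X k) (hX2 : ∀ k, X k ≤ 2 * (1 + y k))
    (hA0 : 0 < A0) (hB0 : 0 < B0)
    (hw : ∀ k, X k / A0 + (2 * (1 + y k) - X k) / B0 ≤ w k) :
    G τ ≤ A0 * B0 * Real.exp (-2) * Real.exp (∑ k, Psi (AA (y k) (X k) τ) (w k)) := by
  refine (tc_pointwise hG hy hX0 hX2 hA0 hB0).trans ?_
  refine mul_le_mul_of_nonneg_left (Real.exp_le_exp.2 (Finset.sum_le_sum fun k _ => ?_))
    (by positivity)
  refine Psi_mono ?_ (hw k)
  have h1 := hX0 k
  have h2 := hX2 k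
  have h3 := hy k
  rcases h1.eq_or_lt with h | h
  · rw [← h]
    have : 0 < (2 * (1 + y k) - 0) / B0 := div_pos (by linarith) hB0
    simpa using this
  · have h4 : 0 < X k / A0 := by positivity
    have h5 : 0 ≤ (2 * (1 + y k) - X k) / B0 := div_nonneg (by linarith) hB0.le
    linarith

/-- soundness of one `τ`-cell -/
theorem cell_sound {J : TJ} (hJ : JR J) {ymax N Ka Kb : ℕ} {a Δ δ : ℝ} {y X x : Fin N → ℝ}
    (h : FV N a Δ y X) (hN : 0 < N) (hδ : BC J (1 - a) δ) (hZ : ZA J ymax a y X x)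
    (hym : 0 < ymax)
    (hK : RK J Ka Kb δ (∑ l, rho (Nat.beq J.form 3) (1 - a) (y l) (X l)))
    {G : ℝ → ℝ} (hGc : Continuous G)
    (hG : ∀ τ : ℝ, ∀ M : Fin N → ℝ, (∀ k, 0 < M k) → (∀ k, AA (y k) (X k) τ ≤ M k) →
      G τ ≤ (∑ k, X k / M k) * (∑ k, (2 * (1 + y k) - X k) / M k) * ∏ k, M k)
    {t0 t1 p q ka kb : ℕ} {na nb : Nd} {ws : List ℕ} (hp : 0 < p) (hq : 0 < q) (h01 : t0 < t1)
    (hc : cols J t0 t1 p q na nb ymax 0 0 0 ws = true)
    (hva : vch J N Ka Kb na ka = true) (hvb : vch J N Ka Kb nb kb = true) :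
    ∫ τ in (va t0)..(va t1), τ * G τ ≤
      N * Lam J (1 - a) δ * va (cint J N t0 t1 p q ka kb) := by
  have h01' : va t0 < va t1 := va_lt h01
  have hb := hδ.b0
  have hpp : 0 < va p := va_pos hp
  have hqq : 0 < va q := va_pos hq
  have hNr : (0:ℝ) < N := by exact_mod_cast hN
  -- the constants
  obtain ⟨A0, B0, hA0, hB0, hw, hAB⟩ : ∃ A0 B0 : ℝ, 0 < A0 ∧ 0 < B0 ∧
      (∀ k, X k / A0 + (2 * (1 + y k) - X k) / B0 ≤ 2 * va p * (1 + y k) + va q * x k) ∧
      A0 * B0 * Real.exp (-2) * EE J δ *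
        ((P4 t0 (t1 - t0) ka kb : ℝ) / (96 * (16777216 * 16777216 * 16777216))) ≤
        N * Lam J (1 - a) δ * va (cint J N t0 t1 p q ka kb) := by
    obtain ⟨Q, hQ⟩ : ∃ Q : ℝ, Q = (P4 t0 (t1 - t0) ka kb : ℝ) /
      (96 * (16777216 * 16777216 * 16777216)) := ⟨_, rfl⟩
    rw [← hQ]
    cases hf : Nat.beq J.form 3
    · have hb0 := va_pos (hJ.b00 hf)
      have hci := cint4 hf (t0 := t0) (t1 := t1) (p := p) (q := q) (ka := ka) (kb := kb) hN hp
        (hJ.b00 hf)
      rw [← hQ] at hci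
      refine ⟨1 / (va q + va p), 1 / va p, by positivity, by positivity, fun k => ?_, ?_⟩
      · rw [← (hZ.v k).f4 hf]
        refine le_of_eq ?_
        field_simp
        ring
      · rw [Lam4 hf]
        have hE := EE_pos J δ
        have k1 := mul_le_mul_of_nonneg_left hci
          (by positivity : 0 ≤ N * (EE J δ * va J.b0))
        refine le_trans (le_of_eq ?_) k1
        field_simp
    · have hci := cint3 hf (t0 := t0) (t1 := t1) (p := p) (q := q) (ka := ka) (kb := kb) hN hp hq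
      rw [← hQ] at hci
      refine ⟨(1 - a) / va q, 1 / va p, by positivity, by positivity, fun k => ?_, ?_⟩
      · have hXx := (hZ.v k).f3 hf
        have h0 := (hZ.z k).X0
        have e : X k / ((1 - a) / va q) + (2 * (1 + y k) - X k) / (1 / va p) =
            2 * va p * (1 + y k) + va q * x k - va p * X k := by
          rw [hXx]
          field_simp
          ring
        rw [e]
        have := mul_nonneg hpp.le h0
        linarith
      · rw [Lam3 hJ hf, EE3 hJ hf]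
        have k1 := mul_le_mul_of_nonneg_left hci (by positivity : 0 ≤ N * (1 - a))
        refine le_trans (le_of_eq ?_) k1
        field_simp
  have key := cell_int (f := fun τ => τ * G τ) (by fun_prop) (t0 := va t0) (t1 := va t1)
    (c := A0 * B0 * Real.exp (-2) * EE J δ) (La := -(((ka : ℝ) - 512) * cc))
    (Lb := -(((kb : ℝ) - 512) * cc)) (ka := ka) (kb := kb) (va_nonneg _) h01'
    (by have := EE_pos J δ; positivity) (fun τ h0 h1 => by
      have hτ0 : 0 ≤ τ := (va_nonneg _).trans h0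
      have k1 := tc_pt (hG τ) h.y0 h.X0 h.X2 hA0 hB0 hw
      have k2 := sum_Psi_le hJ h hδ hZ hym hK hp h01' hc hva hvb h0 h1
      have k3 := Real.exp_le_exp.2 k2
      rw [Real.exp_add] at k3
      have k4 := k1.trans (mul_le_mul_of_nonneg_left k3 (by positivity))
      refine (mul_le_mul_of_nonneg_left k4 hτ0).trans (le_of_eq ?_)
      unfold EE
      ring) le_rfl le_rfl
  refine key.trans ?_
  rw [P4_cast h01.le]
  exact hAB

/-! ### all `τ`-cells -/

theorem tcs_cons {J : TJ} {ymax t0 : ℕ} {c : TT} {cs : List TT}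
    (h : tcs J ymax t0 (c :: cs) = true) :
    (t0 < c.t1 ∧ 0 < c.p ∧ 0 < c.q) ∧
      cols J t0 c.t1 c.p c.q c.na c.nb ymax 0 0 0 c.ys = true ∧ tcs J ymax c.t1 cs = true := by
  rw [tcs] at h
  simp only [Bool.and_eq_true, Nat.blt_eq] at h
  exact h

theorem gsm_cons {J : TJ} {N Ka Kb R t0 : ℕ} {c : TT} {cs : List TT} {g : ℕ} {gs : List ℕ}
    {acc : ℕ} (h : gsm J N Ka Kb R t0 (c :: cs) (g :: gs) acc = true) :
    (vch J N Ka Kb c.na (g / 4096) = true ∧ vch J N Ka Kb c.nb (g % 4096) = true) ∧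
    gsm J N Ka Kb R c.t1 cs gs
      (acc + cint J N t0 c.t1 c.p c.q (g / 4096) (g % 4096)) = true := by
  rw [gsm] at h
  simpa only [Bool.and_eq_true] using h

/-- soundness of all `τ`-cells -/
theorem cells_sound {J : TJ} (hJ : JR J) {ymax N Ka Kb R : ℕ} {a Δ δ : ℝ} {y X x : Fin N → ℝ}
    (h : FV N a Δ y X) (hN : 0 < N) (hδ : BC J (1 - a) δ) (hZ : ZA J ymax a y X x)
    (hym : 0 < ymax)
    (hK : RK J Ka Kb δ (∑ l, rho (Nat.beq J.form 3) (1 - a) (y l) (X l)))
    {G : ℝ → ℝ} (hGc : Continuous G)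
    (hG : ∀ τ : ℝ, ∀ M : Fin N → ℝ, (∀ k, 0 < M k) → (∀ k, AA (y k) (X k) τ ≤ M k) →
      G τ ≤ (∑ k, X k / M k) * (∑ k, (2 * (1 + y k) - X k) / M k) * ∏ k, M k) :
    ∀ (cs : List TT) (gs : List ℕ) (t0 acc : ℕ), tcs J ymax t0 cs = true →
      gsm J N Ka Kb R t0 cs gs acc = true →
      ∃ te : ℝ, a / (1 + a) ≤ te ∧ va t0 ≤ te ∧
        N * Lam J (1 - a) δ * va acc + ∫ τ in (va t0)..te, τ * G τ <
          N * Lam J (1 - a) δ * va R := by
  have hL : 0 < N * Lam J (1 - a) δ := by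
    have : (0:ℝ) < N := by exact_mod_cast hN
    exact mul_pos this (Lam_pos hJ hδ)
  obtain ⟨L, hLd⟩ : ∃ L, L = N * Lam J (1 - a) δ := ⟨_, rfl⟩
  intro cs
  induction cs with
  | nil =>
    intro gs t0 acc ht hg
    rw [tcs] at ht
    rw [gsm] at hg
    refine ⟨va t0, end_le hJ h.a0 (hδ.le0 hJ) (Nat.le_of_ble_eq_true ht), le_rfl, ?_⟩
    rw [intervalIntegral.integral_same, add_zero]
    exact mul_lt_mul_of_pos_left (va_lt (by simpa using hg : acc < R)) hL
  | cons c cs ih =>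
    intro gs t0 acc ht hg
    cases gs with
    | nil =>
      rw [gsm] at hg
      exact absurd hg (by decide)
    | cons g gs =>
      obtain ⟨⟨h01, hp, hq⟩, hyc, ht⟩ := tcs_cons ht
      obtain ⟨⟨hva, hvb⟩, hg⟩ := gsm_cons hg
      obtain ⟨te, h1, h2, h3⟩ := ih gs c.t1 _ ht hg
      have hcell := cell_sound hJ h hN hδ hZ hym hK hGc hG hp hq h01 hyc hva hvb
      refine ⟨te, h1, (va_lt h01).le.trans h2, ?_⟩
      rw [va_add] at h3
      have hfc : Continuous fun τ : ℝ => τ * G τ := by fun_prop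
      have hint : ∫ τ in (va t0)..te, τ * G τ = (∫ τ in (va t0)..(va c.t1), τ * G τ) +
          ∫ τ in (va c.t1)..te, τ * G τ :=
        (intervalIntegral.integral_add_adjacent_intervals
          (hfc.intervalIntegrable _ _) (hfc.intervalIntegrable _ _)).symm
      rw [hint]
      rw [← hLd] at h3 hcell ⊢
      rw [mul_add] at h3
      linarith

end Pool.Agent.Lib.MP_172a45_an.LT
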