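import Pool.Agent.Lib.MP_172a45_an.LT.Snd6

set_option autoImplicit false

/-!
# Soundness of the TC certificate checker, part 7: the theorem (helper58)
-/

namespace Pool.Agent.Lib.MP_172a45_an.LT

open Finset Real Pool.Agent.Lib.MP_172a45_an.F
open Pool.Agent.Lib.MP_172a45_an.LP (rk lk va va_nonneg va_zero va_S va_add va_nmul va_le va_lt
  va_pos va_sub va_sub_of_le lt_div_add_one div_le_cast va_div_up va_div_dn abs_dist rho
  mul_S_cast va_mul_div g_bound c_bound rk_pos neg_log_rk_le)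

/-! ### the first term -/

theorem fcl_def {J : TJ} {ymax tF : ℕ} {c : TT} (h : fcl J ymax tF c = true) :
    (tF * (33554432 - J.b1) ≤ (16777216 - J.b1) * 16777216 ∧
      (16777216 - J.b0) * 16777216 ≤ c.t1 * (33554432 - J.b0) ∧ tF ≤ c.t1 ∧ 0 < c.p) ∧
    cols J tF c.t1 c.p 0 c.na c.nb ymax 0 0 0 c.ys = true := by
  unfold fcl at h
  simp only [Bool.and_eq_true, Nat.ble_eq, Nat.blt_eq] at h
  exact h

/-- the product of the `max (A, 2pT)` at `τ = a/(1+a)` -/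
theorem fcl_sound {J : TJ} (hJ : JR J) {ymax N Ka Kb tF gF : ℕ} {c : TT} {a Δ δ : ℝ}
    {y X x : Fin N → ℝ} (h : FV N a Δ y X) (hδ : BC J (1 - a) δ) (hZ : ZA J ymax a y X x)
    (hym : 0 < ymax)
    (hK : RK J Ka Kb δ (∑ l, rho (Nat.beq J.form 3) (1 - a) (y l) (X l)))
    (hF : fcl J ymax tF c = true)
    (hva : vch J N Ka Kb c.na gF = true) (hvb : vch J N Ka Kb c.nb gF = true) :
    ∏ l, max (AA (y l) (X l) (a / (1 + a))) (2 * va c.p * (1 + y l)) ≤
      va (rg gF) * EE J δ := by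
  obtain ⟨⟨h1, h2, -, hp⟩, hc⟩ := fcl_def hF
  obtain ⟨k1, k2, k3⟩ := frange hJ h.a0 hδ h1 h2
  have k4 := exp_Psi_le hJ h hδ hZ hym hK hp k3 hc hva hvb k1 k2
  have e : ∀ l, 2 * va c.p * (1 + y l) + va 0 * x l = 2 * va c.p * (1 + y l) := fun l => by
    rw [va_zero]; ring
  simp only [e] at k4
  refine (prod_max_le_exp _ _ fun l => ?_).trans k4
  have := h.y0 l
  have := va_pos hp
  positivity

/-- the sum of the `x` (form 3) -/
theorem sum_x_le {J : TJ} (hJ : JR J) (hf : Nat.beq J.form 3 = true) {ymax N Ka Kb : ℕ}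
    {a Δ δ : ℝ} {y X x : Fin N → ℝ} (h : FV N a Δ y X) (hδ : BC J (1 - a) δ)
    (hZ : ZA J ymax a y X x)
    (hK : RK J Ka Kb δ (∑ l, rho (Nat.beq J.form 3) (1 - a) (y l) (X l))) :
    ∑ l, x l ≤ va (mu (bif Nat.ble Ka Kb then Kb else Ka)
      (mu J.ka (mu (16777216 + mu J.b1 ymax) (16777216 + mu J.b1 ymax)))) := by
  have ha := h.a0
  have hb := hδ.b0
  have hb1 := hδ.b1
  have hle1 := hδ.le1 hJ
  have hY := va_nonneg ymax
  have hB1 := va_nonneg J.b1
  have hKA := va_nonneg J.ka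
  have hd0 := hδ.d0
  have hd1 : 0 ≤ 1 - δ := by linarith [hδ.d1]
  obtain ⟨D, hD⟩ : ∃ D, D = 1 + va J.b1 * va ymax := ⟨_, rfl⟩
  have hDp : 0 < D := by rw [hD]; positivity
  have hrow : ∀ l, rho true (1 - a) (y l) (X l) ≤ -(a * (1 / D ^ 2) * x l) := by
    intro l
    have hXx := (hZ.v l).f3 hf
    have hE := (hZ.z l).E
    rw [hXx] at hE ⊢
    have hg : 1 / D ^ 2 * (1 + (1 - a) * y l) ^ 2 ≤ 1 := by
      rw [div_mul_eq_mul_div, one_mul, div_le_one (by positivity)]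
      refine pow_le_pow_left₀ ?_ ?_ 2
      · have := (hZ.z l).y0
        positivity
      · rw [hD]
        have := mul_le_mul hle1 (hZ.ym l) (hZ.z l).y0 hB1
        linarith
    have k := row3 (l := 0) hb hb1 (hZ.z l).y0 (hZ.x0 l) hE (by positivity) hg
    simp only [rho, cond_true]
    refine k.trans (le_of_eq ?_)
    ring
  have h1 : ∑ l, rho true (1 - a) (y l) (X l) ≤ -(a * (1 / D ^ 2) * ∑ l, x l) := by
    refine (Finset.sum_le_sum fun l _ => hrow l).trans (le_of_eq ?_)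
    rw [Finset.sum_neg_distrib, ← Finset.mul_sum]
  have h2 := hK.1 hf
  rw [hf] at h2
  have h3 : (1 - δ) * va Ka + δ * va Kb ≤ va (bif Nat.ble Ka Kb then Kb else Ka) := by
    cases hc : Nat.ble Ka Kb
    · rw [cond_false]
      have : Kb ≤ Ka := by
        rw [← Bool.not_eq_true, Nat.ble_eq] at hc
        omega
      have h5 := mul_le_mul_of_nonneg_left (va_le this) hd0
      linarith
    · rw [cond_true]
      have h5 := mul_le_mul_of_nonneg_left (va_le (Nat.le_of_ble_eq_true hc)) hd1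
      linarith
  obtain ⟨K, hKd⟩ : ∃ K, K = (bif Nat.ble Ka Kb then Kb else Ka) := ⟨_, rfl⟩
  rw [← hKd] at h3 ⊢
  have h4 : a * (1 / D ^ 2) * ∑ l, x l ≤ va K := by linarith
  have h5 : a * ∑ l, x l ≤ va K * D ^ 2 := by
    have e : a * (1 / D ^ 2) * ∑ l, x l = (a * ∑ l, x l) / D ^ 2 := by ring
    rw [e, div_le_iff₀ (by positivity)] at h4
    exact h4
  have hka : 1 ≤ va J.ka * a := hJ.ka1.trans (mul_le_mul_of_nonneg_left (by linarith) hKA)
  have hS0 : 0 ≤ ∑ l, x l := Finset.sum_nonneg fun l _ => hZ.x0 l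
  have h6 : ∑ l, x l ≤ va J.ka * (a * ∑ l, x l) := by nlinarith
  have h7 := mul_le_mul_of_nonneg_left h5 hKA
  have h8 : D ≤ va (16777216 + mu J.b1 ymax) := by
    rw [va_add, va_S, hD]
    have := va_mu J.b1 ymax
    linarith
  have h9 : D ^ 2 ≤ va (mu (16777216 + mu J.b1 ymax) (16777216 + mu J.b1 ymax)) := by
    rw [sq]
    exact va_mu_le h8 h8 hDp.le
  have h10 : va J.ka * D ^ 2 ≤
      va (mu J.ka (mu (16777216 + mu J.b1 ymax) (16777216 + mu J.b1 ymax))) :=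
    va_mu_le le_rfl h9 (by positivity)
  have h11 := va_mu_le (le_refl (va K)) h10 (by positivity)
  linarith

/-- the bound of the first term -/
theorem fpart_sound {J : TJ} (hJ : JR J) {ymax N Ka Kb pF kF : ℕ} {a Δ δ F1 V : ℝ}
    {y X x : Fin N → ℝ} (h : FV N a Δ y X) (hN : 0 < N) (hδ : BC J (1 - a) δ)
    (hZ : ZA J ymax a y X x)
    (hK : RK J Ka Kb δ (∑ l, rho (Nat.beq J.form 3) (1 - a) (y l) (X l))) (hp : 0 < pF)
    (hprod : ∏ l, max (AA (y l) (X l) (a / (1 + a))) (2 * va pF * (1 + y l)) ≤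
      va (rg kF) * EE J δ) (hV1 : V ≤ 1)
    (hF1 : F1 ≤ V * ∏ l, AA (y l) (X l) (a / (1 + a)))
    (hF2 : F1 ≤ (1 - a + a / (1 + a) * ((∑ k, X k) / N)) *
        ∏ l, AA (y l) (X l) (a / (1 + a)) +
      1 / N * (∑ k, Iy a (y k) (X k)) *
        ∑ k, Iy a (y k) (X k) * ∏ l ∈ univ.erase k, AA (y l) (X l) (a / (1 + a))) :
    F1 ≤ Lam J (1 - a) δ *
      va (fpart J ymax N (bif Nat.ble Ka Kb then Kb else Ka) pF kF) := by
  have ha := h.a0
  have ha1 := h.a1
  have hb := hδ.b0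
  have hNr : (0:ℝ) < N := by exact_mod_cast hN
  have hpp := va_pos hp
  have hP0 : 0 ≤ ∏ l, AA (y l) (X l) (a / (1 + a)) :=
    Finset.prod_nonneg fun l _ => Real.sqrt_nonneg _
  have hPle : ∏ l, AA (y l) (X l) (a / (1 + a)) ≤ va (rg kF) * EE J δ :=
    (Finset.prod_le_prod (fun l _ => Real.sqrt_nonneg _) fun l _ => le_max_left _ _).trans hprod
  have hRG := va_nonneg (rg kF)
  unfold fpart
  cases hf : Nat.beq J.form 3
  · rw [cond_false, Lam4 hf]
    have k1 : F1 ≤ va (rg kF) * EE J δ := by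
      refine hF1.trans (le_trans ?_ hPle)
      calc V * ∏ l, AA (y l) (X l) (a / (1 + a)) ≤ 1 * ∏ l, AA (y l) (X l) (a / (1 + a)) :=
            mul_le_mul_of_nonneg_right hV1 hP0
        _ = _ := one_mul _
    have k2 := va_mu (rg kF) J.xi0
    have k3 := hJ.xi0' (hJ.b00 hf)
    have hE := EE_pos J δ
    have k4 := mul_le_mul_of_nonneg_left k2 (mul_nonneg hE.le (va_nonneg J.b0))
    have k5 := mul_le_mul_of_nonneg_left k3 (mul_nonneg hRG hE.le)
    linarith
  · have hsx := sum_x_le hJ hf h hδ hZ hK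
    rw [cond_true, Lam3 hJ hf]
    obtain ⟨sX, hsX⟩ : ∃ s, s = mu (bif Nat.ble Ka Kb then Kb else Ka)
      (mu J.ka (mu (16777216 + mu J.b1 ymax) (16777216 + mu J.b1 ymax))) := ⟨_, rfl⟩
    rw [← hsX] at hsx
    simp only [← hsX]
    rw [EE3 hJ hf, mul_one] at hPle hprod
    have hSx0 : 0 ≤ ∑ l, x l := Finset.sum_nonneg fun l _ => hZ.x0 l
    have hSX : ∑ k, X k = (1 - a) * ∑ k, x k := by
      rw [Finset.mul_sum]
      exact Finset.sum_congr rfl fun k _ => (hZ.v k).f3 hf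
    have k1 := im_part_le h hN hpp
    have k2 : 3 / 8 * ((∑ k, X k) / va pF) *
        ∏ k, max (AA (y k) (X k) (a / (1 + a))) (2 * va pF * (1 + y k)) ≤
        3 / 8 * ((∑ k, X k) / va pF) * va (rg kF) := by
      refine mul_le_mul_of_nonneg_left hprod ?_
      have : 0 ≤ ∑ k, X k := Finset.sum_nonneg fun k _ => h.X0 k
      positivity
    have k3 : (1 - a + a / (1 + a) * ((∑ k, X k) / N)) *
        ∏ l, AA (y l) (X l) (a / (1 + a)) ≤
        (1 - a + 1 / 2 * ((∑ k, X k) / N)) * va (rg kF) := by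
      have h0 : 0 ≤ ∑ k, X k := Finset.sum_nonneg fun k _ => h.X0 k
      have h1 : a / (1 + a) ≤ 1 / 2 := by
        rw [div_le_div_iff₀ (by linarith) (by norm_num)]; linarith
      have h2 : a / (1 + a) * ((∑ k, X k) / N) ≤ 1 / 2 * ((∑ k, X k) / N) :=
        mul_le_mul_of_nonneg_right h1 (by positivity)
      refine mul_le_mul (by linarith) hPle hP0 ?_
      positivity
    have k4 : va sX * va (rg kF) / (2 * N) ≤ va (mu sX (rg kF) / (2 * N) + 1) := by
      have h1 := va_div_up (mu sX (rg kF)) (2 * N) (by omega)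
      have h2 := va_mu sX (rg kF)
      refine le_trans ?_ h1
      push_cast
      exact div_le_div_of_nonneg_right h2 (by positivity)
    have k5 : va sX * va (rg kF) / (2 * va pF) ≤ va (sX * rg kF / (2 * pF) + 1) := by
      have hpr : (0:ℝ) < pF := by exact_mod_cast hp
      have h1 := lt_div_add_one (sX * rg kF) (2 * pF) (by omega)
      have h2 := div_le_div_of_nonneg_right h1 (by norm_num : (0:ℝ) ≤ 16777216)
      refine le_trans (le_of_eq ?_) h2
      rw [Nat.cast_mul sX, Nat.cast_mul 2]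
      unfold va
      push_cast
      field_simp
    have k6 : (∑ k, x k) * va (rg kF) / (2 * N) ≤ va sX * va (rg kF) / (2 * N) :=
      div_le_div_of_nonneg_right (mul_le_mul_of_nonneg_right hsx hRG) (by positivity)
    have k7 : 3 / 4 * ((∑ k, x k) * va (rg kF) / (2 * va pF)) ≤
        va sX * va (rg kF) / (2 * va pF) := by
      have h1 : (∑ k, x k) * va (rg kF) / (2 * va pF) ≤ va sX * va (rg kF) / (2 * va pF) :=
        div_le_div_of_nonneg_right (mul_le_mul_of_nonneg_right hsx hRG) (by positivity)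
      have h2 : 0 ≤ (∑ k, x k) * va (rg kF) / (2 * va pF) := by positivity
      linarith
    have k8 : F1 ≤ (1 - a) * (va (rg kF) + (∑ k, x k) * va (rg kF) / (2 * N) +
        3 / 4 * ((∑ k, x k) * va (rg kF) / (2 * va pF))) := by
      rw [hSX] at k1 k2 k3 hF2
      have e : (1 - a + 1 / 2 * ((1 - a) * (∑ k, x k) / N)) * va (rg kF) +
          3 / 8 * ((1 - a) * (∑ k, x k) / va pF) * va (rg kF) =
          (1 - a) * (va (rg kF) + (∑ k, x k) * va (rg kF) / (2 * N) +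
        3 / 4 * ((∑ k, x k) * va (rg kF) / (2 * va pF))) := by
        field_simp
        ring
      rw [← e]
      linarith
    refine k8.trans (mul_le_mul_of_nonneg_left ?_ hb.le)
    rw [va_add, va_add (rg kF)]
    linarith


/-! ### the theorem -/

/-- the criterion contradicts the certificate: `f` is any bound of the first term -/
theorem concl {J : TJ} (hJ : JR J) {ymax N Ka Kb f : ℕ} {a Δ δ : ℝ} {y X x : Fin N → ℝ}
    (h : FT N a Δ y X) (hN : 0 < N) (hδ : BC J (1 - a) δ) (hZ : ZA J ymax a y X x)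
    (hym : 0 < ymax)
    (hK : RK J Ka Kb δ (∑ l, rho (Nat.beq J.form 3) (1 - a) (y l) (X l)))
    (hD : va (lk J.kD) - 8 ≤ Δ) {cs : List TT} {gs : List ℕ} (ht : tcs J ymax 0 cs = true)
    (hg : gsm J N Ka Kb (RT J) 0 cs gs f = true)
    (hF : ∀ F1 V : ℝ, 0 ≤ V → V ≤ 1 → N * V ≤ ∑ k, AA (y k) (X k) (a / (1 + a)) →
      F1 ≤ V * ∏ l, AA (y l) (X l) (a / (1 + a)) →
      F1 ≤ (1 - a + a / (1 + a) * ((∑ k, X k) / N)) *
        ∏ l, AA (y l) (X l) (a / (1 + a)) +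
      1 / N * (∑ k, Iy a (y k) (X k)) *
        ∑ k, Iy a (y k) (X k) * ∏ l ∈ univ.erase k, AA (y l) (X l) (a / (1 + a)) →
      F1 ≤ Lam J (1 - a) δ * va f) : False := by
  obtain ⟨G, F1, V, r, hGc, hG0, hG, hV0, hV1, hVN, hr0, hr1, hF1, hF2, hcrit⟩ := h.tc
  have ha0 := h.a0
  have ha1 := h.a1
  have hNr : (0:ℝ) < N := by exact_mod_cast hN
  obtain ⟨te, h1, -, h3⟩ := cells_sound hJ h.toFV hN hδ hZ hym hK hGc hG cs gs 0 f ht hg
  rw [va_zero] at h3
  have hfc : Continuous fun τ : ℝ => τ * G τ := by fun_prop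
  have hend0 : 0 ≤ a / (1 + a) := by positivity
  have h4 : ∫ τ in (0:ℝ)..(a / (1 + a)), τ * G τ ≤ ∫ τ in (0:ℝ)..te, τ * G τ := by
    rw [← intervalIntegral.integral_add_adjacent_intervals
      (hfc.intervalIntegrable 0 (a / (1 + a))) (hfc.intervalIntegrable (a / (1 + a)) te)]
    have h5 : 0 ≤ ∫ τ in (a / (1 + a))..te, τ * G τ :=
      intervalIntegral.integral_nonneg h1 fun τ hτ =>
        mul_nonneg (hend0.trans hτ.1) (hG0 τ)
    linarith
  have hF' := hF F1 V hV0 hV1 hVN hF1 hF2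
  have hRT := Lam_RT hJ hδ
  obtain ⟨L, hL⟩ : ∃ L, L = Lam J (1 - a) δ := ⟨_, rfl⟩
  rw [← hL] at h3 hF' hRT
  obtain ⟨I, hI⟩ : ∃ I, I = ∫ τ in (0:ℝ)..(a / (1 + a)), τ * G τ := ⟨_, rfl⟩
  obtain ⟨I2, hI2⟩ : ∃ I, I = ∫ τ in (0:ℝ)..te, τ * G τ := ⟨_, rfl⟩
  rw [← hI, ← hI2] at h4
  rw [← hI2] at h3
  rw [← hI] at hcrit
  -- the total
  have h6 : L * va f + 1 / N * I < L * va (RT J) := by
    have h7 : N * (L * va f + 1 / N * I) < N * (L * va (RT J)) := by
      have e : N * (L * va f + 1 / N * I) = N * L * va f + I := by field_simp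
      rw [e]
      linarith
    exact lt_of_mul_lt_mul_left h7 hNr.le
  -- `σ ≤ 1 - exp (-Δ)`
  have hexp : Real.exp (-Δ) ≤ va (rk J.kD) := by
    have k1 : -Real.log (va (rk J.kD)) ≤ va (lk J.kD) - 8 := neg_log_rk_le hJ.kD
    rw [← Real.le_log_iff_exp_le (va_pos (rk_pos hJ.kD))]
    linarith
  have hsig : va (16777216 - rk J.kD) ≤ 1 - Real.exp (-Δ) := by
    rcases le_total (rk J.kD) 16777216 with k1 | k1
    · rw [va_sub_of_le k1, va_S]; linarith
    · rw [Nat.sub_eq_zero_of_le k1, va_zero]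
      have := Real.exp_le_one_iff.2 (by linarith [h.D0] : -Δ ≤ 0)
      linarith
  have hR : (1 - a) * Rb J (1 - a) ≤ (1 - a) * (1 + a * (1 - Real.exp (-Δ))) := by
    refine mul_le_mul_of_nonneg_left ?_ (by linarith)
    unfold Rb
    have := mul_le_mul_of_nonneg_left hsig ha0.le
    linarith
  have hr : a * r * Real.exp (-Δ) ≤ a * Real.exp (-Δ) := by
    have k1 : a * r ≤ a * 1 := mul_le_mul_of_nonneg_left hr1 ha0.le
    have := mul_le_mul_of_nonneg_right k1 (Real.exp_pos (-Δ)).le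
    linarith
  have e : (1 - a) * (1 + a * (1 - Real.exp (-Δ))) =
      1 - a ^ 2 * (1 - Real.exp (-Δ)) - a * Real.exp (-Δ) := by ring
  rw [e] at hR
  linarith

theorem nok_def {J : TJ} {ymax : ℕ} {cF : TT} {cs : List TT} {n : NT}
    (h : nok J ymax cF cs n = true) :
    ((0 < n.N ∧ n.N * (16777216 - J.b0) ≤ ymax) ∧ rowKok J n.N n.ja n.jb = true) ∧
    (vch J n.N (rowKa J n.N n.ja n.jb) (rowKb J n.N n.ja n.jb) cF.na n.gF = true ∧
      vch J n.N (rowKa J n.N n.ja n.jb) (rowKb J n.N n.ja n.jb) cF.nb n.gF = true) ∧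
    gsm J n.N (rowKa J n.N n.ja n.jb) (rowKb J n.N n.ja n.jb) (RT J) 0 cs n.gs
      (fpart J ymax n.N (bif Nat.ble (rowKa J n.N n.ja n.jb) (rowKb J n.N n.ja n.jb) then
        rowKb J n.N n.ja n.jb else rowKa J n.N n.ja n.jb) cF.p n.gF) = true := by
  unfold nok at h
  simp only [Bool.and_eq_true, Nat.blt_eq, Nat.ble_eq] at h
  exact h

/-- the facts about the zeros -/
theorem ZA_of {J : TJ} (hJ : JR J) {ymax N : ℕ} {a Δ : ℝ} {y X : Fin N → ℝ}
    (h : FV N a Δ y X) (hb0 : va J.b0 ≤ 1 - a) (hy : N * (16777216 - J.b0) ≤ ymax) :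
    ZA J ymax a y X (fun l => bif Nat.beq J.form 3 then X l / (1 - a) else X l) := by
  have ha0 := h.a0
  have ha1 := h.a1
  have hb : 1 - a ≠ 0 := by linarith
  have hN : (0:ℝ) ≤ N := Nat.cast_nonneg N
  refine ⟨fun l => ⟨fun hf => ?_, fun hf => ?_⟩, fun l => ⟨h.y0 l, h.X0 l, ?_, h.X2 l,
    h.E_pos l⟩, fun l => ?_, fun l => ?_⟩
  · rw [hf, cond_true]
    field_simp
  · rw [hf, cond_false]
  · have := h.gl l
    have e : 1 - (1 - a) = a := by ring
    rw [e]
    exact this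
  · have h0 := h.X0 l
    have h1 : 0 ≤ X l / (1 - a) := div_nonneg h0 (by linarith)
    cases Nat.beq J.form 3
    · exact h0
    · exact h1
  · have h1 : y l ≤ ∑ k, y k :=
      Finset.single_le_sum (f := y) (fun k _ => h.y0 k) (Finset.mem_univ l)
    rw [h.sum] at h1
    have h2 := va_le hy
    rw [va_nmul, hJ.va_b0] at h2
    have h3 : a * N ≤ N * (1 - va J.b0) := by
      rw [mul_comm]
      exact mul_le_mul_of_nonneg_left (by linarith) hN
    linarith

theorem ymax_pos {J : TJ} (hJ : JR J) {ymax N : ℕ} (hN : 0 < N)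
    (hy : N * (16777216 - J.b0) ≤ ymax) : 0 < ymax := by
  have h1 : 0 < 16777216 - J.b0 := by have := hJ.b01.trans hJ.b1; omega
  exact lt_of_lt_of_le (Nat.mul_pos hN h1) hy

theorem jobok_def {j : Job} (h : j.ok = true) :
    jok j.J = true ∧ fcl j.J j.ymax j.tF j.cF = true ∧
    tcs j.J j.ymax 0 j.cs = true ∧ j.ns.all (nok j.J j.ymax j.cF j.cs) = true := by
  unfold Job.ok at h
  simp only [Bool.and_eq_true] at h
  exact h

/-- soundness of the certificate checker -/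
theorem Job.sound (j : Job) (hj : j.ok = true) : ∀ n ∈ j.ns, ∀ (a Δ : ℝ) (y X : Fin n.N → ℝ),
    FT n.N a Δ y X → (j.J.b0 : ℝ) / 16777216 ≤ 1 - a → 1 - a ≤ (j.J.b1 : ℝ) / 16777216 →
    (lk j.J.kD : ℝ) / 16777216 - 8 ≤ Δ → False := by
  intro n hn a Δ y X h hb0 hb1 hD
  obtain ⟨hjok, hF, ht, hns⟩ := jobok_def hj
  have hJ := jok_sound hjok
  have hnok := List.all_eq_true.1 hns n hn
  obtain ⟨⟨⟨hN, hy⟩, hrow⟩, ⟨hva, hvb⟩, hg⟩ := nok_def hnok
  have hb0' : va j.J.b0 ≤ 1 - a := hb0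
  have hb1' : 1 - a ≤ va j.J.b1 := hb1
  have ha1 := h.a1
  obtain ⟨δ, hδ⟩ := BC.exists hJ (by linarith : 0 < 1 - a) hb0' hb1'
  have hZ := ZA_of hJ h.toFV hb0' hy
  have hym := ymax_pos hJ hN hy
  have hK := rowK_sound hJ hrow h.toFV hδ
  have hprod := fcl_sound hJ h.toFV hδ hZ hym hK hF hva hvb
  have hp := (fcl_def hF).1.2.2.2
  exact concl hJ h hN hδ hZ hym hK hD ht hg fun F1 V _ hV1 _ hF1 hF2 =>
    fpart_sound hJ h.toFV hN hδ hZ hK hp hprod hV1 hF1 hF2

end Pool.Agent.Lib.MP_172a45_an.LT
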