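import Pool.Agent.Lib.MP_172a45_an.LT.Snd7
import Pool.Agent.Lib.MP_172a45_an.LT.ChkJ
import Pool.Agent.Lib.MP_172a45_an.F.FJ

set_option autoImplicit false

/-!
# Soundness of `JobJ.ok`: the first term
-/

namespace Pool.Agent.Lib.MP_172a45_an.LT

open Finset Real Pool.Agent.Lib.MP_172a45_an.F
open Pool.Agent.Lib.MP_172a45_an.LP (rk lk va va_nonneg va_zero va_S va_add va_nmul va_le va_lt
  va_pos va_sub va_sub_of_le lt_div_add_one div_le_cast va_div_up va_div_dn abs_dist rho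
  mul_S_cast va_mul_div g_bound c_bound rk_pos neg_log_rk_le)

/-- `m_b(y) ≥ y²/2 - b y³/3` -/
theorem mb_ge {b y : ℝ} (hb : 0 < b) (hy : 0 ≤ y) : y ^ 2 / 2 - b * y ^ 3 / 3 ≤ mb b y := by
  have hm : MonotoneOn (fun x : ℝ => mb b x - (x ^ 2 / 2 - b * x ^ 3 / 3)) (Set.Ici 0) := by
    refine mono_aux (f' := fun x => x / (1 + b * x) - (x - b * x ^ 2)) (convex_Ici 0) ?_ ?_
    · intro x hx
      have h2 : HasDerivAt (fun x : ℝ => x ^ 2 / 2 - b * x ^ 3 / 3) (x - b * x ^ 2) x := by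
        have h3 := ((hasDerivAt_pow 2 x).div_const 2).sub
          (((hasDerivAt_pow 3 x).const_mul b).div_const 3)
        refine h3.congr_deriv ?_
        norm_num
        ring
      exact (mb_hasDeriv hb.le hx).sub h2
    · intro x hx
      have hx0 : (0:ℝ) ≤ x := hx
      have h1 : 0 < 1 + b * x := by positivity
      have : x / (1 + b * x) - (x - b * x ^ 2) = b ^ 2 * x ^ 3 / (1 + b * x) := by
        field_simp
        ring
      rw [this]
      positivity
  have h0 := hm (Set.mem_Ici.2 le_rfl) (Set.mem_Ici.2 hy) hy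
  simp only [mb_zero] at h0
  norm_num at h0
  linarith

/-- the lower bound of `m_b(a)` -/
theorem mloJ_sound {b1 : ℕ} {a : ℝ} (hb : 0 < 1 - a) (h1 : 1 - a ≤ va b1) (hb1 : b1 < 16777216) :
    va (mloJ b1) ≤ mb (1 - a) a := by
  have hv : va (16777216 - b1) = 1 - va b1 := by
    rw [va_sub_of_le hb1.le, va_S]
  obtain ⟨y, hy⟩ : ∃ y, y = 1 - va b1 := ⟨_, rfl⟩
  have hy0 : 0 ≤ y := by
    rw [← hv] at hy
    rw [hy]; exact va_nonneg _
  have hya : y ≤ a := by rw [hy]; linarith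
  rw [← hy] at hv
  have k1 := mb_ge hb hy0
  have k2 := mb_mono hb.le hy0 hya
  refine le_trans ?_ (k1.trans k2)
  unfold mloJ
  have m1 := va_md (16777216 - b1) (16777216 - b1)
  rw [hv] at m1
  have m2 := va_div_dn (md (16777216 - b1) (16777216 - b1)) 2
  have m3 : va b1 * (y * (y * y)) ≤
      va (mu b1 (mu (16777216 - b1) (mu (16777216 - b1) (16777216 - b1)))) := by
    have e1 : y * y ≤ va (mu (16777216 - b1) (16777216 - b1)) :=
      va_mu_le hv.ge hv.ge hy0
    have e2 : y * (y * y) ≤ va (mu (16777216 - b1) (mu (16777216 - b1) (16777216 - b1))) :=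
      va_mu_le hv.ge e1 (by positivity)
    exact va_mu_le le_rfl e2 (by positivity)
  have m4 := va_div_up (mu b1 (mu (16777216 - b1) (mu (16777216 - b1) (16777216 - b1)))) 3
    (by norm_num)
  push_cast at m2 m4
  obtain ⟨A, hA⟩ : ∃ A, A = md (16777216 - b1) (16777216 - b1) / 2 := ⟨_, rfl⟩
  obtain ⟨B, hB⟩ : ∃ B, B = mu b1 (mu (16777216 - b1) (mu (16777216 - b1) (16777216 - b1))) / 3
      + 1 := ⟨_, rfl⟩
  rw [← hA] at m2 ⊢
  rw [← hB] at m4 ⊢
  have hR : 0 ≤ y ^ 2 / 2 - (1 - a) * y ^ 3 / 3 := by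
    have h3 : (1 - a) * y ≤ 1 := by
      have : y ≤ 1 := by
        rw [hy]
        have := va_nonneg b1
        linarith
      nlinarith
    nlinarith [mul_nonneg (sq_nonneg y) (by linarith : (0:ℝ) ≤ 1 - (1 - a) * y), sq_nonneg y]
  rcases le_total B A with h | h
  · rw [va_sub_of_le h]
    have h4 : (1 - a) * y ^ 3 ≤ va b1 * (y * (y * y)) := by
      have : y ^ 3 = y * (y * y) := by ring
      rw [this]
      exact mul_le_mul_of_nonneg_right h1 (by positivity)
    nlinarith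
  · rw [Nat.sub_eq_zero_of_le h, va_zero]
    exact hR

/-- the sum of the `x` -/
theorem sXJ_sound {J : TJ} (hJ : JR J) (hf : Nat.beq J.form 3 = true) {ymax N Ka Kb : ℕ}
    {a Δ δ : ℝ} {y X x : Fin N → ℝ} (h : FV N a Δ y X) (hδ : BC J (1 - a) δ)
    (hZ : ZA J ymax a y X x)
    (hK : RK J Ka Kb δ (∑ l, rho (Nat.beq J.form 3) (1 - a) (y l) (X l))) :
    ∑ l, x l ≤ va (sXJ J ymax N (bif Nat.ble Ka Kb then Kb else Ka)) := by
  have ha := h.a0
  have hb := hδ.b0
  have hle1 := hδ.le1 hJ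
  have hY := va_nonneg ymax
  have hB1 := va_nonneg J.b1
  have hKA := va_nonneg J.ka
  have hd0 := hδ.d0
  have hd1 : 0 ≤ 1 - δ := by linarith [hδ.d1]
  obtain ⟨D, hD⟩ : ∃ D, D = 1 + va J.b1 * va ymax := ⟨_, rfl⟩
  have hDp : 0 < D := by rw [hD]; positivity
  have h2 := hK.1 hf
  rw [hf] at h2
  have h3 : (1 - δ) * va Ka + δ * va Kb ≤ va (bif Nat.ble Ka Kb then Kb else Ka) := by
    cases hc : Nat.ble Ka Kb
    · rw [cond_false]
      have : Kb ≤ Ka := by
        rw [← Bool.not_eq_true, Nat.ble_eq] at hc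
        omega
      have h5 := mul_le_mul_of_nonneg_left (va_le this) hd0
      linarith
    · rw [cond_true]
      have h5 := mul_le_mul_of_nonneg_left (va_le (Nat.le_of_ble_eq_true hc)) hd1
      linarith
  obtain ⟨K, hKd⟩ : ∃ K, K = (bif Nat.ble Ka Kb then Kb else Ka) := ⟨_, rfl⟩
  rw [← hKd] at h3 ⊢
  have hg : ∀ k, 1 / D ^ 2 * (1 + va J.b1 * y k) ^ 2 ≤ 1 := by
    intro k
    rw [div_mul_eq_mul_div, one_mul, div_le_one (by positivity)]
    refine pow_le_pow_left₀ ?_ ?_ 2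
    · have := (hZ.z k).y0
      positivity
    · rw [hD]
      have := mul_le_mul_of_nonneg_left (hZ.ym k) hB1
      linarith
  have h4 := h.sum_x3_le (K := va K) (g := 1 / D ^ 2) hle1 hJ.va_b1_lt (by positivity) hg (by
    refine le_trans ?_ (le_of_eq ?_) (b := ∑ l, rho true (1 - a) (y l) (X l))
    · linarith
    · rfl)
  have hx : ∀ k, X k / (1 - a) = x k := fun k => by
    rw [(hZ.v k).f3 hf]
    field_simp
  simp only [hx] at h4
  have hm := mloJ_sound hb hle1 hJ.b1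
  have hNr : (0:ℝ) ≤ N := Nat.cast_nonneg N
  have h5 : va K - N * mb (1 - a) a ≤ va (K - N * mloJ J.b1) := by
    have k1 := va_sub K (N * mloJ J.b1)
    rw [va_nmul] at k1
    have k2 := mul_le_mul_of_nonneg_left hm hNr
    linarith
  obtain ⟨R, hR⟩ : ∃ R, R = K - N * mloJ J.b1 := ⟨_, rfl⟩
  rw [← hR] at h5
  have h6 : a * ∑ l, x l ≤ va R * D ^ 2 := by
    have e : a * (1 / D ^ 2) * ∑ l, x l = (a * ∑ l, x l) / D ^ 2 := by ring
    have h7 := h4.trans h5
    rw [e, div_le_iff₀ (by positivity)] at h7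
    exact h7
  have hka : 1 ≤ va J.ka * a := hJ.ka1.trans (mul_le_mul_of_nonneg_left (by linarith) hKA)
  have hS0 : 0 ≤ ∑ l, x l := Finset.sum_nonneg fun l _ => hZ.x0 l
  have h6' : ∑ l, x l ≤ va J.ka * (a * ∑ l, x l) := by nlinarith
  have h7 := mul_le_mul_of_nonneg_left h6 hKA
  have h8 : D ≤ va (16777216 + mu J.b1 ymax) := by
    rw [va_add, va_S, hD]
    have := va_mu J.b1 ymax
    linarith
  have h9 : D ^ 2 ≤ va (mu (16777216 + mu J.b1 ymax) (16777216 + mu J.b1 ymax)) := by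
    rw [sq]
    exact va_mu_le h8 h8 hDp.le
  have h10 : va J.ka * D ^ 2 ≤
      va (mu J.ka (mu (16777216 + mu J.b1 ymax) (16777216 + mu J.b1 ymax))) :=
    va_mu_le le_rfl h9 (by positivity)
  have h11 := va_mu_le (le_refl (va R)) h10 (by positivity)
  unfold sXJ
  simp only
  rw [← hR]
  linarith

/-- the sum of the `J` -/
theorem sJJ_sound {J : TJ} (hJ : JR J) {N lam sX : ℕ} {a Δ δ : ℝ} {y X x : Fin N → ℝ}
    (h : FV N a Δ y X) (hδ : BC J (1 - a) δ) (hl : 0 < lam) (hx0 : ∀ k, 0 ≤ x k)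
    (hsx : ∑ l, x l ≤ va sX) :
    ∑ k, Jy (1 - a) (y k) (x k) ≤ va (sJJ J N lam sX) := by
  have hlr := va_pos hl
  have hb := hδ.b0
  have hb0 := hδ.le0 hJ
  have h1 := sum_Jy_le hb.le h.y0 hx0 hlr h.sum
  refine h1.trans ?_
  have hJb : J.b0 ≤ 33554432 := by
    have := hJ.b01.trans hJ.b1
    omega
  unfold sJJ
  obtain ⟨A, hA⟩ : ∃ A, A = mu lam sX := ⟨_, rfl⟩
  obtain ⟨B, hB⟩ : ∃ B, B = 2 * N * (33554432 - J.b0) * 16777216 / lam + 1 := ⟨_, rfl⟩
  rw [← hA, ← hB]
  have k1 := va_div_up (A + B) 2 (by norm_num)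
  refine le_trans ?_ k1
  push_cast
  refine div_le_div_of_nonneg_right ?_ (by norm_num)
  rw [va_add]
  have k2 : va lam * ∑ k, x k ≤ va A := by
    rw [hA]
    exact va_mu_le le_rfl hsx (Finset.sum_nonneg fun k _ => hx0 k)
  have k3 : 2 * (N * (1 + a)) / va lam ≤ va B := by
    have h2 := lt_div_add_one (2 * N * (33554432 - J.b0) * 16777216) lam hl
    rw [← hB] at h2
    have h3 := div_le_div_of_nonneg_right h2 (by norm_num : (0:ℝ) ≤ 16777216)
    refine le_trans ?_ h3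
    have hl' : (0:ℝ) < lam := by exact_mod_cast hl
    have e : (((2 * N * (33554432 - J.b0) * 16777216 : ℕ) : ℝ) / lam) / 16777216 =
        2 * (N * (2 - va J.b0)) / va lam := by
      rw [Nat.cast_mul, Nat.cast_mul (2 * N), Nat.cast_sub hJb, Nat.cast_mul]
      unfold va
      push_cast
      field_simp
      ring
    rw [e]
    refine div_le_div_of_nonneg_right ?_ hlr.le
    have h4 : (N:ℝ) * (1 + a) ≤ N * (2 - va J.b0) :=
      mul_le_mul_of_nonneg_left (by linarith) (Nat.cast_nonneg N)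
    linarith
  linarith

theorem exp_neg_one_le : Real.exp (-1) ≤ 36788 / 100000 := by
  have h := Real.exp_one_gt_d9
  rw [Real.exp_neg, inv_le_comm₀ (Real.exp_pos 1) (by norm_num)]
  have : (100000 / 36788 : ℝ) ≤ 2.7182818283 := by norm_num
  rw [inv_div]
  linarith

/-- the arithmetic of `fpJ` -/
theorem fpJ_real {J : TJ} {ymax N K kap lam pJ kF kJ : ℕ} (hN : 0 < N) (hk : 0 < kap)
    (hp : 0 < pJ) {P Q sx sj : ℝ} (hP0 : 0 ≤ P) (hP : P ≤ va (rg kF)) (hQ0 : 0 ≤ Q)
    (hQ : Q ≤ va (rg kJ)) (hsx0 : 0 ≤ sx) (hsx : sx ≤ va (sXJ J ymax N K))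
    (hsj : sj ≤ va (sJJ J N lam (sXJ J ymax N K))) :
    (1 + 1 / 2 * (sx / N)) * P + 1 / 4 / N * sj * (Real.exp (-1) / (2 * va kap * va pJ) * Q) ≤
      va (fpJ J ymax N K kap lam pJ kF kJ) := by
  have hNr : (0:ℝ) < N := by exact_mod_cast hN
  have hkr : (0:ℝ) < kap := by exact_mod_cast hk
  have hpr : (0:ℝ) < pJ := by exact_mod_cast hp
  unfold fpJ
  simp only
  obtain ⟨sX, hsX⟩ : ∃ s, s = sXJ J ymax N K := ⟨_, rfl⟩
  rw [← hsX] at hsx hsj ⊢
  obtain ⟨sJ, hsJ⟩ : ∃ s, s = sJJ J N lam sX := ⟨_, rfl⟩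
  rw [← hsJ] at hsj ⊢
  rw [va_add, va_add]
  have k1 : sx * P / (2 * N) ≤ va (mu sX (rg kF) / (2 * N) + 1) := by
    have h1 := va_div_up (mu sX (rg kF)) (2 * N) (by omega)
    have h2 : sx * P ≤ va (mu sX (rg kF)) := va_mu_le hsx hP hP0
    refine le_trans ?_ h1
    push_cast
    exact div_le_div_of_nonneg_right h2 (by positivity)
  have k2 : 1 / 4 / N * sj * (Real.exp (-1) / (2 * va kap * va pJ) * Q) ≤
      va (sJ * rg kJ * 36788 * 16777216 / (800000 * N * (kap * pJ)) + 1) := by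
    have h1 := lt_div_add_one (sJ * rg kJ * 36788 * 16777216) (800000 * N * (kap * pJ))
      (by positivity)
    have h2 := div_le_div_of_nonneg_right h1 (by norm_num : (0:ℝ) ≤ 16777216)
    refine le_trans ?_ h2
    have e : (((sJ * rg kJ * 36788 * 16777216 : ℕ) : ℝ) /
        ((800000 * N * (kap * pJ) : ℕ) : ℝ)) / 16777216 =
        1 / 4 / N * va sJ * (36788 / 100000 / (2 * va kap * va pJ) * va (rg kJ)) := by
      generalize rg kJ = G
      unfold va
      push_cast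
      field_simp
      ring
    rw [e]
    have hva1 := va_pos hk
    have hva2 := va_pos hp
    have h3 : Real.exp (-1) / (2 * va kap * va pJ) * Q ≤
        36788 / 100000 / (2 * va kap * va pJ) * va (rg kJ) :=
      mul_le_mul (div_le_div_of_nonneg_right exp_neg_one_le (by positivity)) hQ hQ0
        (by positivity)
    have h4 : 1 / 4 / N * sj ≤ 1 / 4 / N * va sJ :=
      mul_le_mul_of_nonneg_left hsj (by positivity)
    have hE := Real.exp_pos (-1)
    exact mul_le_mul h4 h3 (by positivity) (mul_nonneg (by positivity) (va_nonneg _))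
  have e : (1 + 1 / 2 * (sx / N)) * P = P + sx * P / (2 * N) := by
    field_simp
  rw [e]
  linarith

end Pool.Agent.Lib.MP_172a45_an.LT
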